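import Pool.Agent.Lib.MP_7cad78_nt.AlgFin

/-! Families of descent data which differ only in the local conditions. -/

namespace Pool.Agent.Lib.MP_7cad78_nt.PR

open Finset

set_option linter.unusedSectionVars false

structure JD (Γ V P T : Type) where
  f : P → Fin 3
  B : V → V → F
  W : T → Finset V
  r0 : Γ → V
  r1 : P → V
  a : P → Γ → F
  b : T → P → F
  l : P → P → F

variable {k : ℕ}

noncomputable def psJ {Γ V : Type} (B : V → V → F) (w : Option (Fin k) → V)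
    (γ : Option (Fin k) → Γ) (t : F) (r1 : V) (a : Γ → F) (b : Option (Fin k) → F) (c : Cl k) : ℝ :=
  (2 ^ k)⁻¹ * sg (t + ∑ j, (ox t c.1 j * B r1 (w j) + ox t c.2 j * (a (γ j) + ox t c.1 j * b j)))

lemma abs_psJ {Γ V : Type} (B : V → V → F) (w : Option (Fin k) → V)
    (γ : Option (Fin k) → Γ) (t : F) (r1 : V) (a : Γ → F) (b : Option (Fin k) → F) (c : Cl k) :
    |psJ B w γ t r1 a b c| ≤ 1 := by
  rw [psJ, abs_mul, abs_sg, mul_one, abs_of_pos (by positivity)]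
  exact inv_le_one_of_one_le₀ (one_le_pow₀ one_le_two)

namespace JD

variable {Γ V P T : Type} [AddCommGroup Γ] [Module F Γ] [Fintype Γ] [AddCommGroup V] [Module F V]
  [Fintype P] [DecidableEq P] (J : JD Γ V P T) (m : P → Prop) [DecidablePred m]

def D (t : T) : SD Γ V P := ⟨J.f, J.B, J.W t, J.r0, J.r1, J.a, J.b t, J.l⟩

lemma la_tw (t t' : T) (d : Γ × (P → F)) (p : P) :
    (J.D t).la d p = (J.D t').la d p + d.2 p * (J.b t p + J.b t' p) := by
  simp only [SD.la, D]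
  linear_combination -Fadd (d.2 p * J.b t' p)

noncomputable def EE (σ : Fin k → T) (𝒰 : Finset (Fin 3 → Finset (Cl k))) : ℝ :=
  ((2 ^ k) ^ Fintype.card P)⁻¹ * ∑ x, ∑ y,
    if im J.f m (uu x y) ∈ 𝒰 then ∏ j, (J.D (σ j)).A1 (x j) (y j) else 0

open Classical in
noncomputable def NT (t : F) (t0 : T) (σ : Fin k → T) (𝒰 : Finset (Fin 3 → Finset (Cl k))) : ℝ :=
  sgn t #(gz J.r0 (J.W t0)) / #(gz J.r0 (J.W t0)) * ∑ γ : Option (Fin k) → Γ,
    ∑ w ∈ Fintype.piFinset fun j => J.W (ox t0 σ j),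
      (∏ j, (#(J.W (ox t0 σ j)) : ℝ)⁻¹) * sg (∑ j, J.B (J.r0 (γ j)) (w j)) *
      ∑ U ∈ 𝒰, Zs J.f m J.l (ee t)
        (fun p => psJ J.B w γ t (J.r1 p) (J.a p) fun j => J.b (ox t0 σ j) p) U

open Classical in
/-- tuples of Selmer elements with a condition on the colouring -/
noncomputable def CN (σ : Fin k → T) (Φ : (Fin k → P → F) → Prop) : ℕ :=
  #{d ∈ Fintype.piFinset fun j => (J.D (σ j)).S | Φ fun j => (d j).2}

/-- constant on the medium primes of each form -/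
def Pat (x : P → F) : Prop := ∃ s : Fin 3 → F, ∑ i, s i = 0 ∧ ∀ p, m p → x p = s (J.f p)

def IndX (x : Fin k → P → F) : Prop := ∀ v : Fin k → F, J.Pat m (fun p => ∑ j, v j * x j p) → v = 0

variable {J m}

lemma EE_union (σ : Fin k → T) {𝒰 𝒱 : Finset (Fin 3 → Finset (Cl k))} (h : Disjoint 𝒰 𝒱) :
    J.EE m σ (𝒰 ∪ 𝒱) = J.EE m σ 𝒰 + J.EE m σ 𝒱 := by
  simp only [EE, ← mul_add, ← sum_add_distrib]
  refine congrArg _ (sum_congr rfl fun x _ => sum_congr rfl fun y _ => ?_)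
  by_cases h1 : im J.f m (uu x y) ∈ 𝒰
  · simp [h1, disjoint_left.1 h h1]
  · simp [h1]

lemma EE_le (σ : Fin k → T) (𝒰 : Finset (Fin 3 → Finset (Cl k))) (h : ∀ U ∈ 𝒰, ∏ i, #(U i) < 8 ^ k) :
    |J.EE m σ 𝒰| ≤ ((2 ^ k) ^ Fintype.card P)⁻¹ *
      (#{u : P → Cl k | ∏ i, #(im J.f m u i) < 8 ^ k} * Fintype.card Γ ^ k) := by
  rw [EE, abs_mul, abs_of_pos (by positivity), card_filter]
  push_cast
  rw [sum_mul, sum_uu]
  gcongr
  refine (abs_sum_le_sum_abs _ _).trans (sum_le_sum fun x _ =>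
    (abs_sum_le_sum_abs _ _).trans (sum_le_sum fun y _ => ?_))
  by_cases hu : im J.f m (uu x y) ∈ 𝒰
  · rw [if_pos hu, if_pos (h _ hu), abs_prod, one_mul]
    simpa using prod_le_prod (s := univ) (fun j _ => abs_nonneg _)
      fun j _ => SD.abs_A1 (D := J.D (σ j)) (x j) (y j)
  · rw [if_neg hu, abs_zero]; split_ifs <;> positivity

open Classical in
lemma prod_A1 (σ : Fin k → T) (x y : Fin k → P → F) :
    ∏ j, (J.D (σ j)).A1 (x j) (y j) = ∑ γ : Fin k → Γ,
    if ∀ j, (γ j, x j) ∈ (J.D (σ j)).H then sg (∑ j, dot (y j) ((J.D (σ j)).la (γ j, x j))) else 0 := by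
  simp only [SD.A1]
  rw [prod_univ_sum, Fintype.piFinset_univ]
  refine sum_congr rfl fun γ _ => ?_
  rw [prod_ite_zero, sg_sum]
  simp

open Classical in
lemma EE_cnt (σ : Fin k → T) {𝒰 : Finset (Fin 3 → Finset (Cl k))} {Φ : (Fin k → P → F) → Prop}
    (hΦ : ∀ x y, im J.f m (uu x y) ∈ 𝒰 ↔ Φ x) : J.EE m σ 𝒰 = J.CN σ Φ := by
  rw [CN, EE, SD.card_pairs _ (fun d => (∀ j, d j ∈ (J.D (σ j)).S) ∧ Φ fun j => (d j).2)
    fun _ => by simp only [mem_filter, Fintype.mem_piFinset], mul_sum]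
  refine sum_congr rfl fun x _ => ?_
  simp only [hΦ]
  have a : ∀ (t : T) (x : P → F), ∑ y, (J.D t).A1 x y =
      2 ^ Fintype.card P * ∑ g, if (g, x) ∈ (J.D t).S then 1 else 0 := by
    intro t x
    simp only [SD.A1]
    rw [sum_comm, mul_sum]
    refine sum_congr rfl fun g _ => ?_
    rw [sum_ite_irrel, char_sum Sub.univ fun a _ b _ => add_dot a b _]
    by_cases h4 : (g, x) ∈ (J.D t).H <;> by_cases h5 : (J.D t).la (g, x) = 0
    · simp [h4, h5, SD.mem_S]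
    · rw [if_pos h4, if_neg fun e => h5 (eq_of_dot (by simpa using e))]; simp [h5, SD.mem_S]
    · simp [h4, SD.mem_S]
    · simp [h4, SD.mem_S]
  rw [sum_ite_irrel, sum_const_zero, ← Fintype.piFinset_univ, ← prod_univ_sum]
  simp only [a]
  rw [prod_mul_distrib, prod_const, prod_univ_sum, Fintype.piFinset_univ, card_univ, Fintype.card_fin]
  split_ifs with h4
  · rw [← pow_mul, ← pow_mul, mul_comm k, inv_mul_cancel_left₀ (by positivity)]
    refine sum_congr rfl fun γ _ => ?_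
    rw [prod_ite_zero]
    by_cases h5 : ∀ j, (γ j, x j) ∈ (J.D (σ j)).S
    · rw [if_pos fun j _ => h5 j, if_pos ⟨h5, h4⟩]; simp
    · rw [if_neg fun e => h5 fun j => e j (mem_univ _), if_neg fun e => h5 e.1]
  · rw [mul_zero]
    exact (sum_eq_zero fun γ _ => if_neg fun e => h4 e.2).symm

variable (h : ∀ t, (J.D t).Ok)
include h

lemma phase (t : F) (s : Option (Fin k) → T) (x y : Fin k → P → F) (γ : Option (Fin k) → Γ)
    (w : Option (Fin k) → V) :
    sg (∑ j, J.B (J.r0 (γ j)) (w j)) *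
      ((∏ p, psJ J.B w γ t (J.r1 p) (J.a p) (fun j => J.b (s j) p) (uu x y p)) *
        sg (∑ p, ∑ q, ee t (J.f p) (J.f q) (uu x y p) (uu x y q) * J.l p q)) =
    ((2 ^ k) ^ Fintype.card P)⁻¹ * sg (∑ _p : P, t) *
      ∏ j, sg ((J.D (s j)).B ((J.D (s j)).r (γ j, ox (fun _ => t) x j)) (w j) +
      dot (ox (fun _ => t) y j) ((J.D (s j)).la (γ j, ox (fun _ => t) x j))) := by
  have e1 : ∀ p j, ox t (uu x y p).1 j = ox (fun _ => t) x j p := fun p j => by cases j <;> rfl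
  have e2 : ∀ p j, ox t (uu x y p).2 j = ox (fun _ => t) y j p := fun p j => by cases j <;> rfl
  simp only [psJ, ee, e1, e2]
  rw [prod_mul_distrib, prod_const, card_univ, inv_pow, ← sg_sum, ← sg_sum, mul_assoc, mul_left_comm,
    mul_assoc, ← sg_add, ← sg_add, ← sg_add]
  congr 2
  simp only [(h _).B_r]
  simp only [D, dot, SD.la, sum_add_distrib, mul_add, sum_mul, mul_sum, add_mul, ite_mul, mul_ite,
    mul_zero, zero_mul, mul_assoc]
  rw [sum_comm (f := fun p j => _ * J.B (J.r1 p) (w j)), sum_comm (f := fun p j => _ * J.a p (γ j)),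
    sum_comm (f := fun p j => _ * (_ * J.b (s j) p))]
  have sw : ∀ g : P → P → Option (Fin k) → F, ∑ p, ∑ q, ∑ j, g p q j = ∑ j, ∑ p, ∑ q, g p q j :=
    fun g => by rw [sum_congr rfl fun p _ => sum_comm, sum_comm]
  rw [sw, sw]
  ring

lemma NT_eq (t : F) (t0 : T) (σ : Fin k → T) (𝒰 : Finset (Fin 3 → Finset (Cl k))) :
    J.NT m t t0 σ 𝒰 = sgn t #(J.D t0).S * J.EE m σ 𝒰 := by
  classical
  have z : ∀ γ w, ∑ U ∈ 𝒰, Zs J.f m J.l (ee t)
      (fun p => psJ J.B w γ t (J.r1 p) (J.a p) fun j => J.b (ox t0 σ j) p) U =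
      ∑ x, ∑ y, if im J.f m (uu x y) ∈ 𝒰 then
        (∏ p, psJ J.B w γ t (J.r1 p) (J.a p) (fun j => J.b (ox t0 σ j) p) (uu x y p)) *
        sg (∑ p, ∑ q, ee t (J.f p) (J.f q) (uu x y p) (uu x y q) * J.l p q) else 0 := fun γ w => by
    simp only [Zs]
    rw [sum_comm, sum_uu]
    simp only [sum_ite_eq]
  rw [NT, EE, ← (h t0).A1_t t, mul_assoc]
  congr 1
  simp only [z, mul_sum]
  rw [sum_congr rfl fun γ _ => sum_comm, sum_comm]
  refine sum_congr rfl fun x _ => ?_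
  rw [sum_congr rfl fun γ _ => sum_comm, sum_comm]
  refine sum_congr rfl fun y _ => ?_
  split_ifs
  · simp only [mul_assoc, phase h]
    have : (J.D t0).A1 (fun _ => t) (fun _ => t) * ∏ j, (J.D (σ j)).A1 (x j) (y j) =
        ∏ j, (J.D (ox t0 σ j)).A1 (ox (fun _ => t) x j) (ox (fun _ => t) y j) := by
      rw [Fintype.prod_option]; rfl
    rw [mul_left_comm ((J.D t0).A1 _ _), this]
    simp only [(h _).A1_eq]
    rw [prod_univ_sum, Fintype.piFinset_univ, mul_sum, mul_sum]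
    refine sum_congr rfl fun γ _ => ?_
    rw [prod_univ_sum, mul_sum, mul_sum]
    refine sum_congr rfl fun w _ => ?_
    rw [prod_mul_distrib]
    simp only [D]
    ring
  · simp

end JD

end Pool.Agent.Lib.MP_7cad78_nt.PR
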