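import Pool.Agent.Lib.MP_7cad78_nt.J.A1

/-! Relations between Selmer elements of different twists are rare. -/

namespace Pool.Agent.Lib.MP_7cad78_nt.PR

open Finset

set_option linter.unusedSectionVars false

variable {k : ℕ}

def Rel (U : Fin 3 → Finset (Cl k)) (v : Fin k → F) : Prop :=
  ∃ s : Fin 3 → F, ∑ i, s i = 0 ∧ ∀ i, ∀ c ∈ U i, dot v c.1 = s i

def Mn (U : Fin 3 → Finset (Cl k)) : Prop := Rel U 1 ∧ ∀ v, Rel U v → v = 0 ∨ v = 1

lemma max_struct {t : F} {U : Fin 3 → Finset (Cl k)} (hT : Triv t U) (hc : 8 ^ k ≤ ∏ i, #(U i)) :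
    (∀ i, #(U i) = 2 ^ k) ∧ ∀ v i s, (∀ c ∈ U i, dot v c.1 = s) →
      Rel U v ∧ ∀ i, ∀ c ∈ U i, c + (0, v) ∈ U i := by
  classical
  have hne : ∀ i, (U i).Nonempty := fun i => card_pos.1 (Nat.pos_of_ne_zero fun e => by
    rw [prod_eq_zero (mem_univ i) e] at hc
    exact absurd hc (not_le.2 (by positivity)))
  choose c hcU using hne
  obtain ⟨T, hTd⟩ : ∃ T : Fin 3 → Finset (Cl k), ∀ i, T i = (U i).image (· + c i) := ⟨_, fun _ => rfl⟩
  have hm : ∀ i x, x ∈ T i ↔ x + c i ∈ U i := fun i x => by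
    rw [hTd, mem_image]
    exact ⟨by rintro ⟨y, hy, rfl⟩; rwa [add_add_me], fun h => ⟨_, h, add_add_me _ _⟩⟩
  have hcard : ∀ i, #(U i) = #(T i) := fun i => by
    rw [hTd, card_image_of_injective _ (add_left_injective _)]
  have z : ∀ i, 0 ∈ T i := fun i => by simpa [hm] using hcU i
  have h3 : ∀ x ∈ T 0, ∀ y ∈ T 1, ∀ w ∈ T 2, Qf (c 0 + c 1 + c 2 + (x + y + w)) = t :=
    fun x hx y hy w hw => by
      rw [← hT _ ((hm _ _).1 hx) _ ((hm _ _).1 hy) _ ((hm _ _).1 hw)]; congr 1; abel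
  have key : ∀ x y, Qf (c 0 + c 1 + c 2 + x) = t → Qf (c 0 + c 1 + c 2 + y) = t →
      Qf (c 0 + c 1 + c 2 + (x + y)) = t → Bf x y = 0 := fun x y e1 e2 e3 => by
    have e0 := h3 0 (z 0) 0 (z 1) 0 (z 2)
    simp only [add_zero] at e0
    generalize c 0 + c 1 + c 2 = s at *
    rw [Qf_add, Qf_add, Bf_comm s, Bf_add, Bf_comm x s, Bf_comm y s] at e3
    rw [Qf_add] at e1 e2
    linear_combination e3 - e1 - e2 + e0
  have s0 : ∀ x ∈ T 0, Qf (c 0 + c 1 + c 2 + x) = t := fun x hx => by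
    simpa using h3 x hx 0 (z 1) 0 (z 2)
  have s1 : ∀ x ∈ T 1, Qf (c 0 + c 1 + c 2 + x) = t := fun x hx => by
    simpa using h3 0 (z 0) x hx 0 (z 2)
  have s2 : ∀ x ∈ T 2, Qf (c 0 + c 1 + c 2 + x) = t := fun x hx => by
    simpa using h3 0 (z 0) 0 (z 1) x hx
  obtain ⟨a1, b1⟩ := pair_le (X := T 0) (Y := T 1) fun x hx => mem_prp.2 fun y hy =>
    key x y (s0 x hx) (s1 y hy) (by simpa using h3 x hx y hy 0 (z 2))
  obtain ⟨a2, b2⟩ := pair_le (X := T 1) (Y := T 2) fun x hx => mem_prp.2 fun y hy =>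
    key x y (s1 x hx) (s2 y hy) (by simpa using h3 0 (z 0) x hx y hy)
  obtain ⟨a3, b3⟩ := pair_le (X := T 0) (Y := T 2) fun x hx => mem_prp.2 fun y hy =>
    key x y (s0 x hx) (s2 y hy) (by simpa using h3 x hx 0 (z 1) y hy)
  rw [Fin.prod_univ_three, hcard, hcard, hcard] at hc
  have hN : 4 ^ k * 4 ^ k * 4 ^ k ≤ #(T 0) * #(T 1) * (#(T 1) * #(T 2)) * (#(T 0) * #(T 2)) :=
    calc 4 ^ k * 4 ^ k * 4 ^ k = 8 ^ k * 8 ^ k := by simp only [← mul_pow]; norm_num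
      _ ≤ _ := (Nat.mul_le_mul hc hc).trans (le_of_eq (by ring))
  have pp : 0 < 4 ^ k := by positivity
  have gen : ∀ {x y w N : ℕ}, 0 < N → x ≤ N → y ≤ N → w ≤ N → N * N * N ≤ x * y * w → x = N :=
    fun {x y w N} p h1 h2 h3 h4 => le_antisymm h1 (le_of_mul_le_mul_right (a := N * N)
      (by nlinarith [Nat.mul_le_mul_left x (Nat.mul_le_mul h2 h3)]) (by positivity))
  have c1 := gen pp a1 a2 a3 hN
  obtain ⟨d1, d2⟩ := b1 c1
  obtain ⟨d3, d4⟩ := b2 (gen pp a2 a1 a3 (by linarith))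
  obtain ⟨d5, d6⟩ := b3 (gen pp a3 a1 a2 (by linarith))
  have e1 : T 1 = T 2 := d2.trans d6.symm
  have e0 : T 0 = T 1 := d5.trans d3.symm
  have ea : ∀ i, T i = T 0 := by
    intro i; fin_cases i; exacts [rfl, e0.symm, (e0.trans e1).symm]
  have hp : T 0 = prp (T 0) := e0.trans d2
  have hs : Sub (T 0) := hp ▸ sub_prp _
  have hk : #(T 0) = 2 ^ k := by
    rw [← e0, ← sq, show 4 ^ k = (2 ^ k) ^ 2 by rw [← pow_mul, mul_comm, pow_mul]; rfl] at c1
    exact Nat.pow_left_injective two_ne_zero c1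
  refine ⟨fun i => by rw [hcard, ea, hk], fun v i s hv => ?_⟩
  have hl : ((0, v) : Cl k) ∈ T 0 := hp ▸ mem_prp.2 fun x hx => by
    have := hv _ ((hm i x).1 (ea i ▸ hx))
    rw [Prod.fst_add, dot_add, hv _ (hcU i)] at this
    simpa [Bf, dot_comm] using this
  refine ⟨⟨fun i => dot v (c i).1, ?_, fun i u hu => ?_⟩, fun i u hu => ?_⟩
  · have := s0 _ hl
    rw [Qf_add, ← s0 0 (z 0), add_zero, Qf, Qf, Bf] at this
    rw [Fin.sum_univ_three, ← dot_add, ← dot_add, dot_comm]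
    simpa using this
  · have := mem_prp.1 (hp ▸ hl) (u + c i) (ea i ▸ (hm i _).2 (by rwa [add_add_me]))
    rw [Bf, zero_dot, zero_add, dot_comm, Prod.fst_add, dot_add] at this
    rw [← add_add_me (dot _ u.1) (dot v (c i).1), this, zero_add]
  · have := (hm i _).1 (ea i ▸ hs.add _ (ea i ▸ (hm i (u + c i)).2 (by rwa [add_add_me])) _ hl)
    rwa [add_right_comm, add_add_me] at this

lemma small_le {P : Type} [Fintype P] [DecidableEq P] (f : P → Fin 3) (m : P → Prop) [DecidablePred m]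
    {a b : ℕ} (ha : ∀ i, a ≤ #{p | m p ∧ f p = i} ∧ #{p | m p ∧ f p = i} ≤ a + b)
    (hb : #{p | ¬ m p} ≤ b) :
    ((2 ^ k) ^ #{p | m p} : ℝ)⁻¹ * #{u : P → Cl k | ∏ i, #(im f m u i) < 8 ^ k} ≤
      8 ^ 4 ^ k * (1 - (8 ^ k)⁻¹) ^ a * (4 ^ k) ^ (4 * b) := by
  obtain ⟨N, hN⟩ : ∃ N : ℝ, N = #{u : P → Cl k | ∏ i, #(im f m u i) < 8 ^ k} := ⟨_, rfl⟩
  have hM : 3 * a ≤ #{p | m p} := by
    rw [card_eq_sum_card_fiberwise (f := f) (t := univ) fun _ _ => mem_univ _]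
    simpa [filter_filter, mul_comm] using card_nsmul_le_sum univ _ a fun i _ => (ha i).1
  have b1 : N ≤ 8 ^ 4 ^ k * ((8 ^ k - 1) ^ a * (4 ^ k) ^ (4 * b)) := by
    have := (Nat.cast_le (α := ℝ)).2 (card_small (k := k) f m ha hb)
    rw [← hN] at this
    simpa [Nat.cast_sub (Nat.one_le_pow k 8 (by norm_num))] using this
  have b2 : ((8 : ℝ) ^ k) ^ a ≤ (2 ^ k) ^ #{p | m p} :=
    calc ((8 : ℝ) ^ k) ^ a = (2 ^ k) ^ (3 * a) := by
          rw [pow_mul, ← pow_mul 2, mul_comm k, pow_mul]; norm_num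
      _ ≤ _ := pow_le_pow_right₀ (one_le_pow₀ one_le_two) hM
  have N0 : 0 ≤ N := hN ▸ Nat.cast_nonneg _
  rw [← hN]
  calc _ ≤ (((8 : ℝ) ^ k) ^ a)⁻¹ * (8 ^ 4 ^ k * ((8 ^ k - 1) ^ a * (4 ^ k) ^ (4 * b))) := by gcongr
    _ = _ := by
      rw [show (1 : ℝ) - (8 ^ k)⁻¹ = (8 ^ k - 1) / 8 ^ k by field_simp, div_pow]; ring

/-- the size of the error terms -/
noncomputable def Er (k G b : ℕ) : ℝ := G ^ (k + 1) * 8 ^ 4 ^ k * (2 * (4 ^ k) ^ 4) ^ b

lemma Er_small {G a b : ℕ} (hG : 0 < G) {Θ : ℝ} (h : (1 - (8 ^ k)⁻¹) ^ a ≤ Θ) :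
    (G : ℝ) ^ k * (8 ^ 4 ^ k * (1 - (8 ^ k)⁻¹) ^ a * (4 ^ k) ^ (4 * b)) ≤ Er k G b * Θ := by
  have th0 : (0 : ℝ) ≤ 1 - (8 ^ k)⁻¹ := sub_nonneg.2 (inv_le_one_of_one_le₀ (one_le_pow₀ (by norm_num)))
  have := (pow_nonneg th0 a).trans h
  calc _ = G ^ k * 8 ^ 4 ^ k * ((4 ^ k) ^ 4) ^ b * (1 - ((8 : ℝ) ^ k)⁻¹) ^ a := by rw [pow_mul]; ring
    _ ≤ _ := by
      unfold Er
      gcongr
      exacts [by exact_mod_cast hG, by omega, le_mul_of_one_le_left (by positivity) one_le_two]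

lemma Er_sep {G n b b' : ℕ} (hb : b' ≤ b) {Θ : ℝ} (h : (1 - (8 ^ k)⁻¹) ^ n ≤ Θ) :
    (G : ℝ) ^ (k + 1) * (2 * 4 ^ k) ^ b' * (1 - (2 ^ k)⁻¹) ^ n ≤ Er k G b * Θ := by
  have th0 : (0 : ℝ) ≤ 1 - (2 ^ k)⁻¹ := sub_nonneg.2 (inv_le_one_of_one_le₀ (one_le_pow₀ (by norm_num)))
  have o : (1 : ℝ) ≤ 4 ^ k := one_le_pow₀ (by norm_num)
  refine mul_le_mul ?_ (le_trans (by gcongr; norm_num) h) (by positivity) (by unfold Er; positivity)
  rw [Er, mul_assoc]
  gcongr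
  refine le_trans ((pow_le_pow_right₀ (by linarith) hb).trans ?_)
    (le_mul_of_one_le_left (by positivity) (one_le_pow₀ (by norm_num)))
  gcongr
  exact le_self_pow₀ o (by norm_num)

namespace JD

variable {Γ V P T : Type} [AddCommGroup Γ] [Module F Γ] [Fintype Γ] [AddCommGroup V] [Module F V]
  [Fintype P] [DecidableEq P] {J : JD Γ V P T} {m : P → Prop} [DecidablePred m]

lemma EE_small (σ : Fin k → T) {a b : ℕ}
    (ha : ∀ i, a ≤ #{p | m p ∧ J.f p = i} ∧ #{p | m p ∧ J.f p = i} ≤ a + b) (hb : #{p | ¬ m p} ≤ b)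
    (𝒰 : Finset (Fin 3 → Finset (Cl k))) (h : ∀ U ∈ 𝒰, ∏ i, #(U i) < 8 ^ k) :
    |J.EE m σ 𝒰| ≤ Fintype.card Γ ^ k * (8 ^ 4 ^ k * (1 - (8 ^ k)⁻¹) ^ a * (4 ^ k) ^ (4 * b)) := by
  refine (EE_le σ 𝒰 h).trans ?_
  rw [← mul_assoc, mul_comm]
  refine mul_le_mul_of_nonneg_left (le_trans ?_ (small_le J.f m ha hb)) (by positivity)
  gcongr
  exacts [one_le_pow₀ one_le_two, card_le_univ _]

lemma EE_sum (σ : Fin k → T) (𝒰 : Finset (Fin 3 → Finset (Cl k))) :
    J.EE m σ 𝒰 = ∑ U ∈ 𝒰, J.EE m σ {U} := by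
  simp only [EE, mem_singleton, ← mul_sum]
  rw [sum_comm (s := 𝒰)]
  refine congrArg _ (sum_congr rfl fun x _ => ?_)
  rw [sum_comm (s := 𝒰)]
  simp only [sum_ite_eq]

variable (J m) in
/-- the medium primes which separate two twists -/
def sep (t t' : T) : ℕ := #{p | m p ∧ J.b t p ≠ J.b t' p}

variable (h : ∀ t, (J.D t).Ok)
include h

open Classical in
lemma EE_sub (σ : Fin k → T) (j0 j1 : Fin k) {U : Fin 3 → Finset (Cl k)} (hM : Mn U) (hT : Triv 0 U)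
    (hc : 8 ^ k ≤ ∏ i, #(U i)) : |J.EE m σ {U' | ∀ i, U' i ⊆ U i}| ≤
      Fintype.card Γ ^ (k + 1) * (2 * 4 ^ k) ^ #{p | ¬ m p} *
        (1 - (2 ^ k)⁻¹) ^ J.sep m (σ j1) (σ j0) := by
  obtain ⟨c1, c2⟩ := max_struct hT hc
  obtain ⟨⟨s, hs, s1⟩, s2⟩ := hM
  have inv := (c2 1 0 _ (s1 0)).2
  obtain ⟨T0, t1, t2⟩ := (h (σ j0)).tors' s hs
  obtain ⟨Δ, hΔ⟩ : ∃ Δ : P → Fin k → F, ∀ p j, Δ p j = J.b (σ j) p + J.b (σ j0) p := ⟨_, fun _ _ => rfl⟩
  obtain ⟨A, hA⟩ : ∃ A : Γ × (P → F) → P → Finset (Cl k), ∀ E p, A E p = if m p then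
    {c ∈ U (J.f p) | dot (Δ p) c.1 = (J.D (σ j0)).la E p} else univ := ⟨_, fun _ _ => rfl⟩
  have im_iff : ∀ u : P → Cl k, (∀ i, im J.f m u i ⊆ U i) ↔ ∀ p, m p → u p ∈ U (J.f p) := fun u =>
    ⟨fun e p hp => e _ ((mem_im _ _).2 ⟨p, hp, rfl, rfl⟩), fun e i c hc => by
      obtain ⟨p, hp, rfl, rfl⟩ := (mem_im _ _).1 hc
      exact e p hp⟩
  have th0 : (0 : ℝ) ≤ 1 - (2 ^ k)⁻¹ := sub_nonneg.2 (inv_le_one_of_one_le₀ (one_le_pow₀ one_le_two))
  have cA : ∀ E, (#(Fintype.piFinset (A E)) : ℝ) ≤ (2 ^ k) ^ #{p | m p} *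
      (1 - (2 ^ k)⁻¹) ^ J.sep m (σ j1) (σ j0) * (4 ^ k) ^ #{p | ¬ m p} := fun E => by
    rw [Fintype.card_piFinset, ← prod_filter_mul_prod_filter_not univ m, Nat.cast_mul,
      prod_congr (s₁ := filter (¬ m ·) _) rfl fun p hp => by
        rw [hA, if_neg (mem_filter.1 hp).2, card_univ, card_Cl], prod_const, sep, ← filter_filter,
      ← prod_const (s := filter m univ), ← prod_const (s := filter _ (filter m univ)),
      prod_filter (s := filter m univ), ← prod_mul_distrib]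
    push_cast
    gcongr with p hp
    rw [hA, if_pos (mem_filter.1 hp).2]
    split_ifs with e
    · have : #{c ∈ U (J.f p) | dot (Δ p) c.1 = (J.D (σ j0)).la E p} < 2 ^ k := by
        rw [← c1 (J.f p)]
        refine card_lt_card (filter_ssubset.2 (by_contra fun n => ?_))
        push Not at n
        rcases s2 _ (c2 _ _ _ n).1 with e1 | e1
        · have := congrFun e1 j1
          rw [hΔ, Pi.zero_apply] at this
          exact e (by linear_combination this - Fadd (J.b (σ j0) p))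
        · have := congrFun e1 j0
          rw [hΔ, Fadd] at this
          exact zero_ne_one this
      have := (Nat.cast_le (α := ℝ)).2 (Nat.succ_le_of_lt this)
      push_cast at this
      rw [mul_sub, mul_inv_cancel₀ (by positivity)]
      linarith
    · rw [mul_one]
      exact_mod_cast (c1 (J.f p)) ▸ card_filter_le _ _
  have key : ∀ (x : Fin k → P → F) (γ : Fin k → Γ), |∑ y, if ∀ p, m p → uu x y p ∈ U (J.f p) then
      (if ∀ j, (γ j, x j) ∈ (J.D (σ j)).H then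
        sg (∑ j, dot (y j) ((J.D (σ j)).la (γ j, x j))) else 0) else 0| ≤
      ∑ y, ∑ E ∈ univ ×ˢ van m, if uu x y ∈ Fintype.piFinset (A E) then (1 : ℝ) else 0 := by
    intro x γ
    by_cases e : ∀ p, m p → ∑ j, (J.D (σ j)).la (γ j, x j) p = 0
    · refine (abs_sum_le_sum_abs _ _).trans (sum_le_sum fun y _ => ?_)
      split_ifs with h1 h2
      · rw [abs_sg]
        have m1 : ∑ j, (γ j, x j) + T0 ∈ univ ×ˢ van m := mem_product.2 ⟨mem_univ _, mem_van.2 fun p hp => by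
          have := s1 _ _ (h1 p hp)
          simp only [dot, uu, Pi.one_apply, one_mul] at this
          simp [Prod.snd_sum, t2, this, D, Fadd]⟩
        refine le_trans (le_of_eq ?_) (single_le_sum (fun _ _ => by positivity) m1)
        rw [if_pos (Fintype.mem_piFinset.2 fun p => ?_)]
        rw [hA]
        split_ifs with hp
        swap
        · exact mem_univ _
        refine mem_filter.2 ⟨h1 p hp, ?_⟩
        rw [(h _).la_add, (SD.mem_S.1 t1).2, add_zero,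
          show (J.D (σ j0)).la (∑ j, (γ j, x j)) = ∑ j, (J.D (σ j0)).la (γ j, x j) from
            map_sum (AddMonoidHom.mk' _ (h (σ j0)).la_add) _ _, Finset.sum_apply,
          sum_congr rfl fun j _ => J.la_tw (σ j0) (σ j) _ p, sum_add_distrib, e p hp, zero_add]
        exact sum_congr rfl fun j _ => by rw [hΔ, mul_comm, add_comm]; rfl
      all_goals rw [abs_zero]; positivity
    push Not at e
    obtain ⟨p, hp, e⟩ := e
    rw [sum_involution (fun y _ => y + fun _ => Pi.single p 1), abs_zero]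
    · positivity
    · intro y _
      have : (∀ q, m q → uu x (y + fun _ => Pi.single p 1) q ∈ U (J.f q)) ↔
          ∀ q, m q → uu x y q ∈ U (J.f q) := forall₂_congr fun q _ => by
        by_cases hq : q = p
        · subst hq
          have e1 : uu x (y + fun _ => Pi.single q 1) q = uu x y q + (0, 1) := by ext <;> simp [uu]
          rw [e1]
          exact ⟨fun e => by simpa only [add_add_me] using inv _ _ e, inv _ _⟩
        · have e1 : uu x (y + fun _ => Pi.single p 1) q = uu x y q := by ext <;> simp [uu, hq]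
          rw [e1]
      simp only [this, Pi.add_apply, add_dot, sum_add_distrib, sg_add, single_dot, Fne e]
      split_ifs <;> simp
    · intro y _ _ e
      simpa using congrFun (congrFun e j0) p
    · intro y _
      exact mem_univ _
    · intro y _
      exact add_add_me _ _
  simp only [EE, mem_filter, mem_univ, true_and, im_iff, prod_A1]
  rw [abs_mul, abs_of_pos (by positivity), inv_mul_le_iff₀ (by positivity)]
  calc _ ≤ ∑ x : Fin k → P → F, ∑ _γ : Fin k → Γ, ∑ y, ∑ E ∈ univ ×ˢ van m,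
        if uu x y ∈ Fintype.piFinset (A E) then (1 : ℝ) else 0 := by
        refine (abs_sum_le_sum_abs _ _).trans (sum_le_sum fun x _ => le_trans (le_of_eq ?_)
          ((abs_sum_le_sum_abs _ _).trans (sum_le_sum fun γ _ => key x γ)))
        rw [sum_comm]
        simp only [sum_ite_irrel, sum_const_zero]
    _ = Fintype.card Γ ^ k * ∑ E ∈ univ ×ˢ van m, (#(Fintype.piFinset (A E)) : ℝ) := by
        simp only [sum_const, card_univ, nsmul_eq_mul, ← mul_sum]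
        rw [← sum_uu fun u => ∑ E ∈ univ ×ˢ van m, if u ∈ Fintype.piFinset (A E) then (1 : ℝ) else 0,
          sum_comm]
        simp only [sum_boole, filter_mem_eq_inter, univ_inter, Fintype.card_fun, Fintype.card_fin,
          Nat.cast_pow]
    _ ≤ Fintype.card Γ ^ k * (Fintype.card Γ * 2 ^ #{p | ¬ m p} * ((2 ^ k) ^ #{p | m p} *
        (1 - (2 ^ k)⁻¹) ^ J.sep m (σ j1) (σ j0) * (4 ^ k) ^ #{p | ¬ m p})) := by
        gcongr
        refine (sum_le_card_nsmul _ _ _ fun E _ => cA E).trans (le_of_eq ?_)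
        rw [card_product, card_van, card_univ, nsmul_eq_mul]
        push_cast; rfl
    _ = (2 ^ k) ^ #{p | m p} * (Fintype.card Γ ^ (k + 1) * (2 * 4 ^ k) ^ #{p | ¬ m p} *
        (1 - (2 ^ k)⁻¹) ^ J.sep m (σ j1) (σ j0)) := by rw [mul_pow]; ring
    _ ≤ _ := by
        gcongr
        exacts [one_le_pow₀ one_le_two, card_le_univ _]

open Classical in
theorem EE_dep (σ : Fin k → T) (j0 j1 : Fin k) {a b : ℕ}
    (ha : ∀ i, a ≤ #{p | m p ∧ J.f p = i} ∧ #{p | m p ∧ J.f p = i} ≤ a + b) (hb : #{p | ¬ m p} ≤ b)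
    {Θ : ℝ} (h1 : (1 - (8 ^ k)⁻¹) ^ a ≤ Θ) (h2 : (1 - (8 ^ k)⁻¹) ^ J.sep m (σ j1) (σ j0) ≤ Θ) :
    |J.EE m σ {U | Mn U ∧ Triv 0 U}| ≤ 8 ^ 4 ^ k * (2 * (Er k (Fintype.card Γ) b * Θ)) := by
  have sm := fun 𝒰 e => (EE_small (J := J) σ ha hb 𝒰 e).trans (Er_small Fintype.card_pos h1)
  have p0 := (abs_nonneg _).trans (sm ∅ (by simp))
  rw [EE_sum]
  refine (abs_sum_le_sum_abs _ _).trans ((sum_le_card_nsmul _ _ (2 * (Er k (Fintype.card Γ) b * Θ))
    fun U hU => ?_).trans ?_)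
  · obtain ⟨-, u1, u2⟩ := mem_filter.1 hU
    rcases lt_or_ge (∏ i, #(U i)) (8 ^ k) with hc | hc
    · linarith [sm {U} (by simpa)]
    have c1 := (max_struct u2 hc).1
    have e : ({U' | ∀ i, U' i ⊆ U i} : Finset _) = {U} ∪ ({U' | ∀ i, U' i ⊆ U i} : Finset _).erase U := by
      rw [← insert_eq, insert_erase (by simp)]
    have e1 := (EE_sub h σ j0 j1 u1 u2 hc).trans (Er_sep hb h2)
    have e2 := sm (({U' | ∀ i, U' i ⊆ U i} : Finset _).erase U) fun U' hU' => by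
      obtain ⟨a1, a2⟩ := mem_erase.1 hU'
      replace a2 := (mem_filter.1 a2).2
      obtain ⟨i, hi⟩ := Function.ne_iff.1 a1
      calc _ < ∏ _i : Fin 3, 2 ^ k := by
            by_cases z : ∀ i, 0 < #(U' i)
            · exact prod_lt_prod (fun i _ => z i) (fun i _ => c1 i ▸ card_le_card (a2 i))
                ⟨i, mem_univ _, c1 i ▸ card_lt_card (Finset.ssubset_iff_subset_ne.2 ⟨a2 i, hi⟩)⟩
            · obtain ⟨i, hi⟩ := not_forall.1 z
              rw [prod_eq_zero (mem_univ i) (by omega)]; positivity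
        _ = _ := by rw [prod_const, card_univ, Fintype.card_fin, ← pow_mul, mul_comm, pow_mul]; rfl
    rw [e, EE_union σ (by simp)] at e1
    rw [abs_le] at *
    constructor <;> linarith [e1.1, e1.2, e2.1, e2.2]
  · rw [nsmul_eq_mul]
    gcongr
    have := card_le_univ ({U | Mn U ∧ Triv 0 U} : Finset (Fin 3 → Finset (Cl k)))
    rw [Fintype.card_fun, Fintype.card_finset, card_Cl, Fintype.card_fin, ← pow_mul, mul_comm,
      pow_mul] at this
    exact_mod_cast this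

end JD

end Pool.Agent.Lib.MP_7cad78_nt.PR
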