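import Pool.Agent.Lib.MP_7cad78_nt.J.A2

/-! The main term of the joint moments. -/

namespace Pool.Agent.Lib.MP_7cad78_nt.PR

open Finset

set_option linter.unusedSectionVars false

variable {k : ℕ}

lemma sum_pairs {Γ X : Type} [Fintype Γ] [Fintype X] (Φ : (Fin k → Γ × X) → ℝ) :
    ∑ d, Φ d = ∑ x : Fin k → X, ∑ γ : Fin k → Γ, Φ fun j => (γ j, x j) := by
  rw [← Fintype.sum_prod_type']
  exact (Fintype.sum_bijective (fun (z : (Fin k → X) × (Fin k → Γ)) j => (z.2 j, z.1 j))
    (Function.bijective_iff_has_inverse.2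
      ⟨fun d => (fun j => (d j).2, fun j => (d j).1), fun _ => rfl, fun _ => rfl⟩) _ _
    fun _ => rfl).symm

lemma card_ngen {Γ P : Type} [Fintype Γ] [Fintype P] [DecidableEq P] (f : P → Fin 3) (m : P → Prop)
    [DecidablePred m] (s : Finset (Fin k → Γ × (P → F)))
    (hs : ∀ d ∈ s, ¬ Gen (im f m (uu (fun j => (d j).2) 0))) :
    #s ≤ #{u : P → Cl k | ∏ i, #(im f m u i) < 8 ^ k} * Fintype.card Γ ^ k := by
  classical
  have c2 : #s ≤
      #(({u : P → Cl k | ∏ i, #(im f m u i) < 8 ^ k} : Finset _) ×ˢ (univ : Finset (Fin k → Γ))) := by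
    refine card_le_card_of_injOn (fun d => (uu (fun j => (d j).2) 0, fun j => (d j).1))
      (fun d hd => ?_) fun d _ d' _ e => funext fun j => Prod.ext
        (congrFun (congrArg Prod.snd e) j) (funext fun p =>
          congrFun (congrArg Prod.fst (congrFun (congrArg Prod.fst e) p)) j)
    have g := hs d hd
    simp only [coe_product, Set.mem_prod, coe_filter, mem_univ, true_and, Set.mem_ofPred_eq,
      coe_univ, Set.mem_univ, and_true]
    generalize (fun j => (d j).2) = x at g ⊢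
    have sb : ∀ i, im f m (uu x 0) i ⊆ univ.image fun v => (v, 0) := fun i c hc => by
      obtain ⟨p, -, -, rfl⟩ := (mem_im _ _).1 hc
      exact mem_image.2 ⟨_, mem_univ _, rfl⟩
    have cd : #(univ.image fun v : Fin k → F => ((v, 0) : Cl k)) = 2 ^ k := by
      rw [card_image_of_injective _ fun _ _ e => congrArg Prod.fst e]; simp
    simp only [Gen, not_forall, not_exists, not_and] at g
    obtain ⟨i, v, g⟩ := g
    calc _ < ∏ _i : Fin 3, 2 ^ k := by
          by_cases z : ∀ i, 0 < #(im f m (uu x 0) i)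
          · refine prod_lt_prod (fun i _ => z i) (fun i _ => cd ▸ card_le_card (sb i))
              ⟨i, mem_univ _, cd ▸ card_lt_card (Finset.ssubset_iff_subset_ne.2 ⟨sb i, fun e => ?_⟩)⟩
            exact g (v, 0) (e ▸ mem_image.2 ⟨v, mem_univ _, rfl⟩) rfl
          · obtain ⟨i, hi⟩ := not_forall.1 z
            rw [prod_eq_zero (mem_univ i) (by omega)]; positivity
      _ = _ := by rw [prod_const, card_univ, Fintype.card_fin, ← pow_mul, mul_comm, pow_mul]; rfl
  rwa [card_product, card_univ, Fintype.card_fun, Fintype.card_fin] at c2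

lemma SD.Ok.subG {Γ V P : Type} [AddCommGroup Γ] [Module F Γ] [Fintype Γ] [AddCommGroup V] [Module F V]
    [Fintype P] [DecidableEq P] {D : SD Γ V P} (h : D.Ok) (m : P → Prop) : Sub (D.G m) :=
  ⟨SD.mem_G.2 ⟨h.subH.zero, fun p _ => by rw [h.la_zero]; rfl⟩, fun a ha b hb =>
    SD.mem_G.2 ⟨h.subH.add _ (SD.mem_G.1 ha).1 _ (SD.mem_G.1 hb).1, fun p hp => by
      simp [h.la_add, (SD.mem_G.1 ha).2 p hp, (SD.mem_G.1 hb).2 p hp]⟩⟩

namespace JD

variable {Γ V P T : Type} [AddCommGroup Γ] [Module F Γ] [Fintype Γ] [AddCommGroup V] [Module F V]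
  [Fintype P] [DecidableEq P] {J : JD Γ V P T} {m : P → Prop} [DecidablePred m]

variable (J) in
/-- the phase attached to a symmetric parameter -/
def Ph (σ : Fin k → T) (τ : Tp k) (d : Fin k → Γ × (P → F)) : F :=
  ∑ j, (∑ j', τ.1 s(j, j') * dot (d j').2 ((J.D (σ j)).la (d j)) +
    τ.1 s(j, j) * dot (d j).2 ((J.D (σ j)).la (d j)))

/-- parameters which do not mix different twists -/
def Blk (σ : Fin k → T) (τ : Tp k) : Prop := ∀ j j', σ j ≠ σ j' → τ.1 s(j, j') = 0

variable (h : ∀ t, (J.D t).Ok)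
include h

lemma phase_tau {σ : Fin k → T} {d : Fin k → Γ × (P → F)} (hd : ∀ j, d j ∈ (J.D (σ j)).G m) (τ : Tp k)
    {y : Fin k → P → F}
    (hy : ∀ p, m p → (fun j => y j p) = ph τ (fun j => (d j).2 p) + sv τ (J.f p)) :
    ∑ j, dot (y j) ((J.D (σ j)).la (d j)) = J.Ph σ τ d := by
  refine sum_congr rfl fun j _ => ?_
  obtain ⟨T, hT, eT⟩ := (h (σ j)).tors' (fun i => sv τ i j + τ.1 s(j, j)) (by
    have := congrFun (sv_sum τ) j
    simp only [Pi.add_apply] at this
    rw [Fin.sum_univ_three]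
    linear_combination this + Fadd (τ.1 s(j, j)) + Fadd (τ.1 s(j, j)))
  have a := (h (σ j)).sym (SD.mem_G.1 (hd j)).1 (SD.mem_S.1 hT).1
  rw [(SD.mem_S.1 hT).2, dot_zero] at a
  have b := (h (σ j)).quad _ (SD.mem_H.1 (SD.mem_G.1 (hd j)).1)
  rw [← add_zero (dot (y j) _), ← a]
  simp only [dot, ← b, mul_sum, ← sum_add_distrib]
  rw [sum_comm, ← sum_add_distrib]
  refine sum_congr rfl fun p _ => ?_
  by_cases hp : m p
  · have := congrFun (hy p hp) j
    simp only [ph, Pi.add_apply] at this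
    simp only [this, eT, ← mul_assoc, ← sum_mul, show (J.D (σ j)).f = J.f from rfl]
    linear_combination Fadd (sv τ (J.f p) j) * (J.D (σ j)).la (d j) p
  · simp [(SD.mem_G.1 (hd j)).2 p hp]

open Classical in
lemma EE_gen (σ : Fin k → T) : J.EE m σ {U | Gen U ∧ Triv 0 U} =
    ∑ τ : Tp k, ((2 ^ k) ^ #{p | m p})⁻¹ * ∑ d ∈ Fintype.piFinset fun j => (J.D (σ j)).G m with
      Gen (im J.f m (uu (fun j => (d j).2) 0)), sg (J.Ph σ τ d) := by
  rw [← mul_sum, sum_comm, sum_filter, ← sum_ite_mem_eq, sum_pairs, EE, mul_sum, mul_sum]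
  refine sum_congr rfl fun x _ => ?_
  simp only [mem_filter, mem_univ, true_and, SD.gen_uu, prod_A1, Fintype.mem_piFinset]
  by_cases hx : ∀ i v, ∃ p, m p ∧ J.f p = i ∧ (fun j => x j p) = v
  swap
  · simp [hx]
  simp only [hx, implies_true, true_and, if_true]
  rw [← sum_filter, sum_comm, mul_sum, mul_sum]
  refine sum_congr rfl fun γ _ => ?_
  by_cases h1 : ∀ j, (γ j, x j) ∈ (J.D (σ j)).G m
  · have e : ({y : Fin k → P → F | Triv 0 (im J.f m (uu x y))} : Finset _) =
        univ.biUnion fun τ : Tp k => Fintype.piFinset fun j =>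
          {y | ∀ p, m p → y p = (ph τ (fun j => x j p) + sv τ (J.f p)) j} := by
      ext y
      simp only [mem_filter, mem_univ, true_and, mem_biUnion, triv_iff (SD.gen_uu.2 hx), mem_im,
        Fintype.mem_piFinset]
      refine exists_congr fun τ => ⟨fun e j p hp => congrFun (e _ _ ⟨p, hp, rfl, rfl⟩) j, ?_⟩
      rintro e _ _ ⟨p, hp, rfl, rfl⟩
      exact funext fun j => e j p hp
    rw [if_pos h1, e, sum_biUnion, mul_sum, mul_sum]
    · refine sum_congr rfl fun τ _ => ?_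
      rw [sum_congr rfl (g := fun _ => sg (J.Ph σ τ fun j => (γ j, x j))), sum_const,
        Fintype.card_piFinset, prod_congr rfl fun j _ => card_fix m
          (fun p => (ph τ (fun j => x j p) + sv τ (J.f p)) j) _ fun y => by simp, prod_const,
        ← card_univ (α := P), ← card_filter_add_card_filter_not (s := univ) m, pow_add]
      · simp only [nsmul_eq_mul, card_univ, ZMod.card, Fintype.card_fin]
        push_cast
        rw [← pow_mul 2 _ k, mul_comm _ k, pow_mul]
        field_simp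
      intro y hy
      rw [if_pos fun j => (SD.mem_G.1 (h1 j)).1, phase_tau h h1 τ (y := y) fun p hp =>
        funext fun j => (mem_filter.1 (Fintype.mem_piFinset.1 hy j)).2 p hp]
    · intro τ _ τ' _ hne
      refine disjoint_left.2 fun y h1 h2 => hne (tp_inj fun i v => funext fun j => ?_)
      obtain ⟨p, h3, rfl, rfl⟩ := hx i v
      rw [← (mem_filter.1 (Fintype.mem_piFinset.1 h1 j)).2 p h3,
        (mem_filter.1 (Fintype.mem_piFinset.1 h2 j)).2 p h3]
  rw [if_neg h1, mul_zero, sum_ite_irrel, sum_const_zero]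
  split_ifs with h2
  swap
  · simp
  simp only [SD.mem_G, h2, true_and, not_forall] at h1
  obtain ⟨j, p, hp, h1⟩ := h1
  have e : ∀ y : Fin k → P → F, im J.f m (uu x (y + Pi.single j (Pi.single p 1))) = im J.f m (uu x y) :=
    fun y => funext fun i => image_congr fun q hq => Prod.ext rfl (funext fun j' => by
      have : q ≠ p := by rintro rfl; exact hp (mem_filter.1 hq).2.1
      by_cases hj : j' = j
      · subst hj; simp [uu, this]
      · simp [uu, hj])
  rw [sum_involution (fun y _ => y + Pi.single j (Pi.single p 1)), mul_zero]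
  · intro y _
    simp only [Pi.add_apply, add_dot, sum_add_distrib, sg_add]
    rw [sum_eq_single j (f := fun j' => dot (Pi.single (M := fun _ => P → F) j _ j') _)
      (fun j' _ hj => by simp [hj]) (by simp), Pi.single_eq_same, single_dot, Fne h1]
    simp
  · intro y _ _ e
    simpa using congrFun (congrFun e j) p
  · intro y hy
    simpa [e] using hy
  · intro y _
    exact add_add_me _ _

lemma Ph_blk {σ : Fin k → T} {τ : Tp k} (hτ : Blk σ τ) {d : Fin k → Γ × (P → F)}
    (hd : ∀ j, d j ∈ (J.D (σ j)).H) : J.Ph σ τ d = 0 := by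
  classical
  have := sym_sum τ (fun j j' => if σ j = σ j' then dot (d j').2 ((J.D (σ j)).la (d j)) else 0)
    fun j j' => by
      by_cases e : σ j = σ j'
      · rw [if_pos e, if_pos e.symm, ← e]
        exact (h _).sym (hd j) (e ▸ hd j')
      · rw [if_neg e, if_neg (Ne.symm e)]
  simp only [if_true] at this
  rw [Ph, sum_add_distrib, ← this, ← sum_add_distrib]
  refine sum_eq_zero fun j _ => ?_
  rw [← sum_add_distrib]
  refine sum_eq_zero fun j' _ => ?_
  split_ifs with e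
  exacts [Fadd _, by rw [hτ j j' e, zero_mul, zero_mul, add_zero]]

lemma Ph_shift (σ : Fin k → T) (τ : Tp k) (d : Fin k → Γ × (P → F)) (j0 : Fin k) {g : Γ × (P → F)}
    (hg : (J.D (σ j0)).r g = 0) : J.Ph σ τ (d + Pi.single j0 g) = J.Ph σ τ d +
      dot g.2 fun p => ∑ j, τ.1 s(j0, j) * (d j).2 p * (J.b (σ j) p + J.b (σ j0) p) := by
  have a : ∀ j, dot g.2 ((J.D (σ j0)).la (d j)) + dot (d j).2 ((J.D (σ j0)).la g) = 0 := fun j => by
    rw [← (h _).rec', hg, (h _).B_zero]
  have b : ∀ j, dot g.2 ((J.D (σ j)).la (d j)) = dot (d j).2 ((J.D (σ j0)).la g) +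
      ∑ p, g.2 p * ((d j).2 p * (J.b (σ j) p + J.b (σ j0) p)) := fun j => by
    rw [← add_add_me (dot (d j).2 _) (dot g.2 ((J.D (σ j0)).la (d j))), add_comm (dot (d j).2 _), a,
      zero_add, dot, dot, ← sum_add_distrib]
    exact sum_congr rfl fun p _ => by rw [J.la_tw (σ j) (σ j0), mul_add]
  have s1 : ∀ (j : Fin k) (y : P → F), ∑ j', τ.1 s(j, j') *
      dot (Pi.single (M := fun _ => Γ × (P → F)) j0 g j').2 y = τ.1 s(j0, j) * dot g.2 y := fun j y => by
    rw [sum_eq_single j0 (fun j' _ e => by simp [e]) (by simp), Pi.single_eq_same, Sym2.eq_swap]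
  have s2 : ∀ Φ : Fin k → Γ × (P → F) → F, (∀ j, Φ j 0 = 0) →
      ∑ j, Φ j (Pi.single (M := fun _ => Γ × (P → F)) j0 g j) = Φ j0 g := fun Φ e => by
    rw [sum_eq_single j0 (fun j' _ e' => by simp [e', e]) (by simp), Pi.single_eq_same]
  simp only [Ph, Pi.add_apply, Prod.snd_add, (h _).la_add, add_dot, dot_add, mul_add, sum_add_distrib, s1]
  rw [s2 (fun j e => ∑ j', τ.1 s(j, j') * dot (d j').2 ((J.D (σ j)).la e)) (by simp [(h _).la_zero]),
    s2 (fun j e => τ.1 s(j0, j) * dot g.2 ((J.D (σ j)).la e)) (by simp [(h _).la_zero]),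
    s2 (fun j e => τ.1 s(j, j) * dot e.2 ((J.D (σ j)).la (d j))) (by simp),
    s2 (fun j e => τ.1 s(j, j) * dot (d j).2 ((J.D (σ j)).la e)) (by simp [(h _).la_zero]),
    s2 (fun j e => τ.1 s(j, j) * dot e.2 ((J.D (σ j)).la e)) (by simp)]
  have c : dot g.2 (fun p => ∑ j, τ.1 s(j0, j) * (d j).2 p * (J.b (σ j) p + J.b (σ j0) p)) =
      ∑ j, τ.1 s(j0, j) * ∑ p, g.2 p * ((d j).2 p * (J.b (σ j) p + J.b (σ j0) p)) := by
    simp only [dot, mul_sum]
    rw [sum_comm]
    exact sum_congr rfl fun _ _ => sum_congr rfl fun _ _ => by ring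
  simp only [mul_add, sum_add_distrib] at c
  simp only [c, b, mul_add, sum_add_distrib]
  grind

open Classical in
lemma Ph_cross (σ : Fin k → T) (τ : Tp k) {j0 j1 : Fin k} (h1 : τ.1 s(j0, j1) ≠ 0) :
    ((2 ^ k) ^ #{p | m p})⁻¹ * |∑ d ∈ Fintype.piFinset fun j => (J.D (σ j)).G m, sg (J.Ph σ τ d)| ≤
      Fintype.card Γ ^ (k + 1) * (2 * 4 ^ k) ^ #{p | ¬ m p} *
        (1 - (2 ^ k)⁻¹) ^ J.sep m (σ j1) (σ j0) := by
  obtain ⟨ζ, hζ⟩ : ∃ ζ : (Fin k → Γ × (P → F)) → P → F, ∀ d, ζ d =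
    fun p => ∑ j, τ.1 s(j0, j) * (d j).2 p * (J.b (σ j) p + J.b (σ j0) p) := ⟨_, fun _ => rfl⟩
  obtain ⟨G0, hG⟩ : ∃ G0, ∀ g, g ∈ G0 ↔ g ∈ (J.D (σ j0)).G m ∧ (J.D (σ j0)).r g = 0 :=
    ⟨_, fun _ => mem_filter⟩
  have sG := (h (σ j0)).subG m
  have s0 : Sub G0 := ⟨(hG _).2 ⟨sG.zero, (h _).r_zero⟩, fun a ha b hb => (hG _).2
    ⟨sG.add _ ((hG _).1 ha).1 _ ((hG _).1 hb).1, by
      rw [(h _).r_add, ((hG _).1 ha).2, ((hG _).1 hb).2, add_zero]⟩⟩
  obtain ⟨Z, hZ⟩ : ∃ Z : Finset (P → F), ∀ y, y ∈ Z ↔ ∀ g ∈ G0, dot g.2 y = 0 :=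
    ⟨univ.filter _, fun _ => mem_filter_univ _⟩
  have c1 : #Z * #G0 = 2 ^ Fintype.card P := by
    have := dual' (A := Z) (C := {0}) Sub.univ s0 (fun y g => dot g.2 y) (fun _ _ _ => dot_add _ _ _)
      (fun _ _ _ => add_dot _ _ _) (by simp [hZ]) fun g => ⟨fun e => by simp [mem_singleton.1 e, s0.zero], fun e => by
        have e1 : g.2 = 0 := eq_of_dot fun v => by rw [dot_comm, e.2 v (mem_univ _), dot_zero]
        have e2 := ((hG g).1 e.1).2
        rw [show g = (g.1, 0) from Prod.ext rfl e1, SD.r_g] at e2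
        exact mem_singleton.2 (Prod.ext ((h _).inj _ e2) e1)⟩
    simpa using this
  have c2 : 2 ^ #{p | m p} ≤ #G0 * Fintype.card Γ := by
    rw [← (h (σ j0)).card]
    refine (Nat.le_mul_of_pos_right _ ((h (σ j0)).subK m).pos).trans (((h _).cardG m).ge.trans
      (card_le_mul_card_image_of_maps_to (f := (J.D (σ j0)).r)
        (fun g hg => SD.mem_H.1 (SD.mem_G.1 hg).1) _ fun w _ => ?_))
    rcases ({a ∈ (J.D (σ j0)).G m | (J.D (σ j0)).r a = w} : Finset _).eq_empty_or_nonempty with e | ⟨c, hc⟩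
    · simp [e]
    refine card_le_card_of_injOn (· + c) (fun a ha => ?_) (add_left_injective c).injOn
    simp only [coe_filter, Set.mem_ofPred_eq, mem_filter, mem_coe, hG] at ha hc ⊢
    exact ⟨sG.add _ ha.1 _ hc.1, by rw [(h _).r_add, ha.2, hc.2, add_me]⟩
  have c3 : (#Z : ℝ) ≤ Fintype.card Γ * 2 ^ #{p | ¬ m p} := by
    rw [← card_univ (α := P), ← card_filter_add_card_filter_not (s := univ) m, pow_add] at c1
    have : #Z * #G0 ≤ Fintype.card Γ * 2 ^ #{p | ¬ m p} * #G0 := by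
      rw [c1]; nlinarith [Nat.mul_le_mul_right (2 ^ #{p | ¬ m p}) c2]
    exact_mod_cast Nat.le_of_mul_le_mul_right this s0.pos
  have e1 : ∑ d ∈ Fintype.piFinset fun j => (J.D (σ j)).G m, sg (J.Ph σ τ d) =
      ∑ d ∈ Fintype.piFinset fun j => (J.D (σ j)).G m, if ζ d ∈ Z then sg (J.Ph σ τ d) else 0 := by
    have p0 : (#G0 : ℝ) ≠ 0 := by exact_mod_cast s0.pos.ne'
    refine mul_left_cancel₀ p0 ?_
    have mp : ∀ g ∈ G0, ∀ d ∈ Fintype.piFinset fun j => (J.D (σ j)).G m,
        d + Pi.single j0 g ∈ Fintype.piFinset fun j => (J.D (σ j)).G m := fun g hg d hd =>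
      Fintype.mem_piFinset.2 fun j => ((h _).subG m).add _ (Fintype.mem_piFinset.1 hd j) _ (by
        by_cases e : j = j0
        · subst e; simpa using ((hG g).1 hg).1
        · simpa [e] using ((h _).subG m).zero)
    rw [← nsmul_eq_mul, ← sum_const, sum_congr rfl fun g hg => sum_nbij' (· + Pi.single j0 g)
      (· + Pi.single j0 g) (g := fun d => sg (J.Ph σ τ d) * sg (dot g.2 (ζ d))) (mp g hg) (mp g hg)
      (fun _ _ => add_add_me _ _) (fun _ _ => add_add_me _ _) fun d _ => by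
        conv_lhs => rw [← add_add_me d (Pi.single j0 g), Ph_shift h σ τ _ j0 ((hG g).1 hg).2, sg_add, ← hζ],
      sum_comm, mul_sum]
    refine sum_congr rfl fun d _ => ?_
    rw [← mul_sum, char_sum s0 fun a _ b _ => add_dot _ _ _]
    simp only [hZ]
    split_ifs <;> simp [mul_comm]
  have th0 : (0 : ℝ) ≤ 1 - (2 ^ k)⁻¹ := sub_nonneg.2 (inv_le_one_of_one_le₀ (one_le_pow₀ one_le_two))
  have c4 : ∀ y, (#{d | ζ d = y} : ℝ) ≤ Fintype.card Γ ^ k * ((2 ^ k) ^ Fintype.card P *
      (1 - (2 ^ k)⁻¹) ^ J.sep m (σ j1) (σ j0)) := fun y => by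
    obtain ⟨A, hA⟩ : ∃ A : P → Finset (Fin k → F), ∀ p v, v ∈ A p ↔
        ∑ j, τ.1 s(j0, j) * v j * (J.b (σ j) p + J.b (σ j0) p) = y p :=
      ⟨fun p => univ.filter _, fun _ _ => mem_filter_univ _⟩
    have : #{d | ζ d = y} ≤ #((univ : Finset (Fin k → Γ)) ×ˢ Fintype.piFinset A) :=
      card_le_card_of_injOn (fun d => (fun j => (d j).1, fun p j => (d j).2 p)) (fun d hd => by
        simp only [coe_filter, mem_univ, true_and, Set.mem_ofPred_eq, hζ] at hd
        simp [hA, ← hd]) fun d _ d' _ e => funext fun j => Prod.ext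
          (congrFun (congrArg Prod.fst e) j) (funext fun p =>
            congrFun (congrFun (congrArg Prod.snd e) p) j)
    refine (Nat.cast_le.2 this).trans ?_
    rw [card_product, Fintype.card_piFinset, card_univ, Fintype.card_fun, Fintype.card_fin, sep,
      ← card_univ (α := P), ← prod_const, ← prod_const, prod_filter, ← prod_mul_distrib]
    push_cast
    gcongr with p hp
    have u : #(univ : Finset (Fin k → F)) = 2 ^ k := by simp
    split_ifs with e
    · have : #(A p) < 2 ^ k := by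
        rw [← u]
        refine card_lt_card (ssubset_univ_iff.2 fun n => e.2 ?_)
        have a1 := (hA p 0).1 (n ▸ mem_univ _)
        have a2 := (hA p (Pi.single j1 1)).1 (n ▸ mem_univ _)
        rw [sum_eq_single j1 (fun j _ hj => by simp [hj]) (by simp), Fne h1, ← a1] at a2
        simp only [Pi.single_eq_same, one_mul, Pi.zero_apply, mul_zero, zero_mul, sum_const_zero] at a2
        linear_combination a2 - Fadd (J.b (σ j0) p)
      have := (Nat.cast_le (α := ℝ)).2 (Nat.succ_le_of_lt this)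
      push_cast at this
      rw [mul_sub, mul_inv_cancel₀ (by positivity)]
      linarith
    · rw [mul_one]
      exact_mod_cast (card_le_card (subset_univ _)).trans u.le
  rw [e1, inv_mul_le_iff₀ (by positivity)]
  calc _ ≤ ∑ d, ∑ y ∈ Z, if ζ d = y then (1 : ℝ) else 0 := by
        refine (abs_sum_le_sum_abs _ _).trans ((sum_le_sum_of_subset_of_nonneg (subset_univ _)
          fun _ _ _ => abs_nonneg _).trans (sum_le_sum fun d _ => ?_))
        rw [sum_ite_eq]
        split_ifs <;> simp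
    _ ≤ Fintype.card Γ * 2 ^ #{p | ¬ m p} * (Fintype.card Γ ^ k * ((2 ^ k) ^ Fintype.card P *
        (1 - (2 ^ k)⁻¹) ^ J.sep m (σ j1) (σ j0))) := by
        rw [sum_comm]
        refine (sum_le_card_nsmul _ _ _ fun y _ => by rw [sum_boole]; exact c4 y).trans ?_
        rw [nsmul_eq_mul]
        gcongr
    _ = (2 ^ k) ^ #{p | m p} * (Fintype.card Γ ^ (k + 1) * (2 * 2 ^ k) ^ #{p | ¬ m p} *
        (1 - (2 ^ k)⁻¹) ^ J.sep m (σ j1) (σ j0)) := by
        rw [← card_univ (α := P), ← card_filter_add_card_filter_not (s := univ) m, pow_add, mul_pow]; ring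
    _ ≤ _ := by gcongr; norm_num

open Classical in
theorem alg (t : F) (t0 : T) (σ : Fin k → T) {a b : ℕ}
    (ha : ∀ i, a ≤ #{p | m p ∧ J.f p = i} ∧ #{p | m p ∧ J.f p = i} ≤ a + b) (hb : #{p | ¬ m p} ≤ b)
    {Θ : ℝ} (h1 : (1 - (8 ^ k)⁻¹) ^ a ≤ Θ)
    (h2 : ∀ t t', t ≠ t' → (1 - (8 ^ k)⁻¹) ^ J.sep m t t' ≤ Θ) :
    |sgn t #(J.D t0).S * J.CN σ (J.IndX m) -
      (if t = 0 then #{τ : Tp k | Blk σ τ} * ∏ j, (#((J.D (σ j)).K m) : ℝ) else 0) -
      J.NT m t t0 σ {U | Ind U ∧ ¬ Triv t U}| ≤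
    (2 * Fintype.card (Tp k) + 1) * (Er k (Fintype.card Γ) b * Θ) := by
  have e1 : ({U | Ind U} : Finset (Fin 3 → Finset (Cl k))) = ({U | Ind U ∧ ¬ Triv t U} : Finset _) ∪
      (({U | Gen U ∧ Triv t U} : Finset _) ∪ ({U | Ind U ∧ Triv t U ∧ ¬ Gen U} : Finset _)) := by
    ext U
    have := Gen.ind (U := U)
    simp only [mem_union, mem_filter, mem_univ, true_and]
    tauto
  rw [← EE_cnt (m := m) σ (𝒰 := {U | Ind U}) (Φ := J.IndX m) fun x y => (mem_filter_univ _).trans SD.ind_uu, e1,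
    EE_union σ (by simp only [disjoint_left, mem_union, mem_filter]; tauto),
    EE_union σ (by simp only [disjoint_left, mem_filter]; tauto), NT_eq h]
  have s1 := (EE_small (J := J) σ ha hb {U | Ind U ∧ Triv t U ∧ ¬ Gen U} fun U hU => by
    obtain ⟨-, u1, u2, u3⟩ := mem_filter.1 hU
    exact not_le.1 fun e => u3 (classify u1 u2 e)).trans (Er_small Fintype.card_pos h1)
  have p0 := (abs_nonneg _).trans s1
  have s3 : |sgn t #(J.D t0).S * J.EE m σ {U | Gen U ∧ Triv t U} -
      (if t = 0 then #{τ : Tp k | Blk σ τ} * ∏ j, (#((J.D (σ j)).K m) : ℝ) else 0)| ≤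
      Fintype.card (Tp k) * (2 * (Er k (Fintype.card Γ) b * Θ)) := by
    rcases F01 t with rfl | rfl
    swap
    · rw [filter_false_of_mem fun U _ e => gen_one e.1 e.2]
      simp only [EE, notMem_empty, if_false, sum_const_zero, mul_zero, one_ne_zero, sub_zero, abs_zero]
      positivity
    rw [EE_gen h, sgn, if_pos rfl, if_pos rfl, one_mul, ← nsmul_eq_mul, ← sum_const, sum_filter,
      ← sum_sub_distrib]
    refine (abs_sum_le_sum_abs _ _).trans ((sum_le_card_nsmul _ _ _ fun τ _ => ?_).trans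
      (nsmul_eq_mul _ _).le)
    have n1 : ((2 ^ k) ^ #{p | m p})⁻¹ * |∑ d ∈ Fintype.piFinset fun j => (J.D (σ j)).G m with
        ¬ Gen (im J.f m (uu (fun j => (d j).2) 0)), sg (J.Ph σ τ d)| ≤ Er k (Fintype.card Γ) b * Θ := by
      refine le_trans ?_ ((mul_le_mul_of_nonneg_left (small_le J.f m ha hb) (by positivity)).trans
        (Er_small Fintype.card_pos h1))
      rw [mul_left_comm]
      gcongr
      refine (abs_sum_le_sum_abs _ _).trans ?_
      simp only [abs_sg, sum_const, nsmul_eq_mul, mul_one]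
      rw [mul_comm]
      exact_mod_cast card_ngen J.f m _ fun d hd => (mem_filter.1 hd).2
    have n2 : |((2 ^ k) ^ #{p | m p})⁻¹ * ∑ d ∈ Fintype.piFinset fun j => (J.D (σ j)).G m,
        sg (J.Ph σ τ d) - if Blk σ τ then ∏ j, (#((J.D (σ j)).K m) : ℝ) else 0| ≤
        Er k (Fintype.card Γ) b * Θ := by
      split_ifs with e
      · rw [sum_congr rfl fun d hd => by
          rw [Ph_blk h e fun j => (SD.mem_G.1 (Fintype.mem_piFinset.1 hd j)).1, sg_zero]]
        simp only [sum_const, Fintype.card_piFinset, (h _).cardG, nsmul_eq_mul, mul_one]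
        push_cast
        rw [prod_mul_distrib, prod_const, card_univ, Fintype.card_fin, ← pow_mul 2 _ k, mul_comm _ k,
          pow_mul, inv_mul_cancel_left₀ (by positivity), sub_self, abs_zero]
        exact p0
      · simp only [Blk, not_forall] at e
        obtain ⟨j0, j1, e1, e2⟩ := e
        rw [sub_zero, abs_mul, abs_of_pos (by positivity)]
        exact (Ph_cross h σ τ e2).trans (Er_sep hb (h2 _ _ (Ne.symm e1)))
    rw [← sum_filter_add_sum_filter_not _ fun d => Gen (im J.f m (uu (fun j => (d j).2) 0)),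
      mul_add] at n2
    rw [← abs_of_pos (show (0 : ℝ) < ((2 ^ k) ^ #{p | m p})⁻¹ by positivity), ← abs_mul] at n1
    rw [abs_le] at *
    constructor <;> linarith [n1.1, n1.2, n2.1, n2.2]
  rw [show ∀ s A B C X : ℝ, s * (A + (B + C)) - X - s * A = (s * B - X) + s * C from
    fun _ _ _ _ _ => by ring]
  refine (abs_add_le _ _).trans ?_
  rw [abs_mul, abs_sgn, one_mul]
  linarith

end JD

end Pool.Agent.Lib.MP_7cad78_nt.PR
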