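import Pool.Agent.Lib.MP_7cad78_nt.J.A3

/-! Independence of the Selmer groups of different twists. -/

namespace Pool.Agent.Lib.MP_7cad78_nt.PR

open Finset

set_option linter.unusedSectionVars false

variable {k : ℕ}

namespace JD

variable {Γ V P T : Type} [AddCommGroup Γ] [Module F Γ] [Fintype Γ] [AddCommGroup V] [Module F V]
  [Fintype P] [DecidableEq P] [Fintype T] [DecidableEq T] {J : JD Γ V P T} {m : P → Prop}
  [DecidablePred m]

open Classical in
lemma card_blk {κ : T → ℕ} (e : Fin k ≃ Σ t, Fin (κ t)) :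
    #{τ : Tp k | Blk (fun j => (e j).1) τ} = ∏ t, 2 ^ (κ t * (κ t + 1) / 2) * 4 ^ κ t := by
  obtain ⟨B, hB⟩ : ∃ B : Finset (Sym2 (Fin k)),
    B = univ.biUnion fun t => ({j | (e j).1 = t} : Finset _).sym2 := ⟨_, rfl⟩
  have mB : ∀ j j', s(j, j') ∈ B ↔ (e j).1 = (e j').1 := fun j j' => by
    simp only [hB, mem_biUnion, mk_mem_sym2_iff]; simp [eq_comm]
  have cf : ∀ t, #{j | (e j).1 = t} = κ t := fun t => by
    rw [show ({j | (e j).1 = t} : Finset _) = univ.image fun i => e.symm ⟨t, i⟩ from ?_,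
      card_image_of_injective _ fun _ _ h => by simpa using h, card_univ, Fintype.card_fin]
    ext j
    simp only [mem_filter, mem_univ, true_and, mem_image]
    exact ⟨by rintro rfl; exact ⟨(e j).2, by simp⟩, by rintro ⟨i, rfl⟩; simp⟩
  have cB : #B = ∑ t, κ t * (κ t + 1) / 2 := by
    rw [hB, card_biUnion]
    · exact sum_congr rfl fun t _ => by rw [card_sym2, cf, Nat.choose_two_right, mul_comm]; rfl
    · intro t _ t' _ hne
      refine disjoint_left.2 fun s h1 h2 => hne ?_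
      induction s with
      | _ i j => exact (mem_filter.1 (mk_mem_sym2_iff.1 h1).1).2.symm.trans
                  (mem_filter.1 (mk_mem_sym2_iff.1 h2).1).2
  have ck : k = ∑ t, κ t := by simpa using Fintype.card_congr e
  rw [show ({τ : Tp k | Blk (fun j => (e j).1) τ} : Finset _) = van (· ∉ B) ×ˢ univ from ?_,
    card_product, card_van, prod_mul_distrib, prod_pow_eq_pow_sum, prod_pow_eq_pow_sum, ← cB, ← ck]
  · simp [← mul_pow]
  ext τ
  simp only [mem_filter, mem_univ, true_and, mem_product, and_true, mem_van, Blk, Sym2.forall, mB]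

variable (J m) in
/-- a relation between elements of different twists -/
def Dep : Prop := ∃ d : T → Γ × (P → F), (∀ t, d t ∈ (J.D t).S) ∧ J.Pat m (∑ t, (d t).2) ∧
  ∃ t, ¬ J.Pat m (d t).2

variable (J m) in
def MnX (x : Fin k → P → F) : Prop := J.Pat m (fun p => ∑ j, x j p) ∧
  ∀ v : Fin k → F, J.Pat m (fun p => ∑ j, v j * x j p) → v = 0 ∨ v = 1

lemma rel_uu {x y : Fin k → P → F} {v : Fin k → F} :
    Rel (im J.f m (uu x y)) v ↔ J.Pat m fun p => ∑ j, v j * x j p := by
  simp only [Rel, mem_im]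
  refine exists_congr fun s => and_congr_right fun _ => ⟨fun h p hp => h _ _ ⟨p, hp, rfl, rfl⟩, ?_⟩
  rintro h _ _ ⟨p, hp, rfl, rfl⟩
  exact h p hp

lemma mn_uu {x y : Fin k → P → F} : Mn (im J.f m (uu x y)) ↔ J.MnX m x := by
  simp [Mn, MnX, rel_uu]

lemma Pat.add {x y : P → F} (h : J.Pat m x) (h' : J.Pat m y) : J.Pat m (x + y) := by
  obtain ⟨s, a, b⟩ := h
  obtain ⟨s', a', b'⟩ := h'
  exact ⟨s + s', by simp [sum_add_distrib, a, a'], fun p hp => by simp [b p hp, b' p hp]⟩

lemma dep_min (h : J.Dep m) : ∃ k ≤ Fintype.card T, ∃ σ : Fin k → T, (∃ j0 j1, σ j1 ≠ σ j0) ∧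
    1 ≤ J.CN σ (J.MnX m) := by
  classical
  obtain ⟨d, h1, h2, t0, h3⟩ := h
  obtain ⟨A, hA, mn⟩ := exists_min_image ({A : Finset T | A.Nonempty ∧ (∀ t ∈ A, ¬ J.Pat m (d t).2) ∧
    J.Pat m (∑ t ∈ A, (d t).2)} : Finset _) card ⟨univ.filter fun t => ¬ J.Pat m (d t).2, by
      refine mem_filter.2 ⟨mem_univ _, ⟨t0, by simpa⟩, by simp, ?_⟩
      rw [← sum_filter_add_sum_filter_not univ fun t => J.Pat m (d t).2] at h2
      have := h2.add (sum_induction (s := {t | J.Pat m (d t).2}) (fun t => (d t).2) (J.Pat m)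
        (fun _ _ => Pat.add) ⟨0, by simp, by simp⟩ (by simp))
      rwa [add_right_comm, add_me, zero_add] at this⟩
  obtain ⟨-, ⟨t1, a1⟩, a2, a3⟩ := mem_filter.1 hA
  obtain ⟨σ, hσ, s1⟩ : ∃ σ : Fin #A → T, Function.Injective σ ∧ univ.image σ = A :=
    ⟨fun j => A.equivFin.symm j, Subtype.val_injective.comp A.equivFin.symm.injective, by
      ext t
      simp only [mem_image, mem_univ, true_and]
      exact ⟨by rintro ⟨j, rfl⟩; exact coe_mem _, fun ht => ⟨A.equivFin ⟨t, ht⟩, by simp⟩⟩⟩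
  have sm : ∀ s : Finset (Fin #A), ∑ t ∈ s.image σ, (d t).2 = fun p => ∑ j ∈ s, (d (σ j)).2 p :=
    fun s => by rw [sum_image hσ.injOn]; ext; simp
  refine ⟨_, card_le_univ A, σ, ?_, card_pos.2 ⟨fun j => d (σ j), mem_filter.2
    ⟨Fintype.mem_piFinset.2 fun j => h1 _, sm univ ▸ s1.symm ▸ a3, fun v hv => ?_⟩⟩⟩
  · by_contra n
    push Not at n
    obtain ⟨j, -, rfl⟩ := mem_image.1 (s1.symm ▸ a1)
    rw [show A = {σ j} from eq_singleton_iff_unique_mem.2 ⟨a1, fun t ht => by
      obtain ⟨i, -, rfl⟩ := mem_image.1 (s1.symm ▸ ht)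
      exact n _ _⟩, sum_singleton] at a3
    exact a2 _ a1 a3
  · rcases ({j | v j = 1} : Finset _).eq_empty_or_nonempty with e | e
    · exact .inl (funext fun j => (F01 _).resolve_right fun c => by simpa [c] using Finset.ext_iff.1 e j)
    have := mn (({j | v j = 1} : Finset _).image σ) (mem_filter.2 ⟨mem_univ _, e.image _, fun t ht =>
      a2 t (s1 ▸ image_subset_image (subset_univ _) ht), by
        rw [sm]
        convert hv using 2
        rw [sum_filter]
        exact sum_congr rfl fun j _ => by rcases F01 (v j) with c | c <;> simp [c]⟩)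
    rw [card_image_of_injective _ hσ] at this
    have := eq_univ_of_card _ (le_antisymm (card_le_univ _) ((Fintype.card_fin _).trans_le this))
    exact .inr (funext fun j => by simpa using Finset.ext_iff.1 this j)

lemma CN_prod (h : ∀ t, (J.D t).Ok) (hm : ∀ i, ∃ p, m p ∧ J.f p = i) (hD : ¬ J.Dep m) {κ : T → ℕ}
    (e : Fin k ≃ Σ t, Fin (κ t)) : (J.CN (fun j => (e j).1) (J.IndX m) : ℝ) =
      ∏ t, #((J.D t).K m) ^ κ t * 4 ^ κ t * inj (κ t) ((J.D t).rk m) := by
  classical
  choose K' h0 h1 h2 h3 using fun t => (h t).card_K' (m := m) hm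
  have c : ∀ t, _ = #((J.D t).K m) ^ κ t * 4 ^ κ t * inj (κ t) ((J.D t).rk m) := fun t =>
    (card_indep (h t).subS (κ t) (h0 t) (h1 t)).trans (by
      rw [h2, (h t).card_S hm, prod_congr rfl (g := fun i => (#((J.D t).K m) * 4) *
        ((2 : ℝ) ^ (J.D t).rk m - 2 ^ i)) fun i _ => by push_cast; ring, prod_mul_distrib, prod_const,
        card_range, mul_pow, inj])
  rw [← prod_congr rfl fun t _ => c t, ← Nat.cast_prod, ← Fintype.card_piFinset, CN]
  congr 1
  have sm : ∀ (v : Fin k → F) (x : Fin k → P → F), (fun p => ∑ j, v j * x j p) =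
      ∑ t, ∑ i, v (e.symm ⟨t, i⟩) • x (e.symm ⟨t, i⟩) := fun v x => by
    ext p
    rw [← e.symm.sum_comp, Fintype.sum_sigma]
    simp
  refine card_nbij' (fun d t i => d (e.symm ⟨t, i⟩)) (fun c j => c (e j).1 (e j).2) (fun d hd => ?_)
    (fun c hc => ?_) (fun d _ => by simp) fun c _ => funext fun t => funext fun i =>
      congrArg (fun s : Σ t, Fin (κ t) => c s.1 s.2) (e.apply_symm_apply ⟨t, i⟩)
  · simp only [coe_filter, Fintype.mem_piFinset, Set.mem_ofPred_eq, mem_coe, mem_filter] at hd ⊢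
    have a : ∀ t i, d (e.symm ⟨t, i⟩) ∈ (J.D t).S := fun t i => by simpa using hd.1 (e.symm ⟨t, i⟩)
    refine fun t => ⟨a t, fun v hv => ?_⟩
    have b : ∀ t' i, Pi.single (M := fun t => Fin (κ t) → F) t v (e (e.symm ⟨t', i⟩)).1
        (e (e.symm ⟨t', i⟩)).2 = Pi.single (M := fun t => Fin (κ t) → F) t v t' i := fun t' i =>
      congrArg (fun s : Σ t, Fin (κ t) => Pi.single (M := fun t => Fin (κ t) → F) t v s.1 s.2)
        (e.apply_symm_apply ⟨t', i⟩)
    have := hd.2 (fun j => Pi.single (M := fun t => Fin (κ t) → F) t v (e j).1 (e j).2) (by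
      rw [sm]
      simp only [b]
      rw [sum_eq_single t (fun t' _ n => by simp [n]) (by simp), Pi.single_eq_same]
      have := (h3 t _ (h1 t hv)).1 hv
      rwa [Prod.snd_sum] at this)
    ext i
    simpa [b] using congrFun this (e.symm ⟨t, i⟩)
  · simp only [coe_filter, Fintype.mem_piFinset, Set.mem_ofPred_eq, mem_coe, mem_filter] at hc ⊢
    refine ⟨fun j => (hc _).1 _, fun v hv => ?_⟩
    have b : ∀ t i, c (e (e.symm ⟨t, i⟩)).1 (e (e.symm ⟨t, i⟩)).2 = c t i := fun t i =>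
      congrArg (fun s : Σ t, Fin (κ t) => c s.1 s.2) (e.apply_symm_apply ⟨t, i⟩)
    rw [sm] at hv
    simp only [b] at hv
    have a : ∀ t, ∑ i, v (e.symm ⟨t, i⟩) • c t i ∈ (J.D t).S := fun t =>
      (h t).subS.sum _ fun i _ => (h t).subS.smul _ ((hc t).1 i)
    simp only [Dep, not_exists, not_and, not_not] at hD
    have := fun t => (hc t).2 _ ((h3 t _ (a t)).2 (hD _ a (by simpa only [Prod.snd_sum, Prod.smul_snd] using hv) t))
    ext j
    simpa using congrFun (this (e j).1) (e j).2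

end JD

end Pool.Agent.Lib.MP_7cad78_nt.PR
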