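import Pool.Agent.Lib.MP_7cad78_nt.Rank
import Pool.Agent.Lib.MP_7cad78_nt.LocF

/-! The rank over a multiquadratic field vanishes when the ranks of all twists vanish. -/

namespace Pool.Agent.Lib.MP_7cad78_nt.PR.Rk

open Function WeierstrassCurve WeierstrassCurve.Affine

lemma scale {F K : Type} [Field F] [Field K] [DecidableEq F] [DecidableEq K] (f : F →+* K) {u : K}
    (hu : u ≠ 0) {W : Affine F} {W' : Affine K} (h1 : W'.a₁ = u * f W.a₁) (h2 : W'.a₂ = u ^ 2 * f W.a₂)
    (h3 : W'.a₃ = u ^ 3 * f W.a₃) (h4 : W'.a₄ = u ^ 4 * f W.a₄) (h6 : W'.a₆ = u ^ 6 * f W.a₆) :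
    ∃ φ : W.Point →+ W'.Point, ∀ x y h, ∃ h', φ (.some x y h) = .some (u ^ 2 * f x) (u ^ 3 * f y) h' := by
  have ns : ∀ {x y}, W.Nonsingular x y → W'.Nonsingular (u ^ 2 * f x) (u ^ 3 * f y) := fun {x y} h => by
    rw [nonsingular_iff', equation_iff'] at h ⊢
    rw [h1, h2, h3, h4, h6]
    have a := congrArg f h.1
    simp only [map_sub, map_add, map_mul, map_pow, map_zero] at a
    refine ⟨by linear_combination u ^ 6 * a, h.2.imp (fun c e => c (f.injective ?_))
      fun c e => c (f.injective ?_)⟩ <;> simp only [map_sub, map_add, map_mul, map_pow, map_zero, map_ofNat]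
    · exact mul_left_cancel₀ (pow_ne_zero 4 hu) (by linear_combination e)
    · exact mul_left_cancel₀ (pow_ne_zero 3 hu) (by linear_combination e)
  have ng : ∀ x y, W'.negY (u ^ 2 * f x) (u ^ 3 * f y) = u ^ 3 * f (W.negY x y) := fun x y => by
    simp only [negY, h1, h3, map_sub, map_neg, map_mul]; ring
  have ij : ∀ (n : ℕ) (a b : F), u ^ n * f a = u ^ n * f b ↔ a = b := fun n a b => by
    rw [mul_right_inj' (pow_ne_zero _ hu), f.injective.eq_iff]
  have sl : ∀ x₁ x₂ y₁ y₂, W'.slope (u ^ 2 * f x₁) (u ^ 2 * f x₂) (u ^ 3 * f y₁) (u ^ 3 * f y₂) =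
      u * f (W.slope x₁ x₂ y₁ y₂) := fun x₁ x₂ y₁ y₂ => by
    simp only [Affine.slope, ng, ij]
    split_ifs
    · simp
    · rw [h1, h2, h4, map_div₀, ← mul_sub, ← mul_div_assoc, ← mul_div_mul_left _ (f _) (pow_ne_zero 3 hu)]
      simp only [map_sub, map_add, map_mul, map_pow, map_ofNat]
      congr 1; ring
    · rw [map_div₀, ← mul_sub, ← mul_sub, ← mul_div_assoc, ← mul_div_mul_left _ (f _) (pow_ne_zero 2 hu)]
      simp only [map_sub]
      congr 1; ring
  refine ⟨AddMonoidHom.mk' (fun P => match P with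
    | 0 => 0
    | .some _ _ h => .some _ _ (ns h)) ?_, fun x y h => ⟨ns h, rfl⟩⟩
  rintro (_ | ⟨x₁, y₁, a⟩) (_ | ⟨x₂, y₂, b⟩)
  any_goals rfl
  by_cases hxy : x₁ = x₂ ∧ y₁ = W.negY x₂ y₂
  · rw [Point.add_of_Y_eq hxy.1 hxy.2, Point.add_of_Y_eq (by rw [hxy.1]) (by rw [hxy.2, ng])]
  · rw [Point.add_some hxy, Point.add_some (by rwa [ng, ij, ij])]
    simp only [Point.some.injEq, sl, addY, negAddY, negY, addX, h1, h2, h3, map_sub, map_add, map_mul,
      map_pow, map_neg]
    constructor <;> ring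

variable {K : Type} [Field K] [NumberField K] [IsGalois ℚ K]

lemma fixed {x : K} (h : ∀ σ : K ≃ₐ[ℚ] K, σ x = x) : ∃ q : ℚ, (q : K) = x :=
  (IsGalois.mem_range_algebraMap_iff_fixed x).2 h

/-- the squarefree integers which become squares -/
def Tw (K : Type) [Field K] : Set ℤ := {d | Squarefree d ∧ IsSquare (d : K)}

lemma Tw_fin : (Tw K).Finite := by
  choose! s hs using fun d (h : d ∈ Tw K) => h.2
  refine Set.Finite.of_finite_image (f := fun d (σ : K ≃ₐ[ℚ] K) => σ (s d) = s d) (Set.toFinite _)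
    fun a ha b hb e => Loc.sqf_ext ha.1 hb.1 fun v hv => ?_
  have pm : ∀ d ∈ Tw K, ∀ σ : K ≃ₐ[ℚ] K, σ (s d) = s d ∨ σ (s d) = -s d := fun d hd σ =>
    mul_self_eq_mul_self_iff.1 (by rw [← map_mul, ← hs d hd, map_intCast])
  obtain ⟨q, hq⟩ := fixed (x := s a * s b) fun σ => by
    have := congrFun e σ
    simp only [eq_iff_iff] at this
    by_cases c : σ (s a) = s a
    · rw [map_mul, c, this.1 c]
    · rw [map_mul, (pm a ha σ).resolve_left c, (pm b hb σ).resolve_left (mt this.2 c), neg_mul_neg]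
  have : IsSquare ((a * b : ℤ) : ℚ) := ⟨q, by
    apply Rat.cast_injective (α := K)
    push_cast
    rw [hq, hs a ha, hs b hb]; ring⟩
  have := Loc.cl_of_sq hv (mul_ne_zero ha.1.ne_zero hb.1.ne_zero) (Rat.isSquare_intCast_iff.1 this)
  rw [Loc.cl_mul hv ha.1.ne_zero hb.1.ne_zero] at this
  rw [Loc.xp, Loc.CC' this, Loc.xp]

theorem rank_mq [DecidableEq K] (h2 : ∀ σ : K ≃ₐ[ℚ] K, σ * σ = 1) (p : ℤ × ℤ)
    (h : ∀ d ∈ Tw K, Module.rank ℤ (curve (d ^ 2 * p.1, d ^ 3 * p.2)).Point = 0) :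
    Module.rank ℤ ((curve p).baseChange K).Point = 0 := by
  classical
  obtain ⟨W, hW⟩ : ∃ W : Affine K, (curve p).baseChange K = W := ⟨_, rfl⟩
  have a1 : W.a₁ = 0 := by simp [← hW, curve]
  have a2 : W.a₂ = 0 := by simp [← hW, curve]
  have a3 : W.a₃ = 0 := by simp [← hW, curve]
  have a4 : W.a₄ = p.1 := by simp [← hW, curve]
  have a6 : W.a₆ = p.2 := by simp [← hW, curve]
  rw [hW]
  choose φ hφ using fun σ : K ≃ₐ[ℚ] K => scale (σ : K →+* K) one_ne_zero (W := W) (W' := W)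
    (by simp [a1]) (by simp [a2]) (by simp [a3]) (by simp [a4]) (by simp [a6])
  have mul : ∀ σ τ P, φ σ (φ τ P) = φ (σ * τ) P := by
    rintro σ τ (_ | ⟨x, y, c⟩)
    · simp [← Point.zero_def]
    obtain ⟨_, e1⟩ := hφ τ x y c
    obtain ⟨_, e2⟩ := hφ (σ * τ) x y c
    obtain ⟨_, e3⟩ := hφ σ _ _ ‹W.Nonsingular (1 ^ 2 * (τ : K →+* K) x) _›
    rw [e1, e2, e3]
    simp
  have one : ∀ P, φ 1 P = P := by
    rintro (_ | ⟨x, y, c⟩)
    · simp [← Point.zero_def]
    obtain ⟨_, e1⟩ := hφ 1 x y c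
    rw [e1]; simp
  have cm : ∀ σ τ : K ≃ₐ[ℚ] K, σ * τ = τ * σ := fun σ τ => by
    have iv : ∀ a : K ≃ₐ[ℚ] K, a⁻¹ = a := fun a => inv_eq_of_mul_eq_one_right (h2 a)
    rw [← iv (σ * τ), mul_inv_rev, iv, iv]
  have key : ∀ S : Finset (K ≃ₐ[ℚ] K), ∀ P : W.Point, (∀ σ ∉ S, φ σ P = P ∨ φ σ P = -P) →
      ∃ a : ℤ, a ≠ 0 ∧ a • P = 0 := by
    intro S
    induction S using Finset.induction_on with
    | insert σ S _ ih =>
      intro P hP
      obtain ⟨a, a0, ha⟩ := ih (P + φ σ P) fun τ hτ => by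
        by_cases e : τ = σ
        · left; rw [e, map_add, mul, h2, one, add_comm]
        rw [map_add, mul, cm, ← mul]
        exact (hP τ (by simp [e, hτ])).imp (fun c => by rw [c]) fun c => by rw [c, map_neg, neg_add]
      obtain ⟨b, b0, hb⟩ := ih (P - φ σ P) fun τ hτ => by
        by_cases e : τ = σ
        · right; rw [e, map_sub, mul, h2, one, neg_sub]
        rw [map_sub, mul, cm, ← mul]
        exact (hP τ (by simp [e, hτ])).imp (fun c => by rw [c]) fun c => by rw [c, map_neg, neg_sub']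
      refine ⟨a * b * 2, by simp [a0, b0], ?_⟩
      rw [mul_smul, two_smul, show P + P = P + φ σ P + (P - φ σ P) by abel, smul_add, mul_smul a b (_ - _),
        hb, mul_comm, mul_smul, ha, smul_zero, smul_zero, add_zero]
    | empty =>
      rintro (_ | ⟨x, y, c⟩) hP
      · exact ⟨1, one_ne_zero, smul_zero _⟩
      obtain ⟨q, rfl⟩ := fixed (x := x) fun σ => by
        obtain ⟨_, e⟩ := hφ σ x y c
        rcases hP σ (by simp) with e1 | e1 <;> simpa using (Point.some.inj (e.symm.trans e1)).1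
      by_cases hy : y = 0
      · exact ⟨2, two_ne_zero, by rw [two_smul, Point.add_self_of_Y_eq (by simp [negY, hy, a1, a3])]⟩
      have eq := c.1
      rw [equation_iff, a1, a2, a3, a4, a6] at eq
      obtain ⟨d, d1, r, hr⟩ := sqfree (q ^ 3 + p.1 * q + p.2)
      have d0 : (d : K) ≠ 0 := by exact_mod_cast d1.ne_zero
      have e1 : (d : K) * y ^ 2 = r * r := by
        have := congrArg (Rat.cast : ℚ → K) hr
        push_cast at this
        linear_combination this + d * eq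
      have r0 : (r : K) ≠ 0 := fun e => mul_ne_zero d0 (pow_ne_zero 2 hy) (by rw [e1, e, mul_zero])
      have e2 : (d : K) = r ^ 2 / y ^ 2 := by rw [eq_div_iff (pow_ne_zero 2 hy), e1, sq]
      obtain ⟨ψ, hψ⟩ := scale (algebraMap ℚ K) (div_ne_zero hy r0) (W := curve (d ^ 2 * p.1, d ^ 3 * p.2))
        (W' := W) (by simp [a1, curve]) (by simp [a2, curve]) (by simp [a3, curve])
        (by simp only [a4, curve, eq_ratCast]; push_cast; rw [e2]; field_simp)
        (by simp only [a6, curve, eq_ratCast]; push_cast; rw [e2]; field_simp)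
      have ns : (curve (d ^ 2 * p.1, d ^ 3 * p.2)).Nonsingular (d * q) (d * r) := by
        rw [nonsingular_iff', equation_iff']
        simp only [curve]
        push_cast
        refine ⟨by linear_combination -d ^ 2 * hr, .inr ?_⟩
        have : r ≠ 0 := by exact_mod_cast r0
        simp [d1.ne_zero, this]
      obtain ⟨a, a0, ha⟩ := rank_eq_zero_iff.1 (h d ⟨d1, r / y, by rw [e2]; field_simp⟩) (.some _ _ ns)
      obtain ⟨_, e⟩ := hψ _ _ ns
      refine ⟨a, a0, ?_⟩
      rw [← map_zero ψ, ← ha, map_zsmul, e]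
      congr 2 <;> simp only [eq_ratCast] <;> push_cast <;> rw [e2] <;> field_simp
  exact rank_eq_zero_iff.2 fun P => key Finset.univ P (by simp)

end Pool.Agent.Lib.MP_7cad78_nt.PR.Rk
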