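import Pool.Agent.Lib.MP_7cad78_nt.J.Pos
import Pool.Agent.Lib.MP_7cad78_nt.J.Rk
import Pool.Agent.Lib.MP_7cad78_nt.Asm3

/-! Rank zero over a multiquadratic field for a positive proportion of the family. -/

namespace Pool.Agent.Lib.MP_7cad78_nt.PR

open Finset Filter Topology

open Classical Loc in
theorem tw_pos (T : Finset ℤ) (h1 : 1 ∈ T) (hs : ∀ d ∈ T, Squarefree d) : ∃ c : ℝ, 0 < c ∧ ∀ᶠ R in atTop,
    c * R ^ 2 ≤ #{l ∈ Fam R | ∀ d ∈ T, (Sel (d • rt l)).ncard = 2 ^ (0 + 2)} := by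
  obtain ⟨z, hz, hT⟩ : ∃ z, 20 ≤ z ∧ ∀ t : T, Sm z t := ⟨max 20 (T.sup Int.natAbs), le_max_left _ _,
    fun t => ⟨hs _ t.2, fun q _ c => le_max_of_le_right ((Nat.le_of_dvd (Int.natAbs_pos.2 (hs _ t.2).ne_zero)
      (Int.natCast_dvd.1 c)).trans (le_sup t.2))⟩⟩
  have z3 : 3 ≤ z := by omega
  obtain ⟨l₀, s0, hN⟩ := nice_cls z3
  have N0 := (hN l₀ fun _ => ⟨.refl _, .rfl⟩).1
  have d0 := dif_rt (l := l₀) (by rwa [Fin.sum_univ_three])
  have n0 : ∀ i, dif (rt l₀) i ≠ 0 := fun i => by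
    rw [d0]
    fin_cases i
    exacts [N0.s0.ne, N0.s1.ne', N0.s2.ne']
  obtain ⟨c, c0, hc⟩ := LL_ge (K := 4) hz (MM_cop (z := z)) s0 N0.s1 N0.s2 fun l a b => (hN l b).1.val a
  have : Nonempty T := ⟨⟨1, h1⟩⟩
  obtain ⟨J, hJ⟩ : ∃ J, J = mkJD z (BV z) (fun t : T => WV z (t.1 • rt l₀)) gg R0 (R1 z)
    fun t => bb z (dif (t.1 • rt l₀)) := ⟨_, rfl⟩
  have H : ∀ R, ∀ l ∈ LL z 4 (MM z) R l₀, l ∈ Fam R ∧
      (∀ t, ((J l).D t).Ok ∧ (Sel (t.1 • rt l)).ncard = #((J l).D t).S) ∧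
      ∀ t, sgn 1 #((J l).D ⟨1, h1⟩).S = sgn 1 #((J l).D t).S := fun R l hl => by
    obtain ⟨a1, a2, a3⟩ := mem_filter.1 hl
    obtain ⟨-, b1, b2, -⟩ := mem_Reg.1 a1
    have d1 := dif_rt b1
    rw [Fin.sum_univ_three] at b1
    have S := a3.1
    have N := (hN l a2).1
    rw [← d1] at b2 S N
    have e := fun t : T => const (K := 5) (tw_ne (hT t) b2) (tw_ne (hT t) n0) ((hT t).simple S)
      (fun i => by rw [dif_tw, dif_tw, d0, d1]; exact (a2 i).1.mul_left _) fun i => by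
        have := (a2 i).2
        have := b2 i
        have := n0 i
        rw [dif_tw, dif_tw, mul_pos_iff, mul_pos_iff]
        rw [d0, d1] at *
        omega
    rw [hJ, ← funext fun t => (e t).1, ← funext fun t => (e t).2]
    have f1 := fun t : T => tw_ok z3 (hT t) b2 S
    have f2 := par_tw z3 hT (t1 := ⟨1, h1⟩) rfl b2 S N
    rw [d1] at f1 f2
    exact ⟨mem_filter.2 ⟨a1, (hN l a2).1.adm z3 (hN l a2).2 b1 a3.1⟩, f1, f2⟩
  subst hJ
  have k0 : 0 < (2 * law 0) ^ Fintype.card T := pow_pos (by linarith [law_num.1]) _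
  have P := cls_pos (by omega) (fun R l hl t => ((H R l hl).2.1 t).1)
    (fun i γ => ⟨mk_sqf p0_inj p0_pl, fun q hq h => (p0_some.1 (mk_dvd p0_pl hq h)).1⟩)
    (fun γ h0 h1 => gg_inj fun u => by simp [h0, h1, xp, cl_one (p0_pl u)])
    (fun t t' h => ⟨t * t', fun c => h (Subtype.ext (sqf_ext (hT t).1 (hT t').1 fun v hv => by
      have := cl_of_sq hv (mul_ne_zero (hT t).1.ne_zero (hT t').1.ne_zero) c
      rw [cl_mul hv (hT t).1.ne_zero (hT t').1.ne_zero] at this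
      rw [xp, CC' this, xp])), fun i p hp a b => by
        have := Loc.lg_mul hp (fun c => ((hT t).2 p hp c).not_gt a) fun c => ((hT t').2 p hp c).not_gt a
        rw [lg, if_pos b] at this
        rw [bb_tw z3 (hT t) n0 i hp a, bb_tw z3 (hT t') n0 i hp a]
        exact (by decide : ∀ x y w : F, 1 = x + y → x + w ≠ y + w) _ _ _ this⟩)
    (fun R l hl t t' => ((H R l hl).2.2 t).symm.trans ((H R l hl).2.2 t')) (div_pos (mul_pos k0 c0) (by norm_num : (0 : ℝ) < 16))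
  generalize (2 * law 0) ^ Fintype.card T = κ at k0 P
  refine ⟨κ * c / 8, by positivity, ?_⟩
  filter_upwards [P, hc, ww_cnt (half_pos c0), ww_cnt (div_pos (mul_pos k0 c0) (by norm_num : (0 : ℝ) < 16)),
    eventually_gt_atTop 0] with R a1 a2 a3 a4 R0
  have b1 := (abs_le.1 (a3 (LL z 4 (MM z) R l₀) LL_sub)).1
  have b2 := a1.trans (sub_le_iff_le_add.1 (abs_le.1 (a4 _ ((filter_subset _ _).trans LL_sub))).2)
  rw [← le_div_iff₀ (by positivity)] at a2 ⊢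
  refine le_trans (by nlinarith) ((sub_le_iff_le_add'.2 b2).trans (div_le_div_of_nonneg_right
    (Nat.cast_le.2 (card_le_card fun l hl => ?_)) (by positivity)))
  obtain ⟨e1, e2⟩ := mem_filter.1 hl
  exact mem_filter.2 ⟨(H R l e1).1, fun d hd => ((H R l e1).2.1 ⟨d, hd⟩).2.trans (e2 _)⟩

open Rk in
theorem mq_pos (K : Type) [Field K] [NumberField K] [IsGalois ℚ K] [DecidableEq K]
    (h : ∀ σ : K ≃ₐ[ℚ] K, σ * σ = 1) : ∃ c : ℝ, 0 < c ∧ ∀ᶠ X : ℝ in atTop,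
      c ≤ ({p ∈ split X | Module.rank ℤ ((curve p).baseChange K).Point = 0}.ncard : ℝ) / (split X).ncard := by
  classical
  obtain ⟨c, c0, hc⟩ := tw_pos (Tw_fin (K := K)).toFinset (by simp [Tw]) fun d hd =>
    (Tw_fin.mem_toFinset.1 hd).1
  have t : Tendsto RX atTop atTop := Real.tendsto_sqrt_atTop.comp
    (((tendsto_rpow_atTop (by norm_num)).comp (tendsto_id.atTop_div_const four_pos)).const_mul_atTop
      (by norm_num))
  refine ⟨c / 4, by positivity, ?_⟩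
  filter_upwards [t.eventually hc, t.eventually_gt_atTop 0, eventually_gt_atTop 0] with X a1 a2 hX
  obtain ⟨P, hP⟩ : ∃ P : ℤ × ℤ → Prop, ∀ p, Module.rank ℤ ((curve p).baseChange K).Point = 0 ↔ P p :=
    ⟨_, fun _ => .rfl⟩
  simp only [hP]
  have b1 := (count P hX).2
  have b2 := (count6 0 hX).2.1
  have b3 : (#(Fam (RX X)) : ℝ) ≤ 4 * RX X ^ 2 := le_trans (Nat.cast_le.2 (card_le_card
    ((filter_subset _ _).trans (filter_subset _ _)))) (card_Bx_le a2.le)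
  have b4 := a1.trans (Nat.cast_le.2 (card_filter_le _ _))
  have b5 := a1.trans (Nat.cast_le.2 ((card_le_card (monotone_filter_right _ fun l hl hs => by
    obtain ⟨e1, e2⟩ := fam_rt hl
    have e3 : ∀ i, dif (rts l) i ≠ 0 := e2.symm ▸ (mem_Reg.1 (mem_filter.1 hl).1).2.2.1
    refine (hP _).1 (rank_mq h _ fun d hd => ?_)
    have r : Rt (d ^ 2 * (abl l).1, d ^ 3 * (abl l).2) (d • rts l) := by
      obtain ⟨a, -, -⟩ := rt_iff.1 e1
      refine rt_iff.2 ⟨?_, ?_, ?_⟩ <;> simp only [abl, Pi.smul_apply, smul_eq_mul, a] <;> ring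
    have := rank_le _ _ r (r.inj_iff.2 fun i => Loc.dif_tw d _ i ▸ mul_ne_zero hd.1.ne_zero (e3 i)) 0 (by
      rw [← hs d (Tw_fin.mem_toFinset.2 hd), ← sel_rt, ← sel_rt (d • rt l)]
      congr 3
      funext i
      rw [Loc.dif_tw, Loc.dif_tw, e2, dif_rt (mem_Reg.1 (mem_filter.1 hl).1).2.1])
    simpa using this)).trans b1.ge))
  rw [← b2] at b3 b4
  push_cast at b3 b4 b5
  rw [le_div_iff₀ (by nlinarith [mul_pos c0 (pow_pos a2 2)])]
  nlinarith

end Pool.Agent.Lib.MP_7cad78_nt.PR
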