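import Pool.Agent.Lib.MP_7cad78_nt.Mom

/-! Joint moments of even ranks determine the probability that all of them vanish. -/

namespace Pool.Agent.Lib.MP_7cad78_nt.PR

open Finset Filter Topology Mo

theorem even_mom {ι : Type} (Ω : ℝ → Finset ι) (v : ℝ → ι → ℝ) (r : ℝ → ι → ℕ) (W : ℝ → ℝ)
    (h : ∀ᶠ R in atTop, ∀ x ∈ Ω R, 0 ≤ v R x ∧ (v R x ≠ 0 → Even (r R x)))
    (hW : ∃ C, ∀ᶠ R in atTop, |W R| ≤ C)
    (H : ∀ k, Tendsto (fun R => ∑ x ∈ Ω R, v R x * inj k (r R x) - W R * 2 ^ (k * (k + 1) / 2))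
      atTop (𝓝 0)) :
    Tendsto (fun R => ∑ x ∈ Ω R, v R x * (if r R x = 0 then 1 else 0) - 2 * law 0 * W R)
      atTop (𝓝 0) := by
  have L : ∀ k, HasSum (fun j => law j * (1 + (-1) ^ j) * inj k j) (2 ^ (k * (k + 1) / 2)) := fun k =>
    hs_congr (by simpa using (law_mom k).add (law_mom_sign k)) fun j => by ring
  have G : ∀ φ ∈ SS, ∃ s, HasSum (fun j => law j * (1 + (-1) ^ j) * φ j) s ∧
      Tendsto (fun R => ∑ x ∈ Ω R, v R x * φ (r R x) - W R * s) atTop (𝓝 0) := by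
    intro φ hφ
    induction hφ using Submodule.span_induction with
    | mem x hx => obtain ⟨k, rfl⟩ := hx; exact ⟨_, L k, H k⟩
    | zero => exact ⟨0, by simp [hasSum_zero], by simp⟩
    | add x y _ _ hx hy =>
      obtain ⟨s, a1, a2⟩ := hx
      obtain ⟨t, b1, b2⟩ := hy
      refine ⟨s + t, hs_congr (a1.add b1) fun n => by simp only [Pi.add_apply]; ring, ?_⟩
      have := a2.add b2
      rw [add_zero] at this
      exact this.congr fun R => by simp only [Pi.add_apply, mul_add, sum_add_distrib]; ring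
    | smul c x _ hx =>
      obtain ⟨s, a1, a2⟩ := hx
      refine ⟨c * s, hs_congr (a1.mul_left c) fun n => by simp only [Pi.smul_apply, smul_eq_mul]; ring, ?_⟩
      have := a2.const_mul c
      rw [mul_zero] at this
      exact this.congr fun R => by
        simp only [Pi.smul_apply, smul_eq_mul, mul_left_comm _ c, ← mul_sum]; ring
  obtain ⟨C, hC⟩ := hW
  have ha := (et_tend 0).mul_const (2 * C)
  rw [zero_mul] at ha
  refine tend_of_approx ha fun n => ?_
  obtain ⟨s, hs, hT⟩ := G _ (ph_mem 0 n)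
  rw [zero_add]
  obtain ⟨M, hM⟩ : ∃ M : ℝ, M = 2 ^ (n * (n + 1) / 2) := ⟨_, rfl⟩
  have he := et_pos 0 n
  have τb : ∀ j, Even j → |ph 0 n j - if j = 0 then 1 else 0| ≤ et 0 n * inj n j := fun j hj => by
    split_ifs with e
    · rw [e, ph_self, sub_self, abs_zero]; exact mul_nonneg he.le (inj_nonneg _ _)
    · simpa using (ph_bound 0 n j (Nat.even_iff.1 hj) e).2
  have hs1 : HasSum (fun j => law j * (1 + (-1) ^ j) * (if j = 0 then 1 else 0)) (2 * law 0) :=
    hs_congr (hasSum_ite_eq 0 (2 * law 0)) fun j => by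
      split_ifs with b1
      · rw [b1]; ring
      · rw [mul_zero]
  have hs3 := (L n).mul_left (et 0 n)
  have b0 : ∀ j, |law j * (1 + (-1) ^ j) * ph 0 n j - law j * (1 + (-1) ^ j) * if j = 0 then 1 else 0| ≤
      et 0 n * (law j * (1 + (-1) ^ j) * inj n j) := fun j => by
    rcases Nat.even_or_odd j with e | e
    · have := law_nonneg j
      rw [← mul_sub, abs_mul, e.neg_one_pow, abs_of_nonneg (by positivity), mul_left_comm (et 0 n)]
      exact mul_le_mul_of_nonneg_left (τb j e) (by positivity)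
    · simp [e.neg_one_pow]
  have hs4 : |s - 2 * law 0| ≤ et 0 n * M := hM ▸ abs_le.2
    ⟨hasSum_le (fun j => (abs_le.1 (b0 j)).1) hs3.neg (hs.sub hs1),
      hasSum_le (fun j => (abs_le.1 (b0 j)).2) (hs.sub hs1) hs3⟩
  have hg := hT.abs.add ((H n).const_mul (et 0 n))
  rw [abs_zero, mul_zero, add_zero, ← hM] at hg
  refine ⟨_, hg, ?_⟩
  filter_upwards [h, hC] with R hR hCR
  have e2 : |∑ x ∈ Ω R, v R x * ph 0 n (r R x) - ∑ x ∈ Ω R, v R x * (if r R x = 0 then 1 else 0)| ≤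
      et 0 n * ∑ x ∈ Ω R, v R x * inj n (r R x) := by
    rw [← sum_sub_distrib, mul_sum]
    refine (abs_sum_le_sum_abs _ _).trans (sum_le_sum fun x hx => ?_)
    by_cases e : v R x = 0
    · simp [e]
    rw [← mul_sub, abs_mul, abs_of_nonneg (hR x hx).1, mul_left_comm]
    exact mul_le_mul_of_nonneg_left (τb _ ((hR x hx).2 e)) (hR x hx).1
  have M0 : 0 ≤ et 0 n * M := (abs_nonneg _).trans hs4
  have e3 : |W R * (s - 2 * law 0)| ≤ C * (et 0 n * M) := by
    rw [abs_mul]; exact mul_le_mul hCR hs4 (abs_nonneg _) ((abs_nonneg _).trans hCR)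
  have e4 := mul_le_mul_of_nonneg_right ((le_abs_self _).trans hCR) M0
  rw [← hM]
  have e5 := le_abs_self (∑ x ∈ Ω R, v R x * ph 0 n (r R x) - W R * s)
  have e6 := neg_abs_le (∑ x ∈ Ω R, v R x * ph 0 n (r R x) - W R * s)
  rw [abs_le] at e2 e3 ⊢
  constructor <;> nlinarith [e2.1, e2.2, e3.1, e3.2]

open Classical in
theorem joint_mom {ι T : Type} [Fintype T] (Ω : ℝ → Finset ι) (v : ℝ → ι → ℝ) (r : ℝ → ι → T → ℕ)
    (W : ℝ → ℝ) (h : ∀ᶠ R in atTop, ∀ x ∈ Ω R, 0 ≤ v R x ∧ (v R x ≠ 0 → ∀ t, Even (r R x t)))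
    (hW : ∃ C, ∀ᶠ R in atTop, |W R| ≤ C)
    (H : ∀ κ : T → ℕ, Tendsto (fun R => ∑ x ∈ Ω R, v R x * ∏ t, inj (κ t) (r R x t) -
      W R * ∏ t, 2 ^ (κ t * (κ t + 1) / 2)) atTop (𝓝 0)) (s : Finset T) :
    ∀ κ : T → ℕ, Tendsto (fun R => ∑ x ∈ Ω R, v R x * (if ∀ t ∈ s, r R x t = 0 then 1 else 0) *
      ∏ t ∈ sᶜ, inj (κ t) (r R x t) - (2 * law 0) ^ #s * W R * ∏ t ∈ sᶜ, 2 ^ (κ t * (κ t + 1) / 2))
      atTop (𝓝 0) := by
  induction s using Finset.induction_on with
  | empty => simpa using H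
  | insert a s ha ih =>
    intro κ
    obtain ⟨C, hC⟩ := hW
    have := even_mom Ω (fun R x => v R x * (if ∀ t ∈ s, r R x t = 0 then 1 else 0) *
      ∏ t ∈ (insert a s)ᶜ, inj (κ t) (r R x t)) (fun R x => r R x a)
      (fun R => (2 * law 0) ^ #s * W R * ∏ t ∈ (insert a s)ᶜ, 2 ^ (κ t * (κ t + 1) / 2))
      (h.mono fun R e x hx => ⟨mul_nonneg (mul_nonneg (e x hx).1 (by positivity))
        (prod_nonneg fun _ _ => inj_nonneg _ _), fun n => (e x hx).2 (fun c => n (by simp [c])) a⟩)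
      ⟨_, hC.mono fun R e => by
        rw [abs_mul, abs_mul]
        exact mul_le_mul_of_nonneg_right (mul_le_mul_of_nonneg_left e (abs_nonneg _)) (abs_nonneg _)⟩
      fun k => (ih (Function.update κ a k)).congr fun R => by
        have e : ∀ g : ℕ → T → ℝ, ∏ t ∈ sᶜ, g (Function.update κ a k t) t =
            (∏ t ∈ (insert a s)ᶜ, g (κ t) t) * g k a := fun g => by
          rw [← prod_erase_mul _ _ (mem_compl.2 ha), compl_insert, Function.update_self,
            prod_congr rfl fun t ht => by rw [Function.update_of_ne (mem_erase.1 ht).1]]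
        simp only [fun x => e fun k t => inj k (r R x t), e fun k _ => 2 ^ (k * (k + 1) / 2), mul_assoc]
    refine this.congr fun R => ?_
    rw [card_insert_of_notMem ha]
    congr 1
    · refine sum_congr rfl fun x _ => ?_
      by_cases e : r R x a = 0 <;> simp [e]
    · ring

end Pool.Agent.Lib.MP_7cad78_nt.PR
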