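import Pool.Agent.Lib.MP_7cad78_nt.Asm2

/-! Most triples have many medium prime factors which are inert in a fixed quadratic field. -/

namespace Pool.Agent.Lib.MP_7cad78_nt.PR

open Finset Filter Topology

lemma theta_sieve {R y ρ : ℝ} (hR : 1 ≤ R) (P : Finset ℕ) (hy : 1 ≤ y) (r0 : 0 ≤ ρ) (r1 : ρ ≤ 1)
    (hP : ∀ p ∈ P, p.Prime ∧ (p : ℝ) ≤ y) {k : ℕ} (hk : 4 * ∑ p ∈ P, 1 / (p : ℝ) ≤ k) :
    ∑ a ∈ Iz R, ρ ^ #(dv P a) ≤
      9 * R * Real.exp (-((1 - ρ) / 2) * ∑ p ∈ P, 1 / (p : ℝ)) + y ^ (k + 1) := by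
  obtain ⟨w, hw⟩ : ∃ w : Finset ℕ → ℝ, ∀ A, w A = (∏ _p ∈ A, (1 - ρ)) * ∏ _p ∈ P \ A, ρ :=
    ⟨_, fun _ => rfl⟩
  have r2 : 0 ≤ 1 - ρ := by linarith
  have w0 : ∀ A, 0 ≤ w A := fun A => by rw [hw]; positivity
  have a1 : ∀ a : ℤ, ρ ^ #(dv P a) =
      ∑ A ∈ P.powerset, w A * if ∀ p ∈ A, ¬ (p : ℤ) ∣ a - 0 then 1 else 0 := fun a => by
    rw [← prod_const, prod_filter, prod_congr rfl (g := fun p : ℕ =>
      (1 - ρ) * (if ¬ (p : ℤ) ∣ a - 0 then 1 else 0) + ρ) fun p _ => by split_ifs <;> simp_all, prod_add]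
    exact sum_congr rfl fun A _ => by rw [hw, prod_mul_distrib, prod_boole]; ring
  have a2 : ∑ A ∈ P.powerset, w A * Real.exp (-∑ p ∈ A, 1 / (p : ℝ)) ≤
      Real.exp (-((1 - ρ) / 2) * ∑ p ∈ P, 1 / (p : ℝ)) := by
    rw [mul_sum, Real.exp_sum, sum_congr rfl (g := fun A : Finset ℕ => (∏ p ∈ A, (1 - ρ) *
      Real.exp (-(1 / (p : ℝ)))) * ∏ _p ∈ P \ A, ρ) fun A _ => by
        rw [hw, prod_mul_distrib, ← sum_neg_distrib, Real.exp_sum]; ring, ← prod_add]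
    refine prod_le_prod (fun _ _ => by positivity) fun p hp => le_trans ?_ (Real.add_one_le_exp _)
    have x1 : 1 / (p : ℝ) ≤ 1 := by
      rw [div_le_one (by exact_mod_cast (hP p hp).1.pos)]; exact_mod_cast (hP p hp).1.pos
    have x0 : 0 ≤ 1 / (p : ℝ) := by positivity
    generalize 1 / (p : ℝ) = x at *
    have : Real.exp (-x) ≤ 1 - x / 2 := by
      rw [Real.exp_neg, inv_le_iff_one_le_mul₀ (Real.exp_pos _)]
      nlinarith [Real.add_one_le_exp x, mul_nonneg x0 (sub_nonneg.2 x1)]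
    nlinarith
  have a3 : ∑ A ∈ P.powerset, w A = 1 := by simp only [hw, ← prod_add]; simp
  simp only [a1]
  rw [sum_comm]
  calc _ ≤ ∑ A ∈ P.powerset, w A * (9 * R * Real.exp (-∑ p ∈ A, 1 / (p : ℝ)) + y ^ (k + 1)) := by
        refine sum_le_sum fun A hA => ?_
        rw [← mul_sum, sum_boole]
        have s := mem_powerset.1 hA
        exact mul_le_mul_of_nonneg_left (brunIz hR A (fun _ => 0) hy (fun p hp => hP p (s hp))
          (le_trans (by gcongr) hk)) (w0 A)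
    _ ≤ _ := by
        simp only [mul_add, sum_add_distrib, mul_left_comm (w _), ← mul_sum, ← sum_mul, a3, one_mul]
        gcongr

lemma theta_ev {D : ℤ} (hD : ¬ IsSquare D) {ρ : ℝ} (r0 : 0 ≤ ρ) (r1 : ρ ≤ 1) : ∀ᶠ R in atTop,
    ∑ a ∈ Iz R, ρ ^ #(dv ((rg (w0 R) (w1 R)).filter fun p => jacobiSym D p = -1) a) ≤
      10 * R * Real.exp (-((1 - ρ) / 20) * lam R) := by
  obtain ⟨C, C1, hC⟩ := TJ_small
  filter_upwards [ev_R, eventually_ge_atTop 1, ev_lam (eventually_ge_atTop (420 + 20 * C)),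
    ev_lam (ev_exp (4 * |(D : ℝ)| + 4) one_pos), ev_lam (ev_pow 1 1 (c := 1 / 4) (by norm_num)),
    ev_lam (ev_gap 3 1 (a := 1 / 2) (b := 1) (by norm_num))] with R ⟨hL, _⟩ hR h2 h3 h4 h5
  set x := lam R with hx
  simp only [one_mul, pow_one] at h3 h4 h5
  have h7 : Real.exp x ≤ w0 R := Real.exp_le_exp.2 h4
  have d0 := abs_nonneg (D : ℝ)
  have le01 : Real.exp (1 / 4 * x) ≤ Real.exp (1 / 2 * x) := Real.exp_le_exp.2 (by linarith)
  have hT := hC (w0 R) (w1 R) D hD (by linarith) (Real.exp_le_exp.2 le01)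
    (le_trans (by linarith) (le_self_pow₀ (a := w0 R) (by linarith) (by norm_num)))
  have a1 := inert_sum (rg (w0 R) (w1 R)) D fun p hp => by
    obtain ⟨b1, b2, -⟩ := (mem_rg (Real.exp_pos _).le).1 hp
    refine ⟨b1, fun e => ?_⟩
    have : (p : ℝ) ≤ |(D : ℝ)| := by
      exact_mod_cast Int.le_of_dvd (abs_pos.2 (by rintro rfl; simp at hD)) ((dvd_abs _ _).2 e)
    linarith
  have a2 := mert_exp (u := Real.exp (1 / 4 * x)) (by linarith) le01
  rw [Real.log_exp, Real.log_exp] at a2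
  have a3 : 42 / Real.exp (1 / 4 * x) ≤ 21 := by rw [div_le_iff₀ (by linarith)]; linarith
  obtain ⟨a4, a5⟩ := abs_le.1 (a2.trans a3)
  have a6 := theta_sieve hR ((rg (w0 R) (w1 R)).filter fun p => jacobiSym D p = -1) (y := w1 R)
    (Real.one_le_exp (Real.exp_pos _).le) r0 r1 (fun p hp => by
      have := (mem_rg (Real.exp_pos _).le).1 (mem_filter.1 hp).1
      exact ⟨this.1, this.2.2⟩) (k := ⌈x + 84⌉₊) (by
      have := sum_le_sum_of_subset_of_nonneg (f := fun p : ℕ => 1 / (p : ℝ)) (filter_subset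
        (fun p => jacobiSym D p = -1) (rg (w0 R) (w1 R))) fun _ _ _ => by positivity
      have := Nat.le_ceil (x + 84)
      unfold w0 w1 at *
      linarith)
  have a7 : w1 R ^ (⌈x + 84⌉₊ + 1) ≤ R * Real.exp (-x) := by
    rw [w1, ← Real.exp_nat_mul, ← Real.exp_log (show 0 < R by linarith), ← Real.exp_add,
      Real.exp_log (show 0 < R by linarith), Real.exp_le_exp, hL, ← hx]
    have := Nat.ceil_lt_add_one (show 0 ≤ x + 84 by linarith)
    push_cast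
    nlinarith [Real.add_one_le_exp (1 / 2 * x)]
  have a8 : Real.exp (-x) ≤ Real.exp (-((1 - ρ) / 20) * x) := Real.exp_le_exp.2 (by nlinarith)
  have a9 : Real.exp (-((1 - ρ) / 2) * ∑ p ∈ rg (w0 R) (w1 R) with jacobiSym D p = -1, 1 / (p : ℝ)) ≤
      Real.exp (-((1 - ρ) / 20) * x) := Real.exp_le_exp.2 (by
    have : x / 10 ≤ ∑ p ∈ rg (w0 R) (w1 R) with jacobiSym D p = -1, 1 / (p : ℝ) := by
      unfold w0 w1 at *
      linarith
    nlinarith)
  nlinarith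

lemma sep_tend {z K M : ℕ} {l₀ : Fin 3 → ℤ} {D : ℤ} (hD : ¬ IsSquare D) (A : ℝ) {ρ : ℝ} (r0 : 0 ≤ ρ)
    (r1 : ρ < 1) : Tendsto (fun R => ∑ l ∈ LL z K M R l₀, ww R l * (Real.exp (A * tt R) *
      ρ ^ #{p : Pr z l | (p : ℕ) ∈ med R ∧ jacobiSym D p = -1})) atTop (𝓝 0) := by
  obtain ⟨c, hc⟩ : ∃ c, c = (1 - ρ) / 20 := ⟨_, rfl⟩
  have c0 : 0 < c := by linarith
  refine tend0 fun ε hε => ?_
  filter_upwards [ev_base z, ww_sum, theta_ev hD r0 r1.le, ev_lam (ev_pow 4 1 (half_pos c0)), ev_sub,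
    ev_tt A (half_pos c0) (show 0 < ε / 20 by positivity)]
    with R ⟨⟨a1, a2, a3⟩, ⟨a4, a5, a6⟩, a7, a8⟩ ⟨b1, _⟩ b2 b3 ⟨b5, _⟩ b4
  obtain ⟨Y, hY⟩ : ∃ Y, Y = Real.exp (c / 2 * lam R) / R ^ 2 * Real.exp (A * tt R) := ⟨_, rfl⟩
  have Y0 : 0 ≤ Y := by rw [hY]; positivity
  rw [← hc] at b2
  generalize hP : ((rg (w0 R) (w1 R)).filter fun p => jacobiSym D p = -1) = P at b2
  rw [abs_of_nonneg (sum_nonneg fun l _ => mul_nonneg (b1 l) (by positivity))]
  refine (sum_le_sum (g := fun l => Y * ρ ^ #(dv P (l 0))) fun l hl => ?_).trans ?_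
  · obtain ⟨d1, d2⟩ := LL_good hl
    rw [hY, ww, ← mul_assoc]
    refine mul_le_mul (mul_le_mul_of_nonneg_right (div_le_div₀ (by positivity)
      ((nA_le a1 a2 a3 d1 d2).trans (le_trans ?_ b3)) (by positivity) (by nlinarith [sq_nonneg R]))
      (by positivity)) (pow_le_pow_of_le_one r0 r1.le ?_) (by positivity) (by positivity)
    · calc _ ≤ lam R * lam R ^ 3 := by gcongr <;> linarith
        _ = _ := by ring
    rw [← card_image_of_injective _ Subtype.val_injective]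
    refine card_le_card fun p hp => ?_
    obtain ⟨e1, e2⟩ := mem_filter.1 hp
    rw [← hP] at e1
    have e3 := b5 (mem_filter.1 e1).1
    obtain ⟨e4, e5, -⟩ := mem_med.1 e3
    exact mem_image.2 ⟨⟨p, ((mem_Pr d1.1 d2).1 ((mem_Sp (d2 0)).2 ⟨e4, e2, by
      exact_mod_cast a1.trans_lt e5⟩)).1⟩, mem_filter.2 ⟨mem_univ _, e3, (mem_filter.1 e1).2⟩, rfl⟩
  · rw [← mul_sum]
    refine (mul_le_mul_of_nonneg_left (((sum_le_sum_of_subset_of_nonneg LL_sub fun _ _ _ => by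
      positivity).trans (sum_one a8.le 0 (fun a => ρ ^ #(dv P a)) fun _ => by positivity)).trans
      (mul_le_mul_of_nonneg_left b2 (by positivity))) Y0).trans
      (le_trans (le_of_eq ?_) ((le_div_iff₀' (by norm_num)).1 b4))
    rw [hY, show A * tt R - c / 2 * lam R = -c * lam R + c / 2 * lam R + A * tt R by ring,
      Real.exp_add, Real.exp_add]
    field_simp
    norm_num

end Pool.Agent.Lib.MP_7cad78_nt.PR
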