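import Pool.Agent.Lib.MP_7cad78_nt.J.A1

/-! The change of parity between two twists. -/

namespace Pool.Agent.Lib.MP_7cad78_nt.PR

open Finset

set_option linter.unusedSectionVars false

namespace JD

variable {Γ V P T : Type} [AddCommGroup Γ] [Module F Γ] [Fintype Γ] [AddCommGroup V] [Module F V]
  [DecidableEq V] [Fintype P] [DecidableEq P] {J : JD Γ V P T}

theorem par2 (h : ∀ t, (J.D t).Ok) (t t' : T) (C : V → Prop) (q : V → F)
    (c1 : ∀ u v, C u → C v → C (u + v)) (c2 : ∀ g, C (J.r0 g)) (c3 : ∀ s, ∀ w ∈ J.W s, C w ∧ q w = 0)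
    (c4 : ∀ s v, C v → (∀ w ∈ J.W s, J.B v w = 0) → v ∈ J.W s)
    (c5 : ∀ u v, q (u + v) = q u + q v + J.B u v) (c6 : ∀ g, q (J.r0 g) = ∑ p, J.a p g) {n : ℕ}
    (c7 : #(J.W t) = 2 ^ n * #(J.W t ∩ J.W t')) (c8 : (n : F) = ∑ p, (J.b t p + J.b t' p)) :
    sgn 1 #(J.D t).S = sgn 1 #(J.D t').S := by
  classical
  have B1 : ∀ u v w, J.B (u + v) w = J.B u w + J.B v w := (h t).B_add
  have B2 : ∀ u v w, J.B u (v + w) = J.B u v + J.B u w := (h t).B_add'
  have B3 : ∀ u v, J.B u v = J.B v u := (h t).B_symm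
  have B0 : ∀ u, J.B u 0 = 0 := (h t).B_zero
  have ra : ∀ g g', J.r0 (g + g') = J.r0 g + J.r0 g' := (h t).r0_add
  have ri : Function.Injective J.r0 := (h t).r0_inj
  have rz : J.r0 0 = 0 := by simpa [add_me] using ra 0 0
  have rr : ∀ g g', J.B (J.r0 g) (J.r0 g') = 0 := fun g g' => by
    simpa [SD.r_g] using! (h t).rec' (g, 0) (g', 0)
  have iso : ∀ s, ∀ u ∈ J.W s, ∀ v ∈ J.W s, J.B u v = 0 := fun s => (h s).iso
  have sW : ∀ s, Sub (J.W s) := fun s => (h s).subW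
  have cW : ∀ s, #(J.W s) = Fintype.card Γ := fun s => (h s).card
  have lA : ∀ w ∈ J.W t', (∀ g, J.B (J.r0 g) w = 0) → ∃ g, J.r0 g = w := fun w => (h t').lemA
  have mz : ∀ s g, g ∈ gz J.r0 (J.W s) ↔ J.r0 g ∈ J.W s := fun s g => by simp [gz]
  obtain ⟨M, hM⟩ : ∃ M : Finset (Γ × V), ∀ x, x ∈ M ↔ x.2 ∈ J.W t ∧ J.r0 x.1 + x.2 ∈ J.W t' :=
    ⟨(univ ×ˢ J.W t).filter fun x => J.r0 x.1 + x.2 ∈ J.W t', by simp⟩
  have sM : Sub M := ⟨by simp [hM, rz, (sW _).zero], fun a ha b hb => (hM _).2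
    ⟨(sW t).add _ ((hM a).1 ha).1 _ ((hM b).1 hb).1, by
      rw [Prod.fst_add, Prod.snd_add, ra, add_add_add_comm]
      exact (sW t').add _ ((hM a).1 ha).2 _ ((hM b).1 hb).2⟩⟩
  have sH : Sub ((univ : Finset Γ) ×ˢ J.W t) := ⟨by simp [(sW t).zero], fun a ha b hb => by
    simp only [mem_product, mem_univ, true_and] at *
    exact (sW t).add _ ha _ hb⟩
  have sy : ∀ a ∈ M, ∀ b ∈ M, J.B a.2 (J.r0 b.1) = J.B b.2 (J.r0 a.1) := fun a ha b hb => by
    have := iso t' _ ((hM a).1 ha).2 _ ((hM b).1 hb).2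
    rw [B1, B2, B2, rr, iso t _ ((hM a).1 ha).1 _ ((hM b).1 hb).1, B3 (J.r0 _)] at this
    linear_combination this - Fadd (J.B b.2 (J.r0 a.1))
  obtain ⟨c, hc, e1⟩ := (h t).exists_one
  obtain ⟨c', hc', e2⟩ := (h t').exists_one
  have e3 : c' = (c.1 + c'.1, 0) + c := Prod.ext (by simp [add_right_comm, add_me]) (by simp [e1, e2])
  have lg : ∀ g p, (J.D t).la (g, 0) p = J.a p g := fun g p => by simp [SD.la, D]
  have e4 : ∀ g, J.B ((J.D t).r c) (J.r0 g) = ∑ p, J.a p g := fun g => by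
    simpa [SD.r_g, e1, dot, lg] using! (h t).rec' c (g, 0)
  have mc : (c.1 + c'.1, (J.D t).r c) ∈ M := (hM _).2 ⟨SD.mem_H.1 hc, by
    have := SD.mem_H.1 hc'
    rwa [e3, (h t').r_add, SD.r_g] at this⟩
  obtain ⟨n', p1, p2⟩ := parity M sM (fun a b => J.B a.2 (J.r0 b.1)) _ (fun _ _ _ _ _ _ => B1 _ _ _) sy mc
    fun a ha => by
      have := c5 (J.r0 a.1) a.2
      rw [(c3 _ _ ((hM a).1 ha).1).2, (c3 _ _ ((hM a).1 ha).2).2, c6, B3] at this
      rw [sy a ha _ mc, e4]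
      grind
  obtain ⟨A, hA, p1⟩ : ∃ A : Finset _, (∀ a, a ∈ A ↔ a ∈ M ∧ ∀ b ∈ M, J.B a.2 (J.r0 b.1) = 0) ∧
      #M = 2 ^ n' * #A := ⟨_, fun d => mem_filter, by convert p1⟩
  have d1 := dual' (A := M) (C := (gz J.r0 (J.W t) ∩ gz J.r0 (J.W t')).image J.r0) sH (sW t')
    (fun x w => J.B (J.r0 x.1 + x.2) w)
    (fun a a' w => by rw [Prod.fst_add, Prod.snd_add, ra, add_add_add_comm, B1]) (fun _ _ _ => B2 _ _ _)
    (fun a => by
      simp only [hM, mem_product, mem_univ, true_and]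
      exact and_congr_right fun ha => ⟨fun e => iso _ _ e, c4 _ _ (c1 _ _ (c2 _) (c3 _ _ ha).1)⟩)
    fun w => by
      simp only [mem_image, mem_inter, mz, mem_product, mem_univ, true_and, Prod.forall, B1]
      refine ⟨?_, fun ⟨a, b⟩ => ?_⟩
      · rintro ⟨g, ⟨a, b⟩, rfl⟩
        exact ⟨b, fun g' w hw => by rw [rr, iso _ _ hw _ a, add_zero]⟩
      · obtain ⟨g, rfl⟩ := lA w a fun g => by simpa [B3 0, B0] using b g 0 (sW t).zero
        exact ⟨g, ⟨c4 _ _ (c2 _) fun w hw => by simpa [rr, B3 w] using b 0 w hw, a⟩, rfl⟩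
  have d2 := dual' (A := A) (C := ((J.W t ∩ J.W t') ×ˢ gz J.r0 (J.W t) ×ˢ gz J.r0 (J.W t')).image
    fun x => (J.r0 x.2.2, x.2.1 + x.2.2, x.1 + J.r0 x.2.1)) (Ω := J.W t' ×ˢ M) sH
    ⟨by simp [(sW _).zero, sM.zero], fun a ha b hb => by
      simp only [mem_product] at *
      exact ⟨(sW t').add _ ha.1 _ hb.1, sM.add _ ha.2 _ hb.2⟩⟩
    (fun x w => J.B (J.r0 x.1 + x.2) w.1 + J.B x.2 (J.r0 w.2.1))
    (fun a a' w => by simp only [Prod.fst_add, Prod.snd_add, ra, B1]; ring)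
    (fun a a' w => by simp only [Prod.fst_add, Prod.snd_add, ra, B2]; ring)
    (fun a => by
      simp only [hA, hM a, mem_product, mem_univ, true_and, and_assoc]
      refine and_congr_right fun ha => ⟨fun e w hw => by rw [iso _ _ e.1 _ hw.1, e.2 _ hw.2, add_zero],
        fun e => ⟨c4 _ _ (c1 _ _ (c2 _) (c3 _ _ ha).1) fun w hw => ?_, fun b hb => ?_⟩⟩
      · simpa [rz, B0] using e (w, 0) ⟨hw, sM.zero⟩
      · simpa [B0] using e (0, b) ⟨(sW _).zero, hb⟩)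
    fun ⟨w, g, v⟩ => by
      simp only [mem_image, mem_inter, mz, mem_product, mem_univ, true_and, Prod.forall, B1, hM,
        Prod.exists, Prod.mk.injEq]
      refine ⟨?_, fun ⟨⟨a1, a2, a3⟩, b⟩ => ?_⟩
      · rintro ⟨a, g1, g2, ⟨⟨a1, a2⟩, a3, a4⟩, rfl, rfl, rfl⟩
        refine ⟨⟨a4, (sW t).add _ a1 _ a3, ?_⟩, fun g' w hw => ?_⟩
        · rw [ra, add_comm a, add_comm (J.r0 g1), add_assoc, ← add_assoc (J.r0 g1), add_me, zero_add]
          exact (sW t').add _ a4 _ a2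
        · rw [rr, ra, B2, iso _ _ hw _ a3]; simp [Fadd]
      · obtain ⟨g2, rfl⟩ := lA w a1 fun g => by simpa [B3 0, B0] using b g 0 (sW t).zero
        have a4 : J.r0 (g + g2) ∈ J.W t := c4 _ _ (c2 _) fun w hw => by
          simpa [rr, ra, B1, B3 w, add_comm] using b 0 w hw
        refine ⟨v + J.r0 (g + g2), g + g2, g2, ⟨⟨(sW t).add _ a2 _ a4, ?_⟩, a4, a1⟩, rfl, add_add_me _ _,
          add_add_me _ _⟩
        rw [ra, ← add_assoc, add_comm v]
        exact (sW t').add _ a3 _ a1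
  rw [card_image_of_injective _ ri, card_product, card_univ, cW, cW, mul_comm #M, mul_assoc,
    mul_right_inj' Fintype.card_ne_zero] at d1
  rw [card_image_of_injective _ fun x y e => by
      simp only [Prod.mk.injEq] at e
      have a := ri e.1
      have b : x.2.1 = y.2.1 := add_right_cancel (a ▸ e.2.1)
      exact Prod.ext (add_right_cancel (b ▸ e.2.2)) (Prod.ext b a),
    card_product, card_product, card_product, card_product, card_univ, cW, cW, d1] at d2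
  obtain ⟨i, hi⟩ := Sub.pow (H := gz J.r0 (J.W t) ∩ gz J.r0 (J.W t'))
    ⟨mem_inter.2 ⟨(h t).subZ.zero, (h t').subZ.zero⟩, fun a ha b hb => mem_inter.2
      ⟨(h t).subZ.add _ (mem_inter.1 ha).1 _ (mem_inter.1 hb).1,
        (h t').subZ.add _ (mem_inter.1 ha).2 _ (mem_inter.1 hb).2⟩⟩
  obtain ⟨z, hz⟩ : ∃ z, #(gz J.r0 (J.W t)) = 2 ^ z := (h t).subZ.pow
  obtain ⟨z', hz'⟩ : ∃ z, #(gz J.r0 (J.W t')) = 2 ^ z := (h t').subZ.pow
  have e5 : n + i + i = n' + z + z' := by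
    have p0 : 0 < #(J.W t ∩ J.W t') := card_pos.2 ⟨0, mem_inter.2 ⟨(sW _).zero, (sW _).zero⟩⟩
    rw [← mul_assoc (Fintype.card Γ), mul_left_comm, mul_right_inj' (by positivity), hi, hz, hz'] at d2
    rw [p1, hi, ← cW t, c7] at d1
    refine Nat.pow_right_injective le_rfl (Nat.eq_of_mul_eq_mul_left p0 ?_)
    simp only [pow_add]
    linear_combination 2 ^ n' * d2 + 2 ^ i * d1.symm
  have e6 := congrArg (Nat.cast : ℕ → F) e5
  push_cast at e6
  rw [sgn, sgn, if_neg one_ne_zero, if_neg one_ne_zero, (h t).par hc e1, (h t').par hc' e2]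
  change (-1) ^ Nat.log 2 #(gz J.r0 (J.W t)) * _ = (-1) ^ Nat.log 2 #(gz J.r0 (J.W t')) * _
  have e7 : ∀ p, (J.D t').la c' p = J.a p (c.1 + c'.1) + (J.D t).la c p + (J.b t p + J.b t' p) :=
    fun p => by
      rw [J.la_tw t' t, e2, Pi.one_apply, one_mul, add_comm (J.b t' p), ← lg,
        ← Pi.add_apply ((J.D t).la _) _ p, ← (h t).la_add, ← e3]
  rw [hz, hz', Nat.log_pow one_lt_two, Nat.log_pow one_lt_two, ← sg_cast, ← sg_cast, ← sg_add, ← sg_add]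
  simp only [e4] at p2
  simp only [e7, sum_add_distrib] at c8 ⊢
  congr 1
  linear_combination c8 + p2 - e6 + Fadd (i : F) - Fadd (z' : F) - Fadd (n' : F)

end JD

end Pool.Agent.Lib.MP_7cad78_nt.PR
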