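import Pool.Agent.Lib.MP_7cad78_nt.Loc

/-! Local indices between a curve with good reduction at the small primes and its twists. -/

namespace Pool.Agent.Lib.MP_7cad78_nt.PR.Loc

open Finset Function

set_option synthInstance.maxSize 2000

variable {z K : ℕ} {e l : Fin 3 → ℤ} {v : Option ℕ} {q j m : ℕ} {a u d : ℤ}

lemma gens_mem (hj : j < 2) (hm : j < m) (ha : ¬ (2 : ℤ) ∣ a) (hu : ¬ (2 : ℤ) ∣ u)
    (he : Injective e) (h0 : e 0 = 2 ^ j * a) (h1 : e 1 = 0) (h2 : e 2 = 2 ^ m * u) :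
    ∀ x ∈ gens j (min m 6) m a u, InW (some 2) e x := fun x hx => by
  have hv : IsPl (some 2) := Nat.prime_two
  simp only [gens, List.mem_cons, List.mem_filter, List.mem_map, decide_eq_true_eq] at hx
  obtain rfl | rfl | ⟨⟨q, ⟨hq, q1, q2⟩, rfl⟩, hs⟩ := hx
  · refine InW.of_tor hv he 0 (by simp [add_assoc (c8 j a + _), CC]) ?_ ?_
    · simpa [h0, h1] using (c8_spec ha j).2.symm
    · rw [sb_min (by omega)]; simpa [h0, h2] using (sb_spec hm.ne ha hu).2.symm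
  · refine InW.of_tor hv he 1 (by simp [← add_assoc, CC]) ?_ ?_
    · simpa [h1, h2] using (c8_spec (s := -u) (by omega) m).2.symm
    · simpa [h0, h1] using (c8_spec (s := -a) (by omega) j).2.symm
  · obtain ⟨k, s, o⟩ := q
    have : ∀ q ∈ cand, q.1 ≤ 3 ∧ ¬ (2 : ℤ) ∣ q.2.1 := by decide
    obtain ⟨c1, c2⟩ := this _ hq
    dsimp only at q1 q2 c1 c2
    have b0 := sb_spec q1 c2 ha
    have b1 := c8_spec c2 k
    have b2 := sb_spec (show k ≠ m + 2 * o by omega) c2 hu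
    rw [show 2 ^ (j + 2 * o) * a = e 0 * (2 ^ o) ^ 2 by rw [h0]; ring] at b0
    rw [show 2 ^ k * s = 2 ^ k * s - e 1 * (2 ^ o) ^ 2 by rw [h1]; ring] at b1
    rw [show 2 ^ (m + 2 * o) * u = e 2 * (2 ^ o) ^ 2 by rw [h2]; ring, ← sb_min c1] at b2
    refine InW.pt (t := 2 ^ k * s) (w := 2 ^ o) (by positivity) (fun i => ?_) (fun i => ?_) hs <;>
      fin_cases i
    exacts [b0.1, b1.1, b2.1, b0.2.symm, b1.2.symm, b2.2.symm]

/-- the local image at two of the twist by 2 ^ j s -/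
def Pp (j : ℕ) (s : ZMod 8) : Finset (C3 × C3) :=
  univ.filter fun y => ∀ g ∈ gens j (j + 4) (j + 4 : ℕ) (-s) s, BB 0 (x3 y) g = 0

lemma Pp_card : ∀ (j : Fin 2) (s : ZMod 8), Od s → #(Pp j s) = 8 ∧
    (#(Pp 0 1 ∩ Pp j s) = 8 ∨ #(Pp 0 1 ∩ Pp j s) = 2) := by decide +kernel

/-- good reduction at the small primes, with the conductor in a fixed class -/
structure Nice (z : ℕ) (l : Fin 3 → ℤ) : Prop where
  s0 : l 0 < 0
  s1 : 0 < l 1
  s2 : 0 < l 2
  odd : ∀ q : ℕ, q.Prime → q ≠ 2 → q ≤ z → (q : ℤ) ∣ l 0 + 2 ∧ (q : ℤ) ∣ l 1 + 2 ∧ (q : ℤ) ∣ l 2 - 4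
  two0 : (128 : ℤ) ∣ l 0 + 16
  two2 : (8 : ℤ) ∣ l 2 + 1

lemma tw_inj (he : Injective e) (hd : d ≠ 0) : Injective (d • e) := fun _ _ h =>
  he (mul_left_cancel₀ hd h)

lemma dif_tw (d : ℤ) (e : Fin 3 → ℤ) (i : Fin 3) : dif (d • e) i = d * dif e i := by
  simp [dif, mul_sub]

lemma W2_two (he : Injective e) (h : Nice z (dif e)) (hj : j < 2) (ha : ¬ (2 : ℤ) ∣ a) :
    W2 (some 2) ((2 ^ j * a) • e) = Pp j a := by
  have hv : IsPl (some 2) := Nat.prime_two
  have h0 : 2 ^ j * a ≠ 0 := (c8_spec ha j).1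
  have he' := tw_inj he h0
  obtain ⟨x, hx⟩ := h.two0
  obtain ⟨y, hy⟩ := h.two2
  change e 0 - e 1 + 1 = _ at hy
  change e 1 - e 2 + 16 = _ at hx
  have := gens_mem (e := fun i => ((2 ^ j * a) • e) i - ((2 ^ j * a) • e) 1) (m := j + 4)
    (a := a * (8 * y - 1)) (u := a * (1 - 8 * x)) hj (by omega)
    (nd_mul Nat.prime_two ha (show ¬ (2 : ℤ) ∣ _ by omega))
    (nd_mul Nat.prime_two ha (show ¬ (2 : ℤ) ∣ _ by omega)) (fun _ _ h => he' (sub_left_injective h))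
    (by simp only [Pi.smul_apply, smul_eq_mul]
        linear_combination 2 ^ j * a * hy) (sub_self _)
    (by simp only [Pi.smul_apply, smul_eq_mul]
        linear_combination -2 ^ j * a * hx)
  have e8 : (8 : ZMod 8) = 0 := rfl
  rw [min_eq_left (by omega)] at this
  push_cast at this
  simp only [e8, zero_mul, zero_sub, sub_zero, mul_one, mul_neg] at this
  refine eq_of_subset_of_card_le (fun w hw => ?_) ?_
  · rw [Pp, mem_filter_univ]
    push_cast
    intro g hg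
    have a1 := this g hg
    rw [← show eta (some 2) = 0 from rfl]
    exact (mem_W2.1 hw).iso hv he' (a1.aff hv
      (fun _ _ h => he' (sub_left_injective h)) (c := ((2 ^ j * a) • e) 1) one_ne_zero fun i => by ring)
  · rw [((big hv he').max hv he').1, (Pp_card ⟨j, hj⟩ a (od ha)).1]
    rfl

lemma Nice.nd (h : Nice z l) (hq : q.Prime) (h2 : q ≠ 2) (hz : q ≤ z) (i : Fin 3) : ¬ (q : ℤ) ∣ l i := by
  obtain ⟨a, b, c⟩ := h.odd q hq h2 hz
  have n : ¬ (q : ℤ) ∣ 2 := nd_prime hq Nat.prime_two h2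
  fin_cases i
  · exact fun e => n ((dvd_add_right e).1 a)
  · exact fun e => n ((dvd_add_right e).1 b)
  · exact fun e => nd_mul hq n n (by simpa using dvd_sub e c)

lemma W2_TC {y} (hy : y ∈ W2 v e) : TC (kind v) y.1 ∧ TC (kind v) y.2 := by
  obtain h | ⟨t, w, -, h⟩ := (mem_W2.1 hy).2
  · have h0 : y.1 = 0 := congrFun h 0
    have h1 : y.2 = 0 := congrFun h 1
    simp [h0, h1, TC]
  · exact ⟨(show y.1 = _ from h 0) ▸ cl_TC _ _, (show y.2 = _ from h 1) ▸ cl_TC _ _⟩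

lemma idx (he : Injective e) (h : Nice z (dif e)) (hd : Squarefree d) (u : Pl z) :
    ∃ n : ℕ, #(W2 (p0 z u) e) = 2 ^ n * #(W2 (p0 z u) e ∩ W2 (p0 z u) (d • e)) ∧
      (n : F) = Hi (p0 z u) d (dif e 0 * dif e 1 * dif e 2) := by
  have d0 := hd.ne_zero
  have he' := tw_inj he d0
  have hv := p0_pl u
  have c := ((big hv he).max hv he).1
  have l0 := dif_ne he
  have triv : (∀ y ∈ W2 (p0 z u) e, y ∈ W2 (p0 z u) (d • e) → y = 0) →
      #(W2 (p0 z u) e ∩ W2 (p0 z u) (d • e)) = 1 := fun e => card_eq_one.2 ⟨0,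
    eq_singleton_iff_unique_mem.2 ⟨mem_inter.2 ⟨W2_zero, W2_zero⟩, fun y hy =>
      e y (mem_inter.1 hy).1 (mem_inter.1 hy).2⟩⟩
  obtain _ | ⟨p, hp⟩ := u
  · have s0 := h.s0
    have s1 := h.s1
    have s2 := h.s2
    have n : dif e 0 * dif e 1 * dif e 2 < 0 := mul_neg_of_neg_of_pos (mul_neg_of_neg_of_pos s0 s1) s2
    rcases d0.lt_or_gt with d1 | d1
    · refine ⟨1, ?_, by simp [Hi, p0, cl, hs, n, d1]⟩
      rw [c, triv fun y h1 h2 => ?_]
      · rfl
      have a1 := (mem_W2.1 h1).iso hv he (tor_mem hv he 0)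
      have a2 := (mem_W2.1 h2).iso hv he' (tor_mem hv he' 0)
      obtain ⟨t1, t2⟩ := W2_TC h1
      have b1 : cc e 0 < 0 := by rw [cc_eq]; exact neg_neg_of_pos (mul_pos s1 s2)
      have b2 : cc (d • e) 0 < 0 := by
        rw [cc_eq, dif_tw, dif_tw]
        exact neg_neg_of_pos (mul_pos_of_neg_of_neg (mul_neg_of_neg_of_pos d1 s1)
          (mul_neg_of_neg_of_pos d1 s2))
      have b3 : ¬ e 0 - e 1 < 0 := s2.not_gt
      have b4 : (d • e) 0 - (d • e) 1 < 0 := (dif_tw d e 2).trans_lt (mul_neg_of_neg_of_pos d1 s2)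
      simp only [BB, tor, dz_self, dz_ne' he zero_ne_one, dz_ne' he' zero_ne_one, p0, Option.map_none,
        cl, b1, b2, b3, b4, if_true, if_false, eta] at a1 a2 t1 t2
      clear h1 h2
      revert y
      decide
    · rw [← W2_eq hv he he' fun x hx => hx.real he he' fun i j => (mul_lt_mul_iff_right₀ d1).symm,
        inter_self]
      exact ⟨0, by simp, by simp [Hi, p0, cl, hs, d1.not_gt]⟩
  obtain ⟨p1, p2⟩ := Nat.mem_primesLE.1 hp
  change IsPl (some p) at hv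
  simp only [p0, Option.map_some] at c triv ⊢
  by_cases h2 : p = 2
  · subst h2
    obtain ⟨x, hx⟩ := h.two0
    obtain ⟨y, hy⟩ := h.two2
    have hs := dif_sum e 0
    have z0 : cl (some 2) (dif e 0 * dif e 1 * dif e 2) = 0 := by
      rw [← cl_sq hv (a := 4) (by norm_num)]
      refine (cl_near3 (k := 4) p2 (by norm_num) ⟨x * dif e 1 * dif e 2 + y * (8 * y - 2) +
        (16 * x - 2) * (8 * y - 1), ?_⟩).2
      simp only [zero_add] at hs
      rw [show dif e 1 = 17 - 128 * x - 8 * y by linarith, show dif e 0 = 128 * x - 16 by linarith,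
        show dif e 2 = 8 * y - 1 by linarith]
      push_cast
      ring
    obtain ⟨j, a, ha, rfl⟩ := dec p2 d0
    have hj : j < 2 := not_le.1 fun n => sqf_nd hd p2 ((pow_dvd_pow _ n).mul_right _)
    have w1 := W2_two (a := 1) he h two_pos (by norm_num)
    rw [pow_zero, one_mul, one_smul, Int.cast_one] at w1
    rw [Hi, z0, hs_zr, c, w1]
    erw [W2_two he h hj ha]
    rcases (Pp_card ⟨j, hj⟩ a (od ha)).2 with e | e
    · exact ⟨0, by erw [e]; rfl, rfl⟩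
    · exact ⟨2, by erw [e]; rfl, rfl⟩
  have g := h.nd p2 h2 p1
  have z0 : cl (some p) (dif e 0 * dif e 1 * dif e 2) = 0 := by
    obtain ⟨⟨x, hx⟩, ⟨y, hy⟩, ⟨w, hw⟩⟩ := h.odd p p2 h2 p1
    have n : ¬ (p : ℤ) ∣ 2 := nd_prime p2 Nat.prime_two h2
    rw [← cl_sq hv (a := 4) (by norm_num)]
    refine (cl_cong p2 h2 (by simpa using nd_mul p2 (nd_mul p2 n n) (nd_mul p2 n n))
      ⟨x * dif e 1 * dif e 2 - 2 * y * dif e 2 + 4 * w, ?_⟩).2
    linear_combination dif e 1 * dif e 2 * hx - 2 * dif e 2 * hy + 4 * hw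
  have md : ∀ {e x}, InW (some p) e x → ∀ i, (x i).2.1 = 0 := fun {e x} hx i => by
    obtain rfl | ⟨t, w, -, h⟩ := hx.2
    exacts [rfl, h i ▸ mid_odd h2 _]
  rw [Hi, z0, hs_zr]
  by_cases pd : (p : ℤ) ∣ d
  · refine ⟨2, ?_, rfl⟩
    rw [c, triv fun y h1 h3 => ?_, kind, if_neg h2]
    · rfl
    have a0 := (InW_good p2 h2 he g (md (mem_W2.1 h1)) (mem_W2.1 h1).1).1 (mem_W2.1 h1)
    have a1 := (mem_W2.1 h3).iso hv he' (tor_mem hv he' 0)
    have a2 := (mem_W2.1 h3).iso hv he' (tor_mem hv he' 1)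
    have vd : ∀ i, (cl (some p) (dif (d • e) i)).1 = 1 := fun i => by
      rw [dif_tw, cl_mul hv d0 (l0 i), Prod.fst_add, val_one p2 (sqf_nd hd p2), if_pos pd,
        cl_odd p2 h2 (g i), add_zero]
    have vn : ∀ a, a ≠ 0 → (cl (some p) (-a)).1 = (cl (some p) a).1 := fun a ha => by
      rw [cl_neg hv ha, cl_neg_one p2 h2, Prod.fst_add, zero_add]
    have vc : ∀ i, (cl (some p) (cc (d • e) i)).1 = 0 := fun i => by
      rw [cc_eq, vn _ (mul_ne_zero (dif_ne he' _) (dif_ne he' _)),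
        cl_mul hv (dif_ne he' _) (dif_ne he' _), Prod.fst_add, vd, vd, FF]
    have b1 : (cl (some p) ((d • e) 0 - (d • e) 1)).1 = 1 := vd 2
    have b2 : (cl (some p) ((d • e) 1 - (d • e) 0)).1 = 1 := by
      rw [← neg_sub]; exact (vn _ (s1 he' 0)).trans b1
    have m0 := md (mem_W2.1 h1)
    simp only [BB, tor, dz_self, dz_ne' he' zero_ne_one, dz_ne' he' one_ne_zero, hs, a0, m0, b1, b2, vc,
      mul_zero, zero_mul, zero_add, add_zero, one_mul] at a1 a2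
    exact Prod.ext (Prod.ext (a0 0) (Prod.ext (m0 0) a1)) (Prod.ext (a0 1) (Prod.ext (m0 1) a2))
  · rw [← W2_eq hv he he' fun x hx => (InW_good p2 h2 he' (fun i => dif_tw d e i ▸ nd_mul p2 pd (g i))
      (md hx) hx.1).2 ((InW_good p2 h2 he g (md hx) hx.1).1 hx), inter_self]
    exact ⟨0, by simp, rfl⟩

end Pool.Agent.Lib.MP_7cad78_nt.PR.Loc
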