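import Pool.Agent.Lib.MP_7cad78_nt.J.S1

/-! All twists have a trivial Selmer group with positive probability. -/

namespace Pool.Agent.Lib.MP_7cad78_nt.PR

open Finset Filter Topology

set_option linter.unusedSectionVars false

lemma pow_le_inj (n r : ℕ) : ((2 : ℝ) ^ r) ^ n ≤ 2 ^ n * inj n r + 2 ^ (n * n) := by
  rcases le_or_gt n r with h | h
  · refine le_add_of_le_of_nonneg ?_ (by positivity)
    rw [inj, ← card_range n, ← prod_const, ← prod_const, card_range, ← prod_mul_distrib]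
    refine prod_le_prod (fun _ _ => by positivity) fun i hi => ?_
    have : (2 : ℝ) ^ (i + 1) ≤ 2 ^ r := pow_le_pow_right₀ one_le_two (by have := mem_range.1 hi; omega)
    rw [pow_succ] at this
    linarith
  · refine le_add_of_nonneg_of_le (mul_nonneg (by positivity) (Mo.inj_nonneg _ _)) ?_
    rw [← pow_mul]
    exact pow_le_pow_right₀ one_le_two (Nat.mul_le_mul_right _ h.le)

lemma ev_le {f : ℝ → ℝ} (h : Tendsto f atTop (𝓝 0)) : ∀ᶠ R in atTop, f R ≤ 1 :=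
  h.eventually (ge_mem_nhds one_pos)

lemma prod_le_sum_pow {T : Type} [Fintype T] [Nonempty T] {k : ℕ} (σ : Fin k → T) (s : T → ℕ) :
    (∏ j, (s (σ j) : ℝ)) ^ 2 ≤ ∑ t, (s t : ℝ) ^ (k * 2) := by
  obtain ⟨t, -, ht⟩ := exists_max_image univ s univ_nonempty
  refine le_trans ?_ (single_le_sum (f := fun t => (s t : ℝ) ^ (k * 2)) (fun _ _ => by positivity)
    (mem_univ t))
  rw [pow_mul]
  gcongr
  exact_mod_cast (prod_le_pow_card _ _ _ fun j _ => ht (σ j) (mem_univ _)).trans (by simp)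

variable {T : Type} [Fintype T] [DecidableEq T] {z K M : ℕ} {l₀ : Fin 3 → ℤ} {B : Vv z → Vv z → F}
  {W : T → Finset (Vv z)} {g : Fin 3 → Gm z → ℤ} {r0 : Gm z → Vv z} {r1 : Fin 3 → ℕ → Vv z}
  {b : T → Fin 3 → ℕ → F} {k : ℕ}

lemma ev_hm : ∀ᶠ R in atTop, ∀ l ∈ LL z K M R l₀, ∀ i, ∃ p : Pr z l, (p : ℕ) ∈ med R ∧ fm l p = i := by
  filter_upwards [ev_base z, prob_ss] with R ⟨⟨a1, _⟩, ⟨_, a2, a3⟩, _⟩ ⟨a4, _⟩ l hl i
  obtain ⟨p, hp⟩ := card_pos.1 ((Nat.one_le_ceil_iff.2 (by linarith)).trans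
    (card_rng a1 (LL_good hl).1 (LL_good hl).2 i).1)
  exact ⟨p, (mem_filter.1 hp).2⟩

variable [NeZero M] (hz : 2 ≤ z)
  (ok : ∀ R, ∀ l ∈ LL z K M R l₀, ∀ t, ((mkJD z B W g r0 r1 b l).D t).Ok)
  (hg : ∀ i γ, Squarefree (g i γ) ∧ ∀ q : ℕ, q.Prime → (q : ℤ) ∣ g i γ → q ≤ z)
  (hg' : ∀ γ, g 0 γ = 1 → g 1 γ = 1 → γ = 0)
include hz ok hg hg'

lemma bdd_mom (t : T) (n : ℕ) : ∃ C, ∀ᶠ R in atTop,
    ∑ l ∈ LL z K M R l₀, ww R l * (#((mkJD z B W g r0 r1 b l).D t).S : ℝ) ^ n ≤ C := by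
  have ok' : ∀ R, ∀ l ∈ LL z K M R l₀, (mkSD z B (W t) g r0 r1 (b t) l).Ok := fun R l hl => ok R l hl t
  refine ⟨2 ^ n + (2 ^ n * 2 ^ (n * (n + 1) / 2) + 2 ^ (n * n)) * 4 ^ n * (1 + 5), ?_⟩
  filter_upwards [ev_le (mom_t hz ok' 0 n), ev_le (kap_tend ok' hg hg' n), ww_sum,
    ev_hm (z := z) (K := K) (M := M) (l₀ := l₀)] with R h1 h2 ⟨h3, h4⟩ h5
  have h6 := add_le_add h2 (h4 _ (LL_sub (z := z) (K := K) (M := M) (l₀ := l₀)))
  refine le_trans ?_ (add_le_add (mul_le_of_le_one_right (by positivity) h1)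
    (mul_le_mul_of_nonneg_left h6 (by positivity)))
  rw [← sum_add_distrib, mul_sum, mul_sum, ← sum_add_distrib]
  refine sum_le_sum fun l hl => ?_
  have := mul_le_mul_of_nonneg_left (pow_le_inj n ((mkSD z B (W t) g r0 r1 (b t) l).rk
    fun p => (p : ℕ) ∈ med R)) (show 0 ≤ ww R l * (4 * #((mkSD z B (W t) g r0 r1 (b t) l).K
      fun p => (p : ℕ) ∈ med R) : ℝ) ^ n from mul_nonneg (h3 l) (by positivity))
  erw [(ok' R l hl).card_S (m := fun p => p.1 ∈ med R) (h5 l hl)]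
  push_cast
  simp only [sgn, if_true, mul_pow] at this ⊢
  linarith

open Classical in
theorem cls_pos [Nonempty T] (hb : ∀ t t', t ≠ t' → ∃ D : ℤ, ¬ IsSquare D ∧
      ∀ i (p : ℕ), p.Prime → z < p → jacobiSym D p = -1 → b t i p ≠ b t' i p)
    (hp : ∀ R, ∀ l ∈ LL z K M R l₀, ∀ t t', sgn 1 #((mkJD z B W g r0 r1 b l).D t).S =
      sgn 1 #((mkJD z B W g r0 r1 b l).D t').S) {η : ℝ} (hη : 0 < η) : ∀ᶠ R in atTop,
    (2 * law 0) ^ Fintype.card T * ((∑ l ∈ LL z K M R l₀, ww R l) / 2) - η ≤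
      ∑ l ∈ LL z K M R l₀ with ∀ t, #((mkJD z B W g r0 r1 b l).D t).S = 4, ww R l := by
  obtain ⟨t0⟩ := id ‹Nonempty T›
  obtain ⟨S, hS⟩ : ∃ S : (Fin 3 → ℤ) → T → ℕ, ∀ l t, #((mkJD z B W g r0 r1 b l).D t).S = S l t :=
    ⟨_, fun _ _ => rfl⟩
  obtain ⟨κ, hκ⟩ : ∃ κ : ℝ → (Fin 3 → ℤ) → T → ℕ, ∀ R l t,
    #(((mkJD z B W g r0 r1 b l).D t).K fun p => (p : ℕ) ∈ med R) = κ R l t := ⟨_, fun _ _ _ => rfl⟩
  obtain ⟨ρ, hρ⟩ : ∃ ρ : ℝ → (Fin 3 → ℤ) → T → ℕ, ∀ R l t,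
    (((mkJD z B W g r0 r1 b l).D t).rk fun p => (p : ℕ) ∈ med R) = ρ R l t := ⟨_, fun _ _ _ => rfl⟩
  obtain ⟨Bad, hB⟩ : ∃ Bad : ℝ → (Fin 3 → ℤ) → Prop, ∀ R l, Bad R l ↔ (∃ t, κ R l t ≠ 1) ∨
    (mkJD z B W g r0 r1 b l).Dep fun p => (p : ℕ) ∈ med R := ⟨_, fun _ _ => Iff.rfl⟩
  have k1 : ∀ R, ∀ l ∈ LL z K M R l₀, ∀ t, 1 ≤ κ R l t ∧ κ R l t ≤ S l t := fun R l hl t =>
    hκ R l t ▸ hS l t ▸ ⟨((ok R l hl t).subK _).pos, card_le_card fun d hd => (SD.mem_K.1 hd).1⟩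
  have b1 : Tendsto (fun R => ∑ l ∈ LL z K M R l₀, ww R l * if Bad R l then 1 else 0) atTop (𝓝 0) := by
    have := (depJ hb hz ok).add (sum0 univ fun t _ => kap_tend (fun R l hl => ok R l hl t) hg hg' 1)
    rw [add_zero] at this
    refine squeeze_zero' (ww_sum.mono fun R h => sum_nonneg fun l _ => mul_nonneg (h.1 l) (by positivity))
      (ww_sum.mono fun R h => ?_) this
    rw [sum_comm, ← sum_add_distrib]
    refine sum_le_sum fun l hl => ?_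
    rw [← mul_sum, ← mul_add]
    refine mul_le_mul_of_nonneg_left ?_ (h.1 l)
    have p : ∀ t ∈ univ, (0 : ℝ) ≤ κ R l t ^ 1 - 1 := fun t _ => by
      simpa using (k1 R l hl t).1
    change _ ≤ _ + ∑ t, ((#(((mkJD z B W g r0 r1 b l).D t).K fun p => (p : ℕ) ∈ med R) : ℝ) ^ 1 - 1)
    simp only [hκ, hB]
    have p1 := sum_nonneg p
    split_ifs with e1 e2 e2
    · linarith
    · obtain ⟨t, ht⟩ := e1.resolve_right e2
      have : (2 : ℝ) ≤ κ R l t := by have := (k1 R l hl t).1; exact_mod_cast (by omega)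
      linarith [single_le_sum p (mem_univ t)]
    · linarith
    · linarith
  have b2 : ∀ (k : ℕ) (σ : Fin k → T) (c : ℝ) (X : ℝ → (Fin 3 → ℤ) → ℝ),
      (∀ R, ∀ l ∈ LL z K M R l₀, |X R l| ≤ c * ∏ j, (S l (σ j) : ℝ)) →
      Tendsto (fun R => ∑ l ∈ LL z K M R l₀, ww R l * if Bad R l then X R l else 0) atTop (𝓝 0) := by
    intro k σ c X hX
    choose C hC using fun t => bdd_mom hz ok hg hg' t (k * 2)
    have ha := tendsto_one_div_add_atTop_nhds_zero_nat (𝕜 := ℝ).mul_const (c ^ 2 * ∑ t, C t)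
    rw [zero_mul] at ha
    refine Mo.tend_of_approx ha fun n => ⟨_, cm0 (n + 1) b1, ?_⟩
    filter_upwards [ww_sum, eventually_all.2 hC] with R ⟨h1, _⟩ h2
    have h3 := mul_le_mul_of_nonneg_left (mul_le_mul_of_nonneg_left (sum_le_sum (s := univ)
      fun t _ => h2 t) (sq_nonneg c)) (show (0 : ℝ) ≤ 1 / (n + 1) by positivity)
    refine (abs_sum_le_sum_abs _ _).trans (le_trans ?_ (add_le_add_right h3 _))
    rw [sum_comm, mul_sum, mul_sum, mul_sum, ← sum_add_distrib]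
    refine sum_le_sum fun l hl => ?_
    simp only [hS]
    rw [abs_mul, abs_of_nonneg (h1 l), ← mul_sum, mul_left_comm, mul_left_comm (c ^ 2),
      mul_left_comm (1 / _), ← mul_add]
    refine mul_le_mul_of_nonneg_left ?_ (h1 l)
    have d1 : |X R l| ^ 2 ≤ c ^ 2 * ∑ t, (S l t : ℝ) ^ (k * 2) :=
      (pow_le_pow_left₀ (abs_nonneg _) (hX R l hl) 2).trans (by
        rw [mul_pow]; exact mul_le_mul_of_nonneg_left (prod_le_sum_pow σ (S l)) (sq_nonneg c))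
    split_ifs
    · refine le_trans ?_ (add_le_add_right (mul_le_mul_of_nonneg_left d1 (by positivity)) _)
      rw [mul_one, one_div, ← div_eq_inv_mul, add_div' _ _ _ (by positivity), le_div_iff₀ (by positivity)]
      nlinarith [sq_nonneg (|X R l| - (n + 1)), abs_nonneg (X R l), Nat.cast_nonneg (α := ℝ) n]
    · rw [abs_zero]; positivity
  have e1 : ∀ n, sgn 1 n = 1 ∨ sgn 1 n = -1 := fun n => (abs_eq zero_le_one).1 (abs_sgn 1 n)
  have hm := ev_hm (z := z) (K := K) (M := M) (l₀ := l₀)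
  have c1 : ∀ᶠ R in atTop, ∀ l ∈ LL z K M R l₀, ¬ Bad R l → ∀ t, S l t = 2 ^ (ρ R l t + 2) :=
    hm.mono fun R h l hl n t => by
      rw [← hS, (ok R l hl t).card_S (m := fun p => p.1 ∈ med R) (h l hl), hκ, hρ, pow_add,
        not_not.1 fun e => n ((hB R l).2 (.inl ⟨t, e⟩))]; rfl
  have := joint_mom (fun R => LL z K M R l₀)
    (fun R l => if Bad R l then 0 else ww R l * (1 + sgn 1 (S l t0)) / 2) ρ
    (fun R => (∑ l ∈ LL z K M R l₀, ww R l) / 2) ?_ ⟨5 / 2, ww_sum.mono fun R h => by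
      rw [abs_of_nonneg (div_nonneg (sum_nonneg fun l _ => h.1 l) zero_le_two)]
      linarith [h.2 _ (LL_sub (z := z) (K := K) (M := M) (l₀ := l₀))]⟩ (fun q => ?_) univ 0
  · filter_upwards [this.eventually (lt_mem_nhds (neg_lt_zero.2 hη)), c1, ww_sum] with R h1 h2 ⟨h3, _⟩
    simp only [compl_univ, prod_empty, mul_one, card_univ, mem_univ, true_imp_iff] at h1
    rw [sum_filter]
    refine le_trans (by linarith) (sum_le_sum (g := fun l => if ∀ t, _ = 4 then ww R l else 0)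
      (f := fun l => (if Bad R l then 0 else ww R l * (1 + sgn 1 (S l t0)) / 2) *
        if ∀ t, ρ R l t = 0 then 1 else 0) fun l hl => ?_)
    have := h3 l
    by_cases n : Bad R l
    · rw [if_pos n, zero_mul]; positivity
    by_cases e : ∀ t, ρ R l t = 0
    · rw [if_neg n, if_pos e, if_pos fun t => by rw [hS, h2 l hl n, e]; rfl]
      rcases e1 (S l t0) with e | e <;> rw [e] <;> linarith
    · rw [if_neg e, mul_zero]; positivity
  · filter_upwards [c1, ww_sum] with R h2 ⟨h3, _⟩ l hl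
    have := h3 l
    split_ifs with n
    · simp
    rcases e1 (S l t0) with e | e
    · refine ⟨by rw [e]; positivity, fun _ t => ?_⟩
      rw [← hS, hp R l hl t0 t, hS, h2 l hl n, sgn, if_neg one_ne_zero, Nat.log_pow one_lt_two,
        neg_one_pow_eq_one_iff_even (by norm_num)] at e
      exact (Nat.even_add.1 e).2 even_two
    · simp [e]
  obtain ⟨k, ⟨e⟩⟩ : ∃ k, Nonempty (Fin k ≃ Σ t, Fin (q t)) := ⟨_, ⟨(Fintype.equivFin _).symm⟩⟩
  obtain ⟨N, hN⟩ : ∃ N : ℝ → (Fin 3 → ℤ) → ℕ, ∀ R l, (mkJD z B W g r0 r1 b l).CN (fun j => (e j).1)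
    ((mkJD z B W g r0 r1 b l).IndX fun p => (p : ℕ) ∈ med R) = N R l := ⟨_, fun _ _ => rfl⟩
  have m0 := momJ hb hz ok 0 t0 fun j => (e j).1
  have m1 := momJ hb hz ok 1 t0 fun j => (e j).1
  simp only [hN, hκ, hS, JD.card_blk, if_true, sgn, one_mul] at m0
  simp only [hN, hκ, hS, one_ne_zero, if_false, sub_zero] at m1
  push_cast at m0
  rw [prod_mul_distrib] at m0
  obtain ⟨A, hA⟩ : ∃ A : ℝ, ∏ t, 2 ^ (q t * (q t + 1) / 2) = A := ⟨_, rfl⟩
  obtain ⟨Q, hQ⟩ : ∃ Q : ℝ, ∏ t, 4 ^ q t = Q := ⟨_, rfl⟩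
  have A0 : 0 < A := by rw [← hA]; positivity
  have Q0 : 0 < Q := by rw [← hQ]; positivity
  rw [hA, hQ] at m0
  have m2 := ((m0.add m1).add (b2 k (fun j => (e j).1) (2 + A * Q) (fun R l =>
      A * Q * (∏ j, (κ R l (e j).1 : ℝ) - 1) - (1 + sgn 1 (S l t0)) * N R l) fun R l hl => ?_)).const_mul
      (2 * Q)⁻¹
  · rw [add_zero, add_zero, mul_zero] at m2
    refine m2.congr' (hm.mono fun R h => ?_)
    simp only [hA, ← sum_add_distrib, mul_sum, sum_div, sum_mul, ← sum_sub_distrib]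
    refine sum_congr rfl fun l hl => ?_
    split_ifs with n
    · field_simp; ring
    rw [hB, not_or, not_exists] at n
    have := JD.CN_prod (ok R l hl) (h l hl) n.2 e
    simp only [hN, hκ, hρ, not_not.1 (n.1 _), Nat.cast_one, one_pow, one_mul, prod_mul_distrib, hQ,
      prod_const_one] at this ⊢
    rw [this]
    field_simp; ring
  · have d1 : (N R l : ℝ) ≤ ∏ j, (S l (e j).1 : ℝ) := by
      rw [← hN, JD.CN]
      exact_mod_cast (card_filter_le _ _).trans (by simp [hS])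
    have d2 : ∏ j, (κ R l (e j).1 : ℝ) ≤ ∏ j, (S l (e j).1 : ℝ) :=
      prod_le_prod (fun _ _ => Nat.cast_nonneg _) fun j _ => Nat.cast_le.2 (k1 R l hl _).2
    have d3 : 1 ≤ ∏ j, (κ R l (e j).1 : ℝ) := one_le_prod fun j _ => Nat.one_le_cast.2 (k1 R l hl _).1
    have d4 := Nat.cast_nonneg (α := ℝ) (N R l)
    have d5 := mul_pos A0 Q0
    rcases e1 (S l t0) with e | e <;> rw [e, abs_le] <;> constructor <;> nlinarith

end Pool.Agent.Lib.MP_7cad78_nt.PR
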