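import Pool.Agent.Lib.MP_7cad78_nt.J.Par1
import Pool.Agent.Lib.MP_7cad78_nt.J.Par2
import Pool.Agent.Lib.MP_7cad78_nt.J.S2

/-! The descent data of the twists and their common parity. -/

namespace Pool.Agent.Lib.MP_7cad78_nt.PR

open Finset Function

namespace Loc

set_option synthInstance.maxSize 2000

variable {z K : ℕ} {e l : Fin 3 → ℤ} {v : Option ℕ} {q : ℕ} {d : ℤ}

lemma mkSD_congr {B : Vv z → Vv z → F} {W : Finset (Vv z)} {g : Fin 3 → Gm z → ℤ} {r0 : Gm z → Vv z}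
    {r1 : Fin 3 → ℕ → Vv z} {b : Fin 3 → ℕ → F} {l l' : Fin 3 → ℤ} (h1 : Pr z l = Pr z l')
    (h2 : ∀ p ∈ Pr z l, fm l p = fm l' p) (h : (mkSD z B W g r0 r1 b l).Ok) :
    (mkSD z B W g r0 r1 b l').Ok ∧ #(mkSD z B W g r0 r1 b l).S = #(mkSD z B W g r0 r1 b l').S := by
  unfold mkSD at *
  generalize Pr z l = P, Pr z l' = P', fm l = f, fm l' = f' at *
  subst h1
  have : ∀ p : P, f p = f' p := fun p => h2 p p.2
  simp only [this] at h ⊢
  exact ⟨h, trivial⟩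

/-- squarefree with small prime factors -/
def Sm (z : ℕ) (d : ℤ) : Prop := Squarefree d ∧ ∀ q : ℕ, q.Prime → (q : ℤ) ∣ d → q ≤ z

lemma Sm.dvd (h : Sm z d) (hq : q.Prime) (hz : z < q) {a : ℤ} : (q : ℤ) ∣ d * a ↔ (q : ℤ) ∣ a :=
  ⟨fun e => ((Nat.prime_iff_prime_int.1 hq).dvd_or_dvd e).resolve_left fun c => (h.2 q hq c).not_gt hz,
    fun e => e.mul_left _⟩

lemma Sm.simple (h : Sm z d) (hS : Simple z K (dif e)) : Simple z (K + 1) (dif (d • e)) := by
  refine ⟨fun i p hp hz c => hS.sq i p hp hz ?_, fun i j hij p hp hz => ?_, fun i p hp hz c => ?_⟩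
  · exact (Nat.prime_iff_prime_int.1 hp).pow_dvd_of_dvd_mul_left _
      (fun e => (h.2 p hp e).not_gt hz) (dif_tw d e i ▸ c)
  · rw [dif_tw, dif_tw, h.dvd hp hz, h.dvd hp hz]
    exact hS.cop i j hij p hp hz
  · rw [dif_tw] at c
    obtain ⟨j, a, ha, rfl⟩ := dec hp h.1.ne_zero
    have hj : j < 2 := not_le.1 fun n => sqf_nd h.1 hp ((pow_dvd_pow _ n).mul_right _)
    refine hS.val i p hp hz ((Nat.prime_iff_prime_int.1 hp).pow_dvd_of_dvd_mul_left _ ha ?_)
    refine (mul_dvd_mul_iff_left (a := (p : ℤ) ^ j) (pow_ne_zero _ (by exact_mod_cast hp.ne_zero))).1 ?_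
    rw [← mul_assoc, ← pow_add]
    exact (pow_dvd_pow _ (by omega)).trans c

lemma tw_ne (h : Sm z d) (hl : ∀ i, dif e i ≠ 0) (i : Fin 3) : dif (d • e) i ≠ 0 :=
  dif_tw d e i ▸ mul_ne_zero h.1.ne_zero (hl i)

lemma tw_ok (hz : 3 ≤ z) (h : Sm z d) (hl : ∀ i, dif e i ≠ 0) (hS : Simple z K (dif e)) :
    (mkSD z (BV z) (WV z (d • e)) gg R0 (R1 z) (bb z (dif (d • e))) (dif e)).Ok ∧ (Sel (d • e)).ncard =
      #(mkSD z (BV z) (WV z (d • e)) gg R0 (R1 z) (bb z (dif (d • e))) (dif e)).S := by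
  rw [sel_card hz (tw_ne h hl) (h.simple hS)]
  refine mkSD_congr ?_ (fun p hp => ?_) (ok hz (tw_ne h hl) (h.simple hS))
  · ext p
    simp only [mem_Pr (tw_ne h hl), mem_Pr hl, dif_tw]
    exact and_congr_right fun hp => and_congr_right fun hz => by simp only [h.dvd hp hz]
  · obtain ⟨a, b, -⟩ := (mem_Pr (tw_ne h hl)).1 hp
    simp only [fm, dif_tw, h.dvd a b]

lemma bb_tw (hz : 3 ≤ z) (h : Sm z d) (hl : ∀ i, dif e i ≠ 0) (i : Fin 3) (hq : q.Prime) (hq' : z < q) :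
    bb z (dif (d • e)) i q = lg d q + bb z (dif e) i q := by
  have a : ∀ x : Pl z → F, cl (some q) (mk (p0 z) x) = (0, 0, lg (mk (p0 z) x) q) := fun x =>
    cl_odd hq (by omega) fun c => (p0_some.1 (mk_dvd p0_pl hq c)).1.not_gt hq'
  have b := cl_eq_mk (v := some q) hq p0_inj p0_pl ⟨none, rfl⟩ h.1.ne_zero fun r hr c =>
    p0_some.2 ⟨h.2 r hr c, hr⟩
  have c := a fun u => xp (p0 z u) (dif (d • e) (i + 1))
  rw [cl_mk (v := some q) hq p0_pl, sum_congr rfl fun u _ => by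
    rw [dif_tw, xp_mul (p0_pl u) h.1.ne_zero (hl _), add_smul], sum_add_distrib,
    ← cl_mk (v := some q) hq p0_pl, ← cl_mk (v := some q) hq p0_pl, ← b, a,
    cl_odd hq (by omega) fun c => (h.2 q hq c).not_gt hq'] at c
  exact (congrArg (fun c : C3 => c.2.2) c).symm

lemma q_glob (hz : 3 ≤ z) (hl : ∀ i, dif e i ≠ 0) (hS : Simple z K (dif e)) (γ : Gm z) :
    ∑ u, qq (p0 z u) e (x3 (R0 γ u)) = ∑ p : Pr z (dif e), lg (gg (fm (dif e) p) γ) p := by
  have he := inj_of hl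
  have key : ∀ (i : Fin 3) (η α L a b : F), hs η ((0, 0, η) + (lcl i η α L 1 + lcl i η α L 2) + (0, 0, a))
      ((0, 0, η) + (lcl i η α L 2 + lcl i η α L 0) + (0, 0, b)) = ![a, b, a + b] i := by decide +kernel
  have n : ∀ j, gg j γ ≠ 0 := fun j => mk_ne p0_pl
  have h1 : ∀ v, IsPl v → Hi v (cc e 0 * gg 0 γ) (cc e 1 * gg 1 γ) =
      hs (eta v) (cl v (cc e 0) + cl v (gg 0 γ)) (cl v (cc e 1) + cl v (gg 1 γ)) := fun v hv => by
    rw [Hi, cl_mul hv (cc_ne he 0) (n _), cl_mul hv (cc_ne he 1) (n _)]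
  have h2 : ∀ j (q : ℕ), q.Prime → (q : ℤ) ∣ cc e j * gg j γ → ∃ i, p1 z (dif e) i = some q :=
    fun j q hq h => by
      have := Nat.prime_iff_prime_int.1 hq
      rw [cc_eq, this.dvd_mul, dvd_neg, this.dvd_mul] at h
      exact h.elim (fun h => h.elim (p1_dvd hl _ q hq) (p1_dvd hl _ q hq)) fun h =>
        (mk_dvd p0_pl hq h).elim fun u hu => ⟨.inl u, hu⟩
  refine (sum_congr rfl fun u _ => (h1 _ (p0_pl u)).symm).trans ((prod_split hz
    (mul_ne_zero (cc_ne he 0) (n 0)) (mul_ne_zero (cc_ne he 1) (n 1)) (h2 0) (h2 1)).trans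
      (sum_congr rfl fun p _ => ?_))
  have hp : IsPl (some p.1) := (Pr_prime p).1
  obtain ⟨α, hα⟩ := cl_dif hp (ne_two hz p) ((fm_iff hl hS p _).2 rfl)
    (hS.sq _ _ hp (Pr_prime p).2) (mt (fm_iff hl hS p _).1 (ne1 _))
  rw [h1 _ hp, cc_eq, cc_eq, cl_neg hp (mul_ne_zero (hl _) (hl _)),
    cl_neg hp (mul_ne_zero (hl _) (hl _)), cl_mul hp (hl _) (hl _), cl_mul hp (hl _) (hl _),
    cl_neg_one hp (ne_two hz p), hα, hα, hα, hα, gg, gg, lg_mk hz, lg_mk hz]
  refine (key _ _ _ _ _ _).trans ?_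
  generalize fm (dif e) p = i
  fin_cases i
  exacts [rfl, rfl, by
    have := sum_DD (l := dif e) hp (γ, 0)
    simp only [cl_DD hp, Pi.zero_apply, zero_smul, sum_const_zero, add_zero, gg, lg_mk hz] at this
    exact congrArg (fun c : C3 => c.2.2) (CC' this)]

theorem par_tw {T : Type} (hz : 3 ≤ z) {D : T → ℤ} (hD : ∀ t, Sm z (D t)) {t1 : T} (h1 : D t1 = 1)
    (hl : ∀ i, dif e i ≠ 0) (hS : Simple z K (dif e)) (hN : Nice z (dif e)) (t : T) :
    sgn 1 #((mkJD z (BV z) (fun t => WV z (D t • e)) gg R0 (R1 z) (fun t => bb z (dif (D t • e)))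
      (dif e)).D t1).S = sgn 1 #((mkJD z (BV z) (fun t => WV z (D t • e)) gg R0 (R1 z)
      (fun t => bb z (dif (D t • e))) (dif e)).D t).S := by
  classical
  have he := inj_of hl
  have he' := fun s => tw_inj he (hD s).1.ne_zero
  have hW : ∀ s y, y ∈ WV z (D s • e) ↔ ∀ u, y u ∈ W2 (p0 z u) (D s • e) := fun s y =>
    Fintype.mem_piFinset
  choose n a1 a2 using idx he hN (hD t).1
  refine JD.par2 (fun s => by exact (tw_ok hz (hD s) hl hS).1) t1 t
    (fun y => ∀ u, TC (kind (p0 z u)) (y u).1 ∧ TC (kind (p0 z u)) (y u).2)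
    (fun y => ∑ u, qq (p0 z u) e (x3 (y u))) (fun a b ha hb u => ?_) (fun g u => ⟨cl_TC _ _, cl_TC _ _⟩)
    (fun s w hw => ⟨fun u => W2_TC ((hW _ _).1 hw u), sum_eq_zero fun u _ => ?_⟩)
    (fun s y hy h => (hW _ _).2 fun u => ?_) (fun a b => ?_) (q_glob hz hl hS) (n := ∑ u, n u) ?_ ?_
  · have : ∀ κ (x y : C3), TC κ x → TC κ y → TC κ (x + y) := by decide
    exact ⟨this _ _ _ (ha u).1 (hb u).1, this _ _ _ (ha u).2 (hb u).2⟩
  · have := (mem_W2.1 ((hW _ _).1 hw u)).q (p0_pl u) (he' s)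
    have c : ∀ i, cl (p0 z u) (cc (D s • e) i) = cl (p0 z u) (cc e i) := fun i => by
      rw [show cc (D s • e) i = D s ^ 2 * cc e i by simp only [cc, Pi.smul_apply, smul_eq_mul]; ring,
        cl_mul (p0_pl u) (pow_ne_zero _ (hD s).1.ne_zero) (cc_ne he i), cl_sq (p0_pl u) (hD s).1.ne_zero,
        zero_add]
    rwa [qq, c, c] at this
  · refine ((big (p0_pl u) (he' s)).max (p0_pl u) (he' s)).2 _ (hy u).1 (hy u).2 fun x hx => ?_
    rw [← h (Pi.single u x) ((hW _ _).2 fun u' => ?_)]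
    · change _ = BV z _ _
      rw [BV, sum_eq_single u (fun u' _ h' => by simp [Pi.single_eq_of_ne h', B2, hs_zr]) (by simp),
        Pi.single_eq_same]
    · by_cases h' : u' = u
      · subst h'; simpa using hx
      · rw [Pi.single_eq_of_ne h']; exact W2_zero
  · change _ = _ + BV z a b
    rw [BV, ← sum_add_distrib, ← sum_add_distrib]
    refine sum_congr rfl fun u _ => ?_
    have := (InW.zero (v := p0 z u) (e := e)).q (p0_pl u) he
    simp only [qq, x3, B2, Pi.add_apply, Prod.fst_add, Prod.snd_add, Matrix.cons_val, hs_addl, hs_addr,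
      Pi.zero_apply, add_zero, hs_comm _ (b u).1 (a u).2] at this ⊢
    rw [this]
    grind
  · change #(WV z (D t1 • e)) = _ * #(WV z (D t1 • e) ∩ WV z (D t • e))
    rw [h1, one_smul, show WV z e ∩ WV z (D t • e) =
      Fintype.piFinset fun u => W2 (p0 z u) e ∩ W2 (p0 z u) (D t • e) by ext; simp [WV, forall_and],
      WV, Fintype.card_piFinset, Fintype.card_piFinset, ← prod_pow_eq_pow_sum, ← prod_mul_distrib]
    exact prod_congr rfl fun u _ => a1 u
  · have n0 := mul_ne_zero (mul_ne_zero (hl 0) (hl 1)) (hl 2)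
    rw [Nat.cast_sum, sum_congr rfl fun u _ => a2 u, prod_split (l := dif e) hz (hD t).1.ne_zero n0
      (fun q hq c => (p0_some.2 ⟨(hD t).2 q hq c, hq⟩).elim fun u hu => ⟨.inl u, hu⟩) fun q hq c => by
        have := Nat.prime_iff_prime_int.1 hq
        rw [this.dvd_mul, this.dvd_mul] at c
        exact c.elim (fun h => h.elim (p1_dvd hl _ q hq) (p1_dvd hl _ q hq)) (p1_dvd hl _ q hq)]
    refine sum_congr rfl fun p _ => ?_
    obtain ⟨p1, p2⟩ := Pr_prime p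
    have hp : IsPl (some p.1) := p1
    change _ = bb z (dif (D t1 • e)) _ p + bb z (dif (D t • e)) _ p
    have b : ∀ j, (cl (some p.1) (dif e j)).1 = if fm (dif e) p = j then 1 else 0 := fun j => by
      simp only [val_one hp (hS.sq _ _ hp p2), fm_iff hl hS]
    have c : ∀ i : Fin 3, ((if i = 0 then 1 else 0) + (if i = 1 then 1 else 0) +
      if i = 2 then 1 else 0 : F) = 1 := by decide
    rw [bb_tw hz (hD t) hl _ p1 p2, h1, one_smul, add_left_comm, Fadd, add_zero, Hi,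
      cl_odd p1 (ne_two hz p) fun c => ((hD t).2 _ p1 c).not_gt p2, hs,
      cl_mul hp (mul_ne_zero (hl 0) (hl 1)) (hl 2), cl_mul hp (hl 0) (hl 1)]
    simp [b, c]

end Loc

end Pool.Agent.Lib.MP_7cad78_nt.PR
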