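import Pool.Agent.Lib.MP_7cad78_nt.J.Par3
import Pool.Agent.Lib.MP_7cad78_nt.J.S2

/-! A congruence class of positive density with good reduction at the small primes. -/

namespace Pool.Agent.Lib.MP_7cad78_nt.PR

open Finset Filter Topology

lemma ap {m : ℕ} (hm : 0 < m) {M : ℤ} (h : IsCoprime (m : ℤ) M) (c : ℤ) (N : ℕ) :
    (#{y ∈ Ioc (0 : ℤ) N | (m : ℤ) ∣ c + M * y} : ℝ) ≤ N / m + 1 := by
  obtain ⟨u, v, e⟩ := h
  have := (abs_le.1 (cls (a := 0) (b := N) (by positivity) hm (-c * v))).2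
  rw [Int.card_Ioc, sub_zero, Int.toNat_natCast] at this
  refine le_trans (Nat.cast_le.2 (card_le_card fun y hy => ?_)) (sub_le_iff_le_add'.1 this)
  obtain ⟨a, k, hk⟩ := mem_filter.1 hy
  exact mem_filter.2 ⟨a, v * k + y * u, by linear_combination v * hk - y * e⟩

variable {z K M : ℕ} {l₀ : Fin 3 → ℤ}

open Classical in
lemma ap2 (hz : 2 ≤ z) (hM : ∀ p : ℕ, p.Prime → z < p → IsCoprime (p : ℤ) M) {c : ℤ} (hc : 0 < c) {N : ℕ}
    {R : ℝ} (h : (c : ℝ) + M * N ≤ R) :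
    (#{y ∈ Ioc (0 : ℤ) N | ∃ p : ℕ, p.Prime ∧ z < p ∧ (p : ℤ) ^ 2 ∣ c + M * y} : ℝ) ≤ 2 * N / z + √R := by
  have s0 := Real.sqrt_nonneg R
  refine (card_union_le' _ (rg z √R) _ (fun p y => ((p ^ 2 : ℕ) : ℤ) ∣ c + M * y)
    fun y hy ⟨p, a, b, d⟩ => ⟨p, (mem_rg s0).2 ⟨a, by exact_mod_cast b, Real.le_sqrt_of_sq_le ?_⟩,
      by exact_mod_cast d⟩).trans ((sum_le_sum (g := fun p : ℕ => N * (1 / (p : ℝ) ^ 2) + 1) fun p hp => ?_).trans ?_)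
  · obtain ⟨y0, y1⟩ := mem_Ioc.1 hy
    refine le_trans ?_ h
    have : (p : ℤ) ^ 2 ≤ c + M * N := (Int.le_of_dvd (by positivity) d).trans (by gcongr)
    exact_mod_cast this
  · obtain ⟨a, b, -⟩ := (mem_rg s0).1 hp
    refine (ap (pow_pos a.pos 2) (by exact_mod_cast (hM p a (by exact_mod_cast b)).pow_left) c N).trans_eq ?_
    push_cast; ring
  · rw [sum_add_distrib, ← mul_sum, sum_const, nsmul_one]
    refine add_le_add ((mul_le_mul_of_nonneg_left (inv_sq_tail _ (y := z) (by exact_mod_cast hz)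
      fun p hp => ((mem_rg s0).1 hp).2.1) (by positivity)).trans_eq (by ring)) (card_rg_le _ s0)

lemma card_prod_le {α β : Type*} (s : Finset α) (t : Finset β) (P : α → β → Prop) [∀ a, DecidablePred (P a)]
    {C : ℝ} (h : ∀ a ∈ s, (#{b ∈ t | P a b} : ℝ) ≤ C) : (#{x ∈ s ×ˢ t | P x.1 x.2} : ℝ) ≤ #s * C := by
  rw [card_ite, sum_product, ← nsmul_eq_mul]
  exact sum_le_card_nsmul _ _ _ fun a ha => (card_ite _ _).ge.trans (h a ha)

lemma arith {δ R N z L : ℝ} (δ0 : 0 < δ) (R0 : 0 ≤ R) (n1 : N ≤ 2 * δ * R) (n2 : δ * R ≤ N) (z0 : 20 ≤ z)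
    (a4 : 16 / δ ^ 2 ≤ R) (a5 : 48 / δ ≤ √R) (b6 : N * N ≤ L + (N * (2 * N / z + √R) + N * (2 * N / z + √R) +
      (N * (2 * N / z + √R) + (4 * N ^ 2 / z + 2 * R)) + 3 * (2 * R * (δ ^ 2 / 48 * R)))) :
    δ ^ 2 / 8 * R ^ 2 ≤ L := by
  have N0 : (0 : ℝ) ≤ N := le_trans (by positivity) n2
  have e1 : (N : ℝ) / z ≤ N / 20 := by gcongr
  have e2 : √R ≤ δ * R / 48 := by
    rw [div_le_iff₀ δ0] at a5
    nlinarith [Real.mul_self_sqrt R0, Real.sqrt_nonneg R]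
  rw [div_le_iff₀ (by positivity)] at a4
  rw [mul_div_assoc, mul_div_assoc, sq (N : ℝ), mul_div_assoc] at b6
  linarith [mul_le_mul_of_nonneg_left e1 N0, mul_le_mul n1 e2 (Real.sqrt_nonneg R) (by positivity),
    mul_le_mul n2 n2 (by positivity) N0, mul_le_mul_of_nonneg_left a4 R0]

open Classical in
theorem LL_ge [NeZero M] (hz : 20 ≤ z) (hM : ∀ p : ℕ, p.Prime → z < p → IsCoprime (p : ℤ) M)
    (h0 : l₀ 0 + l₀ 1 + l₀ 2 = 0) (h1 : 0 < l₀ 1) (h2 : 0 < l₀ 2)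
    (hv : ∀ l, l 0 + l 1 + l 2 = 0 → Cls M l₀ l → ∀ i, ∀ p : ℕ, p.Prime → p ≤ z → ¬ (p : ℤ) ^ (K + 1) ∣ l i) :
    ∃ c : ℝ, 0 < c ∧ ∀ᶠ R in atTop, c * R ^ 2 ≤ #(LL z K M R l₀) := by
  have M0 : (1 : ℝ) ≤ M := by exact_mod_cast NeZero.one_le
  obtain ⟨δ, hδ⟩ : ∃ δ : ℝ, δ = 1 / (16 * M) := ⟨_, rfl⟩
  have δ0 : 0 < δ := by rw [hδ]; positivity
  have δ1 : δ * (16 * M) = 1 := by rw [hδ]; field_simp
  refine ⟨δ ^ 2 / 8, by positivity, ?_⟩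
  filter_upwards [good_one z (ε := δ ^ 2 / 48) (by positivity), eventually_ge_atTop (16 * M : ℝ),
    eventually_ge_atTop (4 * (l₀ 1 + l₀ 2) : ℝ), eventually_ge_atTop (16 / δ ^ 2),
    Real.tendsto_sqrt_atTop.eventually_ge_atTop (48 / δ)] with R a1 a2 a3 a4 a5
  have R0 : 0 ≤ R := by linarith
  obtain ⟨N, hN⟩ : ∃ N, N = ⌊2 * δ * R⌋₊ := ⟨_, rfl⟩
  have n1 : (N : ℝ) ≤ 2 * δ * R := hN ▸ Nat.floor_le (by positivity)
  have n2 : δ * R ≤ N := by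
    have := hN ▸ Nat.lt_floor_add_one (2 * δ * R)
    nlinarith
  have n3 : (M : ℝ) * N ≤ R / 8 := by nlinarith
  have r1 : (0 : ℝ) < l₀ 1 := by exact_mod_cast h1
  have r2 : (0 : ℝ) < l₀ 2 := by exact_mod_cast h2
  obtain ⟨I, hI⟩ : ∃ I, I = Ioc (0 : ℤ) N := ⟨_, rfl⟩
  have cI : #I = N := by simp [hI]
  have mI : ∀ y ∈ I, 0 < y ∧ (0 : ℝ) ≤ M * y ∧ (M : ℝ) * y ≤ R / 8 := fun y hy => by
    obtain ⟨y0, y1⟩ := mem_Ioc.1 (hI ▸ hy)
    refine ⟨y0, by positivity, le_trans ?_ n3⟩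
    gcongr
    exact_mod_cast y1
  let f : ℤ × ℤ → Fin 3 → ℤ := fun x => ![-(l₀ 1 + l₀ 2 + M * x.1 + M * x.2), l₀ 1 + M * x.1, l₀ 2 + M * x.2]
  have fi : Function.Injective f := fun x y e => by
    have e1 : l₀ 1 + M * x.1 = l₀ 1 + M * y.1 := congrFun e 1
    have e2 : l₀ 2 + M * x.2 = l₀ 2 + M * y.2 := congrFun e 2
    have : (M : ℤ) ≠ 0 := by exact_mod_cast NeZero.ne M
    exact Prod.ext (mul_left_cancel₀ this (by omega)) (mul_left_cancel₀ this (by omega))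
  have fs : ∀ x, f x 0 + f x 1 + f x 2 = 0 := fun x => by simp [f]; ring
  have fm : ∀ x ∈ I ×ˢ I, f x ∈ Reg R ∧ Cls M l₀ (f x) := fun x hx => by
    obtain ⟨x0, x1, x2⟩ := mI _ (mem_product.1 hx).1
    obtain ⟨y0, y1, y2⟩ := mI _ (mem_product.1 hx).2
    have p1 : 0 ≤ M * x.1 := by positivity
    have p2 : 0 ≤ M * x.2 := by positivity
    refine ⟨mem_Reg.2 ⟨R0, by rw [Fin.sum_univ_three, fs], fun i => ?_, ?_⟩, fun i => ⟨?_, ?_⟩⟩
    · fin_cases i <;> simp [f] <;> omega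
    · simp [f, Fin.sum_univ_three]
      nlinarith
    · rw [Int.modEq_iff_dvd]
      fin_cases i
      exacts [⟨x.1 + x.2, by simp [f]; linarith⟩, ⟨-x.1, by simp [f]⟩, ⟨-x.2, by simp [f]⟩]
    · fin_cases i <;> simp [f] <;> omega
  have tr : ∀ (P : ℤ × ℤ → Prop) [DecidablePred P] (s : Finset (Fin 3 → ℤ)), (∀ x ∈ I ×ˢ I, P x → f x ∈ s) →
      (#{x ∈ I ×ˢ I | P x} : ℝ) ≤ #s := fun P _ s h => Nat.cast_le.2 (card_le_card_of_injOn f
    (fun x hx => h x (mem_filter.1 hx).1 (mem_filter.1 hx).2) fi.injOn)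
  let S : ℤ → Prop := fun a => ∃ p : ℕ, p.Prime ∧ z < p ∧ (p : ℤ) ^ 2 ∣ a
  obtain ⟨T, hT⟩ : ∃ T : ℤ → Prop, ∀ a, tt R < |(#(Md R a) : ℝ) - ss R| ∨ tt R < #(Ex z R a) ↔ T a :=
    ⟨_, fun _ => Iff.rfl⟩
  simp only [hT] at a1
  have b0 := card_prod_le I I (fun x y => S (l₀ 1 + l₀ 2 + M * x + M * y)) fun x hx => by
    obtain ⟨x0, x1, x2⟩ := mI _ hx
    exact hI ▸ ap2 (R := R) (by omega) hM (by positivity) (by push_cast; linarith)
  have b2 := card_prod_le I I (fun _ y => S (l₀ 2 + M * y)) fun x hx =>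
    hI ▸ ap2 (R := R) (by omega) hM h2 (by linarith)
  have b1 : (#{x ∈ I ×ˢ I | S (l₀ 1 + M * x.1)} : ℝ) ≤ #I * (2 * N / z + √R) := by
    rw [filter_product_left fun x => S (l₀ 1 + M * x), card_product, Nat.cast_mul, mul_comm]
    exact mul_le_mul_of_nonneg_left (hI ▸ ap2 (R := R) (by omega) hM h1 (by linarith)) (by positivity)
  have z0 : (20 : ℝ) ≤ z := by exact_mod_cast hz
  let C : ℤ × ℤ → Prop := fun x => ∃ p : ℕ, p.Prime ∧ z < p ∧ (p : ℤ) ∣ l₀ 1 + M * x.1 ∧ (p : ℤ) ∣ l₀ 2 + M * x.2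
  have b3 : (#{x ∈ I ×ˢ I | C x} : ℝ) ≤ 4 * N ^ 2 / z + 2 * R := by
    refine (card_union_le' _ (rg z R) _ (fun p x => (p : ℤ) ∣ l₀ 1 + M * x.1 ∧ (p : ℤ) ∣ l₀ 2 + M * x.2)
      fun x hx ⟨p, a, b, d⟩ => ⟨p, (mem_rg R0).2 ⟨a, by exact_mod_cast b, le_of_dvd_Iz ((mem_Bx.1
        (mem_filter.1 (fm x hx).1).1).1 1) d.1⟩, d⟩).trans ((sum_le_sum
          (g := fun p : ℕ => 2 * N ^ 2 * (1 / (p : ℝ) ^ 2) + 2) fun p hp => ?_).trans ?_)
    · obtain ⟨a, b, -⟩ := (mem_rg R0).1 hp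
      rw [filter_product (fun x => (p : ℤ) ∣ l₀ 1 + M * x) fun x => (p : ℤ) ∣ l₀ 2 + M * x, card_product,
        Nat.cast_mul, hI]
      refine (mul_le_mul (ap a.pos (hM p a (by exact_mod_cast b)) _ N)
        (ap a.pos (hM p a (by exact_mod_cast b)) _ N) (by positivity) (by positivity)).trans ?_
      rw [show 2 * N ^ 2 * (1 / (p : ℝ) ^ 2) = 2 * (N / p) ^ 2 by ring]
      nlinarith [sq_nonneg ((N : ℝ) / p - 1)]
    · rw [sum_add_distrib, ← mul_sum, sum_const, nsmul_eq_mul]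
      refine add_le_add ((mul_le_mul_of_nonneg_left (inv_sq_tail _ (y := z) (by linarith)
        fun p hp => ((mem_rg R0).1 hp).2.1) (by positivity)).trans_eq (by ring)) (by linarith [card_rg_le z R0])
  have b4 := (card_union_le' (I ×ˢ I) univ (fun x => ∃ i, T (f x i)) (fun i x => T (f x i))
    fun l _ ⟨i, hi⟩ => ⟨i, mem_univ _, hi⟩).trans (sum_le_card_nsmul _ _ _ fun i _ =>
      (tr (fun x => T (f x i)) {l ∈ Bx R | T (l i)} fun x hx h => mem_filter.2 ⟨(mem_filter.1 (fm x hx).1).1, h⟩).trans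
        ((card_one R0 i T).trans (mul_le_mul_of_nonneg_left a1 (by positivity))))
  have b5 := tr (f · ∈ LL z K M R l₀) _ fun _ _ h => h
  have b6 := (card_or_le (I ×ˢ I) (fun _ => True) (fun x => f x ∈ LL z K M R l₀)
    (fun x => ((S (l₀ 1 + l₀ 2 + M * x.1 + M * x.2) ∨ S (l₀ 1 + M * x.1)) ∨ S (l₀ 2 + M * x.2) ∨ C x) ∨
      ∃ i, T (f x i)) fun x hx _ => by
      by_contra hc
      simp only [S, ← hT, C, not_or, not_exists, not_and, not_lt] at hc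
      obtain ⟨c0, ⟨⟨c1, c2⟩, c3, c4⟩, c5⟩ := hc
      refine c0 (mem_filter.2 ⟨(fm x hx).1, (fm x hx).2, ⟨fun i p a b => ?_, fun i j hij p a b d => ?_,
        hv _ (fs x) (fm x hx).2⟩, c5⟩)
      · fin_cases i
        exacts [fun e => c1 p a b (dvd_neg.1 e), c2 p a b, c3 p a b]
      · have e := fs x
        have : (p : ℤ) ∣ f x 1 ∧ (p : ℤ) ∣ f x 2 := by
          obtain ⟨⟨s, d1⟩, t, d2⟩ := d
          fin_cases i <;> fin_cases j <;> simp only [Fin.reduceFinMk, ne_eq, not_true] at hij d1 d2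
          exacts [⟨⟨t, d2⟩, -s - t, by linarith⟩, ⟨⟨-s - t, by linarith⟩, t, d2⟩, ⟨⟨s, d1⟩, -s - t, by linarith⟩,
            ⟨⟨s, d1⟩, t, d2⟩, ⟨⟨-s - t, by linarith⟩, s, d1⟩, ⟨⟨t, d2⟩, s, d1⟩]
        exact c4 p a b this.1 this.2).trans (add_le_add b5 ((card_or_le _ _ _ _ fun _ _ h => h).trans
    (add_le_add ((card_or_le _ _ _ _ fun _ _ h => h).trans (add_le_add ((card_or_le _ _ _ _ fun _ _ h => h).trans
      (add_le_add b0 b1)) ((card_or_le _ _ _ _ fun _ _ h => h).trans (add_le_add b2 b3)))) b4)))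
  simp only [filter_true, card_product, cI, card_univ, Fintype.card_fin, nsmul_eq_mul] at b6
  push_cast at b6
  exact arith δ0 R0 n1 n2 z0 a4 a5 b6

lemma ww_cnt {ε : ℝ} (hε : 0 < ε) : ∀ᶠ R in atTop, ∀ s ⊆ Bx R, |∑ l ∈ s, ww R l - #s / R ^ 2| ≤ ε := by
  filter_upwards [prob_anc hε, eventually_gt_atTop 0] with R ⟨h1, h2⟩ h3 s hs
  have : ∑ l ∈ s, ww R l - #s / R ^ 2 = (∑ l ∈ s, ((nA R l : ℝ) - mu R)) / (mu R * R ^ 2) := by
    simp only [ww]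
    rw [sum_sub_distrib, sum_const, nsmul_eq_mul, ← sum_div]
    field_simp
  rw [this, abs_div, abs_of_pos (by positivity : 0 < mu R * R ^ 2), div_le_iff₀ (by positivity), ← mul_assoc]
  exact (abs_sum_le_sum_abs _ _).trans ((sum_le_sum_of_subset_of_nonneg hs fun _ _ _ => abs_nonneg _).trans h2)

namespace Loc

variable {l : Fin 3 → ℤ}

lemma Nice.val (h : Nice z l) (h0 : l 0 + l 1 + l 2 = 0) (i : Fin 3) (p : ℕ) (hp : p.Prime) (hz : p ≤ z) :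
    ¬ (p : ℤ) ^ (4 + 1) ∣ l i := fun c => by
  by_cases e : p = 2
  · have a := h.two0
    have b := h.two2
    subst e
    have c' : (32 : ℤ) ∣ l i := c
    have : l i = l 0 ∨ l i = l 1 ∨ l i = l 2 := by fin_cases i <;> simp
    omega
  · exact h.nd hp e hz i ((dvd_pow_self _ (by norm_num)).trans c)

lemma Nice.adm (hz : 3 ≤ z) (h : Nice z l) (h9 : (9 : ℤ) ∣ l 2 - l 1 - 6) (h0 : l 0 + l 1 + l 2 = 0)
    (hs : Simple z K l) : Adm l := by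
  refine ⟨by have := h.odd 3 Nat.prime_three (by norm_num) hz; omega, fun p hp hd => ?_⟩
  have d0 : (3 * p ^ 2 : ℤ) ∣ l 2 - l 1 := hd 0
  have d1 : (3 * p ^ 2 : ℤ) ∣ l 0 - l 2 := hd 1
  have d2 : (3 * p ^ 2 : ℤ) ∣ l 1 - l 0 := hd 2
  rcases le_or_gt p z with c | c
  · by_cases e : p = 2
    · have a := h.two0
      have b := h.two2
      subst e
      norm_num at d1
      omega
    by_cases e' : p = 3
    · subst e'
      norm_num at d0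
      omega
    obtain ⟨-, a, b⟩ := h.odd p hp e c
    refine nd_mul hp (nd_prime hp Nat.prime_two e) (nd_prime hp Nat.prime_three e') ?_
    rw [show ((2 : ℕ) : ℤ) * (3 : ℕ) = l 2 - l 1 - (l 2 - 4 - (l 1 + 2)) by push_cast; ring]
    exact dvd_sub (((dvd_pow_self _ two_ne_zero).mul_left 3).trans d0) (dvd_sub b a)
  · refine hs.sq 0 p hp c ((mul_dvd_mul_iff_left (three_ne_zero' ℤ)).1 ?_)
    rw [show 3 * l 0 = (l 0 - l 2) - (l 1 - l 0) by omega]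
    exact dvd_sub d1 d2

/-- the modulus of the class -/
def MM (z : ℕ) : ℕ := ∏ p ∈ Nat.primesLE z, p ^ (5 + 5)

lemma MM_dvd {p : ℕ} (hp : p.Prime) (hz : p ≤ z) : (p : ℤ) ^ 10 ∣ MM z := by
  exact_mod_cast Int.natCast_dvd_natCast.2 (dvd_prod_of_mem (· ^ 10) (Nat.mem_primesLE.2 ⟨hz, hp⟩))

lemma MM_cop (p : ℕ) (hp : p.Prime) (hz : z < p) : IsCoprime (p : ℤ) (MM z) :=
  Nat.isCoprime_iff_coprime.2 (Nat.Coprime.prod_right fun _ hq => Nat.Coprime.pow_right _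
    ((Nat.coprime_primes hp (Nat.mem_primesLE.1 hq).2).2 (hz.trans_le' (Nat.mem_primesLE.1 hq).1).ne'))

instance : NeZero (MM z) := ⟨(prod_pos fun _ hp => pow_pos (Nat.prime_of_mem_primesLE hp).pos _).ne'⟩

lemma nice_cls (hz : 3 ≤ z) : ∃ l₀ : Fin 3 → ℤ, l₀ 0 + l₀ 1 + l₀ 2 = 0 ∧
    ∀ l, Cls (MM z) l₀ l → Nice z l ∧ (9 : ℤ) ∣ l 2 - l 1 - 6 := by
  obtain ⟨Q, hQ⟩ : ∃ Q : ℕ, Q = ∏ p ∈ (Nat.primesLE z).erase 2, p := ⟨_, rfl⟩
  have q1 : Q.Coprime 128 := hQ ▸ Nat.Coprime.prod_left fun _ hq => Nat.Coprime.pow_right 7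
    ((Nat.coprime_primes (Nat.mem_primesLE.1 (mem_erase.1 hq).2).2 Nat.prime_two).2 (mem_erase.1 hq).1)
  have q2 : ∀ q : ℕ, q.Prime → q ≠ 2 → q ≤ z → (q : ℤ) ∣ Q := fun q a b c => Int.natCast_dvd_natCast.2
    (hQ ▸ dvd_prod_of_mem _ (mem_erase.2 ⟨b, Nat.mem_primesLE.2 ⟨c, a⟩⟩))
  have q3 := (Nat.ModEq.pow_totient q1).dvd
  have q4 := (pow_dvd_pow_of_dvd (q2 3 Nat.prime_three (by norm_num) hz) 2).trans
    (pow_dvd_pow _ (show 2 ≤ Nat.totient 128 by decide))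
  have q5 : ∀ q : ℕ, q.Prime → q ≠ 2 → q ≤ z → (q : ℤ) ∣ Q ^ Nat.totient 128 := fun q a b c =>
    (q2 q a b c).trans (dvd_pow_self _ (by decide))
  have q6 : (0 : ℤ) < Q ^ Nat.totient 128 := pow_pos (by
    exact_mod_cast Nat.pos_of_ne_zero fun e => by simp [e] at q1) _
  push_cast at q3 q4
  generalize (Q : ℤ) ^ Nat.totient 128 = w at q3 q4 q5 q6
  refine ⟨![-2 - 14 * w, -2 + 11 * w, 4 + 3 * w], by simp; ring, fun l h => ?_⟩
  have m : ∀ {p : ℕ} (k i), p.Prime → p ≤ z → k ≤ 10 →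
      (p : ℤ) ^ k ∣ ![-2 - 14 * w, -2 + 11 * w, 4 + 3 * w] i - l i := fun k i a b c =>
    ((pow_dvd_pow _ c).trans (MM_dvd a b)).trans (h i).1.dvd
  have s0 : _ ↔ 0 < -2 - 14 * w := (h 0).2
  have s1 : _ ↔ 0 < -2 + 11 * w := (h 1).2
  have s2 : _ ↔ 0 < 4 + 3 * w := (h 2).2
  have t0 : (128 : ℤ) ∣ -2 - 14 * w - l 0 := m 7 0 Nat.prime_two (by omega) (by norm_num)
  have t2 : (8 : ℤ) ∣ 4 + 3 * w - l 2 := m 3 2 Nat.prime_two (by omega) (by norm_num)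
  have u1 : (9 : ℤ) ∣ -2 + 11 * w - l 1 := m 2 1 Nat.prime_three hz (by norm_num)
  have u2 : (9 : ℤ) ∣ 4 + 3 * w - l 2 := m 2 2 Nat.prime_three hz (by norm_num)
  have t1 : (128 : ℤ) ∣ l 0 + 16 := by clear q4 u1 u2; omega
  refine ⟨⟨by clear q4 q3 u1 u2 t0 t2; omega, s1.2 (by linarith), s2.2 (by linarith), fun q a b c => ?_, t1,
    by clear q4 u1 u2 t1 t0; omega⟩, by clear q3 t1 t0 t2; omega⟩
  obtain ⟨x, hx⟩ := q5 q a b c
  obtain ⟨y0, e0⟩ := m 1 0 a c (by norm_num)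
  obtain ⟨y1, e1⟩ := m 1 1 a c (by norm_num)
  obtain ⟨y2, e2⟩ := m 1 2 a c (by norm_num)
  change -2 - 14 * w - _ = _ at e0
  change -2 + 11 * w - _ = _ at e1
  change 4 + 3 * w - _ = _ at e2
  exact ⟨⟨-14 * x - y0, by linarith⟩, ⟨11 * x - y1, by linarith⟩, 3 * x - y2, by linarith⟩

end Loc

end Pool.Agent.Lib.MP_7cad78_nt.PR
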