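import Pool.Agent.Lib.MP_7cad78_nt.J.A4
import Pool.Agent.Lib.MP_7cad78_nt.J.P1
import Pool.Agent.Lib.MP_7cad78_nt.J.M1

/-! Joint moments in one congruence class. -/

namespace Pool.Agent.Lib.MP_7cad78_nt.PR

open Finset Filter Topology

set_option linter.unusedSectionVars false

/-- the descent data of the twists of a triple -/
def mkJD {T : Type} (z : ℕ) (B : Vv z → Vv z → F) (W : T → Finset (Vv z)) (g : Fin 3 → Gm z → ℤ)
    (r0 : Gm z → Vv z) (r1 : Fin 3 → ℕ → Vv z) (b : T → Fin 3 → ℕ → F) (l : Fin 3 → ℤ) :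
    JD (Gm z) (Vv z) (Pr z l) T where
  f p := fm l p
  B := B
  W := W
  r0 := r0
  r1 p := r1 (fm l p) p
  a p γ := lg (g (fm l p) γ) p
  b t p := b t (fm l p) p
  l p q := lg ((q : ℕ) : ℤ) p

variable {T : Type} [Fintype T] [DecidableEq T] {z K M : ℕ} {l₀ : Fin 3 → ℤ} {B : Vv z → Vv z → F}
  {W : T → Finset (Vv z)} {g : Fin 3 → Gm z → ℤ} {r0 : Gm z → Vv z} {r1 : Fin 3 → ℕ → Vv z}
  {b : T → Fin 3 → ℕ → F} {k : ℕ}

lemma NT_tendJ [NeZero M] (hz : 2 ≤ z) (t : F) (t0 : T) (σ : Fin k → T)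
    (𝒰 : Finset (Fin 3 → Finset (Cl k))) (h : ∀ U ∈ 𝒰, ¬ Triv t U) :
    Tendsto (fun R => ∑ l ∈ LL z K M R l₀, ww R l *
      (mkJD z B W g r0 r1 b l).NT (fun p => (p : ℕ) ∈ med R) t t0 σ 𝒰) atTop (𝓝 0) := by
  simp only [JD.NT, mkJD, mul_sum, mul_left_comm (ww _ _)]
  rw [funext fun R => sum_comm]
  refine sum0 _ fun γ _ => ?_
  rw [funext fun R => sum_comm]
  refine sum0 _ fun w _ => ?_
  rw [funext fun R => sum_comm]
  refine sum0 _ fun U hU => ?_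
  simp only [← mul_sum, ← mul_assoc _ (_ * sg _)]
  refine cm0 _ (tend0 fun ε hε => ?_)
  have := h U hU
  simp only [Triv, not_forall] at this
  obtain ⟨c0, h0, c1, h1, c2, h2, e⟩ := this
  filter_upwards [ant (Cl k) K M hz hε, ev_base z] with R H ⟨_, _, a1, a2⟩
  have := H l₀ ⟨ee t, fun i p => psJ B w γ t (r1 i p) (fun γ => lg (g i γ) p)
    (fun j => b (ox t0 σ j) i p), U, 0⟩ ![c0, c1, c2]
  dsimp only at this
  replace this := this (ee_self t) (fun _ _ _ => abs_psJ ..) (fun i => by fin_cases i; exacts [h0, h1, h2])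
    ((tau_ee t c0 c1 c2).trans (Fne fun c => e (by rw [← add_add_me (Qf _) t, c, zero_add])))
  simp only [ww, div_mul_eq_mul_div]
  rw [← sum_div, abs_div, abs_of_pos (by positivity : 0 < mu R * R ^ 2), div_le_iff₀ (by positivity)]
  exact this.trans (by gcongr; nlinarith [sq_nonneg R])

variable (hb : ∀ t t', t ≠ t' → ∃ D : ℤ, ¬ IsSquare D ∧
  ∀ i (p : ℕ), p.Prime → z < p → jacobiSym D p = -1 → b t i p ≠ b t' i p)
include hb

lemma err_tendJ (k : ℕ) (C : ℝ) {f : ℝ → (Fin 3 → ℤ) → ℝ}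
    (h : ∀ R, ∀ l ∈ LL z K M R l₀, ∀ (a c : ℕ) (Θ : ℝ),
      (∀ i, a ≤ #{p : Pr z l | (p : ℕ) ∈ med R ∧ fm l p = i} ∧
        #{p : Pr z l | (p : ℕ) ∈ med R ∧ fm l p = i} ≤ a + c) → #{p : Pr z l | (p : ℕ) ∉ med R} ≤ c →
      (1 - (8 ^ k)⁻¹) ^ a ≤ Θ → (∀ t t', t ≠ t' → (1 - (8 ^ k)⁻¹) ^
        (mkJD z B W g r0 r1 b l).sep (fun p => (p : ℕ) ∈ med R) t t' ≤ Θ) →
      |f R l| ≤ C * (Er k (Fintype.card (Gm z)) c * Θ)) :
    Tendsto (fun R => ∑ l ∈ LL z K M R l₀, ww R l * f R l) atTop (𝓝 0) := by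
  classical
  choose! D hD hD' using hb
  obtain ⟨ρ, hρ⟩ : ∃ ρ : ℝ, ρ = 1 - (8 ^ k)⁻¹ := ⟨_, rfl⟩
  rw [← hρ] at h
  have u0 : (0 : ℝ) < (8 ^ k)⁻¹ := by positivity
  have r0 : 0 ≤ ρ := hρ ▸ sub_nonneg.2 (inv_le_one_of_one_le₀ (one_le_pow₀ (by norm_num)))
  obtain ⟨A, hA⟩ : ∃ A : ℝ, A = |C| * (Fintype.card (Gm z) ^ (k + 1) * 8 ^ 4 ^ k) +
    4 * (2 * (4 ^ k) ^ 4) := ⟨_, rfl⟩
  have t1 : Tendsto (fun R => ∑ l ∈ LL z K M R l₀, ww R l * (Real.exp (A * tt R) *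
      ρ ^ ⌈ss R - tt R⌉₊)) atTop (𝓝 0) := by
    refine tend0 fun ε hε => ?_
    filter_upwards [ev_base z, prob_ss, ww_sum, ev_tt A (c := (8 ^ k)⁻¹ / 4) (by positivity)
      (show 0 < ε / 5 by positivity)] with R ⟨_, ⟨_, a2, a3⟩, _⟩ ⟨a4, _⟩ ⟨a5, a6⟩ a7
    have : Real.exp (A * tt R) * ρ ^ ⌈ss R - tt R⌉₊ ≤ ε / 5 := by
      refine le_trans (mul_le_mul_of_nonneg_left (pow_le_pow_left₀ r0
        (hρ ▸ Real.one_sub_le_exp_neg _) _) (by positivity)) (le_trans ?_ a7)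
      rw [← Real.exp_nat_mul, ← Real.exp_add, Real.exp_le_exp]
      nlinarith [Nat.le_ceil (ss R - tt R)]
    rw [← sum_mul, abs_of_nonneg (mul_nonneg (sum_nonneg fun l _ => a5 l) (by positivity))]
    exact (mul_le_mul (a6 _ LL_sub) this (by positivity) (by norm_num)).trans (by linarith)
  have t2 := t1.add (sum0 (univ : Finset T).offDiag fun x hx => sep_tend (z := z) (K := K) (M := M)
    (l₀ := l₀) (hD _ _ (mem_offDiag.1 hx).2.2) A r0 (by linarith))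
  rw [add_zero] at t2
  refine squeeze_zero_norm' ?_ t2
  filter_upwards [ev_base z, ww_sum] with R ⟨⟨a1, _⟩, ⟨_, a2, _⟩, _⟩ ⟨a5, _⟩
  rw [sum_comm, ← sum_add_distrib]
  refine (norm_sum_le _ _).trans (sum_le_sum fun l hl => ?_)
  obtain ⟨b1, b2⟩ := LL_good hl
  rw [← mul_sum, ← mul_sum, ← mul_add, ← mul_add, Real.norm_eq_abs, abs_mul, abs_of_nonneg (a5 l)]
  refine mul_le_mul_of_nonneg_left ((h R l hl _ _ (ρ ^ ⌈ss R - tt R⌉₊ + ∑ x ∈ univ.offDiag, ρ ^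
    #{p : Pr z l | (p : ℕ) ∈ med R ∧ jacobiSym (D x.1 x.2) p = -1}) (card_rng a1 b1 b2) (card_ex b1 b2)
    (le_add_of_nonneg_right (by positivity)) fun t t' e => ?_).trans ?_) (a5 l)
  · refine le_add_of_nonneg_of_le (by positivity) (le_trans (pow_le_pow_of_le_one r0 (by linarith)
      (card_le_card fun p hp => ?_)) (single_le_sum (f := fun x : T × T => ρ ^
        #{p : Pr z l | (p : ℕ) ∈ med R ∧ jacobiSym (D x.1 x.2) p = -1}) (fun _ _ => by positivity)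
          (a := (t, t')) (by simpa)))
    obtain ⟨-, c1, c2⟩ := mem_filter.1 hp
    obtain ⟨c3, c4, -⟩ := mem_med.1 c1
    exact mem_filter.2 ⟨mem_univ _, c1, hD' t t' e _ _ c3 (by exact_mod_cast a1.trans_lt c4) c2⟩
  · rw [← mul_assoc]
    refine mul_le_mul_of_nonneg_right ?_ (by positivity)
    rw [hA, add_mul, Real.exp_add, Er, ← mul_assoc]
    exact mul_le_mul (le_trans (by gcongr; exact le_abs_self C) (le_exp_tt a2 (by positivity)))
      (pow_tt a2 (by positivity)) (by positivity) (by positivity)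

variable [NeZero M] (hz : 2 ≤ z)
  (ok : ∀ R, ∀ l ∈ LL z K M R l₀, ∀ t, ((mkJD z B W g r0 r1 b l).D t).Ok)
include hz ok

open Classical in
lemma momJ (t : F) (t0 : T) (σ : Fin k → T) : Tendsto (fun R => ∑ l ∈ LL z K M R l₀, ww R l *
    (sgn t #((mkJD z B W g r0 r1 b l).D t0).S * (mkJD z B W g r0 r1 b l).CN σ
      ((mkJD z B W g r0 r1 b l).IndX fun p => (p : ℕ) ∈ med R) -
      if t = 0 then #{τ : Tp k | JD.Blk σ τ} *
        ∏ j, (#(((mkJD z B W g r0 r1 b l).D (σ j)).K fun p => (p : ℕ) ∈ med R) : ℝ) else 0))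
    atTop (𝓝 0) := by
  have := (NT_tendJ (K := K) (M := M) (l₀ := l₀) (B := B) (W := W) (g := g) (r0 := r0) (r1 := r1) (b := b)
    hz t t0 σ {U | Ind U ∧ ¬ Triv t U} fun U hU => (mem_filter.1 hU).2.2).add
    (err_tendJ hb k _ fun R l hl a c Θ h1 h2 h3 h4 => JD.alg (ok R l hl) t t0 σ h1 h2 h3 h4)
  rw [add_zero] at this
  exact this.congr fun R => by rw [← sum_add_distrib]; exact sum_congr rfl fun l _ => by ring

open Classical in
lemma depJ : Tendsto (fun R => ∑ l ∈ LL z K M R l₀, ww R l *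
    if (mkJD z B W g r0 r1 b l).Dep fun p => (p : ℕ) ∈ med R then 1 else 0) atTop (𝓝 0) := by
  have a : ∀ k, ∀ σ ∈ ({σ : Fin k → T | ∃ j0 j1, σ j1 ≠ σ j0} : Finset _), Tendsto (fun R =>
      ∑ l ∈ LL z K M R l₀, ww R l * (mkJD z B W g r0 r1 b l).CN σ
        ((mkJD z B W g r0 r1 b l).MnX fun p => (p : ℕ) ∈ med R)) atTop (𝓝 0) := fun k σ hσ => by
    obtain ⟨-, j0, j1, e⟩ := mem_filter.1 hσ
    have := (NT_tendJ (K := K) (M := M) (l₀ := l₀) (B := B) (W := W) (g := g) (r0 := r0) (r1 := r1)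
      (b := b) hz 0 (σ j0) σ {U | Mn U ∧ ¬ Triv 0 U} fun U hU => (mem_filter.1 hU).2.2).add
      (err_tendJ hb k (8 ^ 4 ^ k * 2) fun R l hl a c Θ h1 h2 h3 h4 =>
        (JD.EE_dep (ok R l hl) σ j0 j1 h1 h2 h3 (h4 _ _ e)).trans_eq (mul_assoc _ _ _).symm)
    rw [add_zero] at this
    refine this.congr fun R => ?_
    rw [← sum_add_distrib]
    refine sum_congr rfl fun l hl => ?_
    rw [← mul_add, JD.NT_eq (ok R l hl), sgn, if_pos rfl, one_mul,
      ← JD.EE_union σ (by simp only [disjoint_left, mem_filter]; tauto), JD.EE_cnt]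
    intro x y
    simp only [mem_union, mem_filter, mem_univ, true_and, ← JD.mn_uu (y := y)]
    tauto
  refine squeeze_zero' (ww_sum.mono fun R h => sum_nonneg fun l _ => mul_nonneg (h.1 l) (by positivity))
    (ww_sum.mono fun R h => ?_) (sum0 (range (Fintype.card T + 1)) fun k _ => sum0 _ (a k))
  rw [sum_congr rfl fun k _ => sum_comm, sum_comm]
  refine sum_le_sum fun l _ => ?_
  simp only [← mul_sum]
  refine mul_le_mul_of_nonneg_left ?_ (h.1 l)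
  split_ifs with e
  · obtain ⟨k, h1, σ, h2, h3⟩ := JD.dep_min e
    refine le_trans ?_ (single_le_sum (fun _ _ => sum_nonneg fun _ _ => Nat.cast_nonneg _)
      (mem_range.2 (Nat.lt_succ_of_le h1)))
    exact le_trans (Nat.one_le_cast.2 h3) (single_le_sum (f := fun σ => ((mkJD z B W g r0 r1 b l).CN σ
      ((mkJD z B W g r0 r1 b l).MnX fun p => (p : ℕ) ∈ med R) : ℝ)) (fun _ _ => Nat.cast_nonneg _)
      (mem_filter.2 ⟨mem_univ σ, h2⟩))
  · exact sum_nonneg fun _ _ => sum_nonneg fun _ _ => Nat.cast_nonneg _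

end Pool.Agent.Lib.MP_7cad78_nt.PR
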